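import Pool.Agent.H67CS.Low

/-!
Connection of wired sets, quadrant: adding a set, both bounds in terms of one-arm probabilities.
-/

set_option autoImplicit false

namespace H67CS
open Finset H974 Pool.Agent.H160R2.CV H362P TH976
open Pool.Agent.H160R2.CV.Quad

/-- `a` is the distance between `K` and `X` -/
def Near2 (K X : Finset Vtx) (a : ℕ) : Prop :=
  IsLeast {n : ℕ | ∃ u ∈ K, ∃ v ∈ X, n = sd u v} a

/-- the data: `X` is a set of vertices with wired edges `W`, and `K` is a new set of diameter `d`,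
connected by the edges `V`, at distance `a ≥ 1` from `X` -/
structure Dat (X K : Finset Vtx) (W V : Finset Edg) (a d D : ℕ) : Prop where
  hW : Ends W (fun v => v ∈ X)
  hV : Ends V (fun v => v ∈ K)
  hK : Cn K (↑V)
  near : Near2 K X a
  ha : 1 ≤ a
  dK : Diam K d
  dX : Diam X D

/-- the condition for the upper bound: all the components of `X` have diameter of order at least
`d` -/
def Thk (X : Finset Vtx) (W : Finset Edg) (d D : ℕ) : Prop :=
  d ≤ D ∧ ∀ u ∈ X, ∃ v, d ≤ 2 * sd u v ∧ Reach (↑W) u v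

/-- the constant of the addition of a set -/
noncomputable def kc : ℝ := kr ^ 2 * (k4 * km ^ 2 * ku)

theorem kc_pos : 0 < kc := by
  have := kr_pos
  have := k4_pos
  have := km_pos
  have := ku_pos
  unfold kc
  positivity

theorem far_pt {X : Finset Vtx} {D : ℕ} (h : Diam X D) (y : Vtx) :
    max D 1 ≤ 15 ∨ ∃ z ∈ X, max D 1 ≤ 2 * sd z y := by
  obtain ⟨⟨p, hp, r, hr, hD⟩, -⟩ := h
  have h1 : D ≤ sd p y + sd r y := by
    rw [hD, sd_comm r y]
    exact sd_tri p y r
  rcases Nat.lt_or_ge (sd p y) (sd r y) with h2 | h2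
  · by_cases h3 : max D 1 ≤ 15
    · exact Or.inl h3
    · exact Or.inr ⟨r, hr, by omega⟩
  · by_cases h3 : max D 1 ≤ 15
    · exact Or.inl h3
    · exact Or.inr ⟨p, hp, by omega⟩

/-- **Adding a set**, finite volume. -/
theorem add_setQ {X K : Finset Vtx} {W V : Finset Edg} {a d D : ℕ} (h : Dat X K W V a d D)
    (hXV : ∀ u ∈ X, InV u) (hKV : ∀ u ∈ K, InV u) {x y : Vtx} (hx : x ∈ K) (hy : y ∈ X)
    {S : Finset Edg} (hSQ : InQ S) (hS : qb x (64 * (a + max d 1)) ⊆ S) :
    kc * ((aq x (max a (max d 1)) * aq y (max a (max D 1))) *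
        Pr P S (fun F => CW X W (↑F))) ≤
      (aq x (max d 1) * aq y (max D 1)) * Pr P S (fun F => CW (K ∪ X) (V ∪ W) (↑F)) ∧
    (Thk X W d D →
      kc * ((aq x (max d 1) * aq y (max D 1)) * Pr P S (fun F => CW (K ∪ X) (V ∪ W) (↑F))) ≤
      (aq x (max a (max d 1)) * aq y (max a (max D 1))) * Pr P S (fun F => CW X W (↑F))) := by
  obtain ⟨⟨x0, hx0, y0, hy0, hay⟩, hmin⟩ := h.near
  have hdK := h.dK
  have hdX := h.dX
  have hx0K : sd x x0 ≤ d := hdK.2 ⟨x, hx, x0, hx0, rfl⟩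
  have hy0X : sd y y0 ≤ D := hdX.2 ⟨y, hy, y0, hy0, rfl⟩
  have hxV := hKV x hx
  have hyV := hXV y hy
  have hx0V := hKV x0 hx0
  have hy0V := hXV y0 hy0
  set d' := max d 1 with hd'
  set D' := max D 1 with hD'
  have h1 : 1 ≤ d' := le_max_right _ _
  have h2 : 1 ≤ D' := le_max_right _ _
  have hyx : sd y0 x0 = a := by rw [sd_comm]; exact hay.symm
  have hVQ : InQ V := inQ_of h.hV hKV
  have hWQ : InQ W := inQ_of h.hW hXV
  have hSx : qb x0 (32 * (a + d')) ⊆ S := (qb_sub (by rw [sd_comm]; omega)).trans hS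
  have L := low1 hx0V hy0V hx0 hy0 hyx h.ha h1 h2 hVQ hWQ h.hK (far_pt hdK x0) (far_pt hdX y0)
    hSQ ((qb_mono (by omega)).trans hSx)
  have pt : ∀ v ∈ X, InV v ∧ a ≤ sd v x0 ∧ sd v y0 ≤ D' := by
    intro v hv
    refine ⟨hXV v hv, ?_, ?_⟩
    · rw [sd_comm]
      exact hmin ⟨x0, hx0, v, hv, rfl⟩
    · have := hdX.2 ⟨v, hv, y0, hy0, rfl⟩
      omega
  have U := fun ht : Thk X W d D => upper hx0V hy0V hx0 hy0 hyx h.ha h1
    (show d' ≤ D' by have := ht.1; omega)
    (V := V) (W := W) (K := K) (X := X) (S := S)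
    (fun e he => by
      have k1 := h.hV e he
      have k2 := hdK.2 ⟨_, k1.1, x0, hx0, rfl⟩
      have k3 := hdK.2 ⟨_, k1.2, x0, hx0, rfl⟩
      exact ⟨⟨hKV _ k1.1, by omega⟩, ⟨hKV _ k1.2, by omega⟩⟩)
    pt (fun e he => ⟨pt _ (h.hW e he).1, pt _ (h.hW e he).2⟩)
    (fun h32 u hu => by
      obtain ⟨v, hv, hr⟩ := ht.2 u hu
      exact ⟨v, by omega, hr⟩) hSQ hSx
  have rx1 := aq_rat hx0V hxV h1 (by rw [sd_comm]; omega) (le_max_right a d')
  have ry1 := aq_rat hy0V hyV h2 (by rw [sd_comm]; omega) (le_max_right a D')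
  have rx2 := aq_rat hxV hx0V h1 (by omega) (le_max_right a d')
  have ry2 := aq_rat hyV hy0V h2 (by omega) (le_max_right a D')
  have pA := aq_pos hxV (max a d')
  have pB := aq_pos hyV (max a D')
  have pa := aq_pos hxV d'
  have pb := aq_pos hyV D'
  have pA0 := aq_pos hx0V (max a d')
  have pB0 := aq_pos hy0V (max a D')
  have pa0 := aq_pos hx0V d'
  have pb0 := aq_pos hy0V D'
  have pX : 0 ≤ Pr P S (fun F => CW X W (↑F)) := Pr_nonneg okP _ _
  have pI : 0 ≤ Pr P S (fun F => CW (K ∪ X) (V ∪ W) (↑F)) := Pr_nonneg okP _ _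
  have kr0 := kr_pos
  have k40 := k4_pos
  have k41 := k4_le
  have km0 := km_pos
  have km1 := km_le
  have ku0 := ku_pos
  have ku1 := ku_le
  unfold kc
  clear_value d' D'
  generalize Pr P S (fun F => CW (K ∪ X) (V ∪ W) (↑F)) = qI at *
  generalize Pr P S (fun F => CW X W (↑F)) = qX at *
  generalize aq x (max a d') = A at *
  generalize aq y (max a D') = B at *
  generalize aq x d' = α at *
  generalize aq y D' = β at *
  generalize aq x0 (max a d') = A0 at *
  generalize aq y0 (max a D') = B0 at *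
  generalize aq x0 d' = α0 at *
  generalize aq y0 D' = β0 at *
  generalize k4 = κ at *
  generalize km = μ at *
  generalize ku = ν at *
  generalize kr = ρ at *
  constructor
  · have e1 : (ρ * (α0 * A)) * (ρ * (β0 * B)) ≤ (A0 * α) * (B0 * β) :=
      mul_le_mul rx1 ry1 (by positivity) (by positivity)
    have e2 : (κ * μ ^ 2 * ν) * ((A0 * B0) * qX) ≤ (α0 * β0) * qI := by
      refine le_trans ?_ L
      apply mul_le_mul_of_nonneg_right _ (by positivity)
      calc κ * μ ^ 2 * ν ≤ κ * μ ^ 2 * 1 := mul_le_mul_of_nonneg_left ku1 (by positivity)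
        _ = _ := mul_one _
    have e3 : ρ ^ 2 * (κ * μ ^ 2 * ν) * ((A * B) * qX) * (α0 * β0) ≤
        (α * β) * qI * (α0 * β0) := by
      calc ρ ^ 2 * (κ * μ ^ 2 * ν) * ((A * B) * qX) * (α0 * β0)
          = (κ * μ ^ 2 * ν) * qX * ((ρ * (α0 * A)) * (ρ * (β0 * B))) := by ring
        _ ≤ (κ * μ ^ 2 * ν) * qX * ((A0 * α) * (B0 * β)) :=
            mul_le_mul_of_nonneg_left e1 (by positivity)
        _ = (α * β) * ((κ * μ ^ 2 * ν) * ((A0 * B0) * qX)) := by ring
        _ ≤ (α * β) * ((α0 * β0) * qI) := mul_le_mul_of_nonneg_left e2 (by positivity)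
        _ = _ := by ring
    exact le_of_mul_le_mul_right e3 (by positivity)
  · intro ht
    have U := U ht
    have e1 : (ρ * (α * A0)) * (ρ * (β * B0)) ≤ (A * α0) * (B * β0) :=
      mul_le_mul rx2 ry2 (by positivity) (by positivity)
    have e2 : (κ * μ ^ 2 * ν) * ((α0 * β0) * qI) ≤ (A0 * B0) * qX := by
      refine le_trans ?_ U
      apply mul_le_mul_of_nonneg_right _ (by positivity)
      calc κ * μ ^ 2 * ν ≤ 1 * ν := by
            apply mul_le_mul_of_nonneg_right _ ku0.le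
            exact mul_le_one₀ k41 (by positivity) (pow_le_one₀ km0.le km1)
        _ = _ := one_mul _
    have e3 : ρ ^ 2 * (κ * μ ^ 2 * ν) * ((α * β) * qI) * (A0 * B0) ≤
        (A * B) * qX * (A0 * B0) := by
      calc ρ ^ 2 * (κ * μ ^ 2 * ν) * ((α * β) * qI) * (A0 * B0)
          = (κ * μ ^ 2 * ν) * qI * ((ρ * (α * A0)) * (ρ * (β * B0))) := by ring
        _ ≤ (κ * μ ^ 2 * ν) * qI * ((A * α0) * (B * β0)) :=
            mul_le_mul_of_nonneg_left e1 (by positivity)
        _ = (A * B) * ((κ * μ ^ 2 * ν) * ((α0 * β0) * qI)) := by ring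
        _ ≤ (A * B) * ((A0 * B0) * qX) := mul_le_mul_of_nonneg_left e2 (by positivity)
        _ = _ := by ring
    exact le_of_mul_le_mul_right e3 (by positivity)

attribute [irreducible] kc

end H67CS
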