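import Pool.Agent.H67CS.Maps

/-!
Covariance of the linking probabilities at small mesh.
-/

set_option autoImplicit false

namespace H67CS
open TH976 Filter Topology Set H974 H362P Pool.Agent.H389R2.CD

/-- the lattice set `X`, at mesh `e`, approximates `A` -/
def Apx (e : ℝ) (A : Set ℂ) (X : Finset Vtx) : Prop :=
  (∀ x ∈ X, ∃ z ∈ A, ‖(e : ℂ) * cx x - z‖ ≤ 2 * e) ∧
    (∀ z ∈ A, ∃ x ∈ X, ‖(e : ℂ) * cx x - z‖ ≤ 2 * e) ∧
    (A.Subsingleton → (X : Set Vtx).Subsingleton)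

/-- the scaled set -/
noncomputable def es (e : ℝ) (X : Finset Vtx) : Set ℂ := (fun z : ℂ => (e : ℂ) * z) '' cs X

theorem es_inj {e : ℝ} (he : 0 < e) : Function.Injective (fun z : ℂ => (e : ℂ) * z) := by
  have he' : (e : ℂ) ≠ 0 := by exact_mod_cast he.ne'
  exact fun z w h => mul_left_cancel₀ he' h

theorem es_sub {e : ℝ} (he : 0 < e) {X : Finset Vtx} :
    (es e X).Subsingleton ↔ (X : Set Vtx).Subsingleton := by
  unfold es
  rw [(es_inj he).subsingleton_image_iff, cs_sub]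

theorem pos_ev : ∀ᶠ e : ℝ in 𝓝[>] 0, 0 < e := self_mem_nhdsWithin

theorem lt_ev {r : ℝ} (hr : 0 < r) : ∀ᶠ e : ℝ in 𝓝[>] 0, e < r :=
  nhdsWithin_le_nhds (Iio_mem_nhds hr)

theorem apx_close (A : Set ℂ) : ∀ᶠ e : ℝ in 𝓝[>] 0, ∀ X : Finset Vtx, Apx e A X →
    Close (3 * e) A (es e X) := by
  have main : ∀ e : ℝ, 0 < e → ((¬ A.Subsingleton) → ∃ z ∈ A, ∃ z' ∈ A, 4 * e < ‖z - z'‖) →
      ∀ X : Finset Vtx, Apx e A X → Close (3 * e) A (es e X) := by
    intro e he hs X hX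
    refine ⟨?_, ?_, ?_⟩
    · rintro _ ⟨_, ⟨x, hx, rfl⟩, rfl⟩
      obtain ⟨z, hz, h1⟩ := hX.1 x (Finset.mem_coe.mp hx)
      exact ⟨z, hz, by show ‖(e : ℂ) * cx x - z‖ < 3 * e; linarith⟩
    · intro z hz
      obtain ⟨x, hx, h1⟩ := hX.2.1 z hz
      exact ⟨(e : ℂ) * cx x, ⟨cx x, mem_cs hx, rfl⟩, by linarith⟩
    · rw [es_sub he]
      refine ⟨hX.2.2, ?_⟩
      intro h
      by_contra hc
      obtain ⟨z, hz, z', hz', h2⟩ := hs hc
      obtain ⟨x, hx, h3⟩ := hX.2.1 z hz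
      obtain ⟨x', hx', h4⟩ := hX.2.1 z' hz'
      have h5 : x = x' := h (Finset.mem_coe.mpr hx) (Finset.mem_coe.mpr hx')
      rw [← h5] at h4
      have h6 : ‖z - z'‖ ≤ ‖(e : ℂ) * cx x - z‖ + ‖(e : ℂ) * cx x - z'‖ := by
        have : z - z' = -((e : ℂ) * cx x - z) + ((e : ℂ) * cx x - z') := by ring
        rw [this]
        exact (norm_add_le _ _).trans (by rw [norm_neg])
      linarith
  by_cases hA : A.Subsingleton
  · filter_upwards [pos_ev] with e he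
    exact main e he (fun h => absurd hA h)
  · obtain ⟨z, hz, z', hz', hne⟩ := Set.not_subsingleton_iff.mp hA
    have h0 : 0 < ‖z - z'‖ / 4 := by
      have := norm_pos_iff.mpr (sub_ne_zero.mpr hne)
      positivity
    filter_upwards [pos_ev, lt_ev h0] with e he h1
    exact main e he (fun _ => ⟨z, hz, z', hz', by linarith⟩)

theorem apx_dj {A B : Set ℂ} (cA : IsCompact A) (cB : IsCompact B) (hd : Disjoint A B) :
    ∀ᶠ e : ℝ in 𝓝[>] 0, ∀ X Y : Finset Vtx, Apx e A X → Apx e B Y → Disjoint X Y := by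
  obtain ⟨δ, hδ, h⟩ := hd.exists_thickenings cA cB.isClosed
  filter_upwards [pos_ev, lt_ev (half_pos hδ)] with e he h1 X Y hX hY
  rw [Finset.disjoint_left]
  intro x hx hy
  obtain ⟨z, hz, h2⟩ := hX.1 x hx
  obtain ⟨w, hw, h3⟩ := hY.1 x hy
  have h4 : (e : ℂ) * cx x ∈ Metric.thickening δ A := by
    rw [Metric.mem_thickening_iff]
    exact ⟨z, hz, by rw [dist_eq_norm]; linarith⟩
  have h5 : (e : ℂ) * cx x ∈ Metric.thickening δ B := by
    rw [Metric.mem_thickening_iff]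
    exact ⟨w, hw, by rw [dist_eq_norm]; linarith⟩
  exact Set.disjoint_left.mp h h4 h5

/-- lattice sets which are connected and in the domain -/
def Fm (s : Sh) {k : ℕ} (X : Fin k → Finset Vtx) : Prop :=
  (∀ i, ∀ u ∈ X i, u ∈ dom s) ∧ ∀ i, Cn (X i) (↑(ein (X i)))

theorem Fm.fam {s : Sh} {k : ℕ} {X : Fin k → Finset Vtx} (h : Fm s X) {e : ℝ} {K : Fin k → Set ℂ}
    (hK : Dj K) (ha : ∀ i, Apx e (K i) (X i)) (hd : ∀ i j, i ≠ j → Disjoint (X i) (X j)) :
    Fam s k X := by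
  refine ⟨h.1, ?_, h.2, hd⟩
  intro i
  obtain ⟨z, hz⟩ := hK.1 i
  obtain ⟨x, hx, -⟩ := (ha i).2.1 z hz
  exact ⟨x, hx⟩

theorem Fam.dj_cs {s : Sh} {k : ℕ} {X : Fin k → Finset Vtx} (h : Fam s k X) :
    Dj (fun i => cs (X i)) := by
  refine ⟨?_, ?_⟩
  · intro i
    obtain ⟨x, hx⟩ := h.ne i
    exact ⟨cx x, mem_cs hx⟩
  · intro i j hij
    rw [Set.disjoint_left]
    rintro _ ⟨x, hx, rfl⟩ ⟨y, hy, hxy⟩
    have := cx_inj hxy
    subst this
    exact Finset.disjoint_left.mp (h.dj i j hij) (Finset.mem_coe.mp hx) (Finset.mem_coe.mp hy)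

theorem Dj.image {k : ℕ} {K : Fin k → Set ℂ} (h : Dj K) {φ : ℂ → ℂ} {S : Set ℂ}
    (hi : Set.InjOn φ S) (hS : ∀ i, K i ⊆ S) : Dj (fun i => φ '' K i) := by
  refine ⟨fun i => (h.1 i).image φ, ?_⟩
  intro i j hij
  rw [Set.disjoint_left]
  rintro _ ⟨x, hx, rfl⟩ ⟨y, hy, hxy⟩
  have := hi (hS j hy) (hS i hx) hxy
  subst this
  exact Set.disjoint_left.mp (h.2 i j hij) hx hy

theorem exists_IsJ (J : ℂ → ℝ) (A : Set ℂ) : ∃ c, IsJ J A c := by
  by_cases hs : A.Subsingleton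
  · rcases A.eq_empty_or_nonempty with h | ⟨z, hz⟩
    · exact ⟨0, fun _ z hz => by rw [h] at hz; exact absurd hz (Set.notMem_empty z),
        fun h => absurd hs h⟩
    · exact ⟨J z, fun _ w hw => by rw [hs hw hz], fun h => absurd hs h⟩
  · exact ⟨1, fun h => absurd h hs, fun _ => rfl⟩

theorem lam_ev (s : Sh) {z : ℂ} (hz : z ∈ Dm s) : ∀ᶠ e : ℝ in 𝓝[>] 0, ∀ w : ℂ,
    ‖w - z‖ ≤ 2 * e → Cmp 2 (lam s w) (lam s z) := by
  have h0 := lam_pos s hz
  have c := lam_cont s z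
  have f1 : ∀ᶠ w : ℂ in 𝓝 z, lam s w < 2 * lam s z :=
    c.eventually (Iio_mem_nhds (show lam s z < 2 * lam s z by linarith))
  have f2 : ∀ᶠ w : ℂ in 𝓝 z, lam s z / 2 < lam s w :=
    c.eventually (Ioi_mem_nhds (show lam s z / 2 < lam s z by linarith))
  obtain ⟨δ, hδ, hδ'⟩ := Metric.eventually_nhds_iff.mp (f1.and f2)
  filter_upwards [lt_ev (half_pos hδ)] with e he w hw
  obtain ⟨g1, g2⟩ := hδ' (show dist w z < δ by rw [dist_eq_norm]; linarith)
  exact ⟨by norm_num, by linarith, h0, g1.le, by linarith⟩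

theorem fac_ev (s : Sh) {A : Set ℂ} (hA : A.Subsingleton → A ⊆ Dm s) {t : ℝ}
    (ht : IsJ (lam s) A t) : ∀ᶠ e : ℝ in 𝓝[>] 0, ∀ X : Finset Vtx, Apx e A X →
      ∀ t' : ℝ, IsJ (lam s) (es e X) t' → (A.Subsingleton ↔ (es e X).Subsingleton) →
        A.Nonempty → Cmp 2 t' t := by
  by_cases hs : A.Subsingleton
  · rcases A.eq_empty_or_nonempty with h | ⟨z, hz⟩
    · exact Eventually.of_forall (fun e X _ t' _ _ hne => absurd h hne.ne_empty)
    · filter_upwards [lam_ev s (hA hs hz)] with e he X hX t' ht' hiff _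
      obtain ⟨x, hx, h1⟩ := hX.2.1 z hz
      have h2 := ht'.1 (hiff.mp hs) ((e : ℂ) * cx x) ⟨cx x, mem_cs hx, rfl⟩
      rw [← h2, ← ht.1 hs z hz]
      exact he _ h1
  · refine Eventually.of_forall (fun e X _ t' ht' hiff _ => ?_)
    rw [ht'.2 (fun h => hs (hiff.mpr h)), ht.2 hs]
    exact (Cmp.refl one_pos).weaken (by norm_num)

/-- the functional of the lattice sets, and its limit -/
theorem lat_Phi {s : Sh} {k : ℕ} (hk : 2 ≤ k)
    {K : Fin k → Set ℂ} (hKC : ∀ i, K i ⊆ Cl s) (hKD : ∀ i, (K i).Subsingleton → K i ⊆ Dm s)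
    (hK : Dj K) (cK : ∀ i, IsCompact (K i))
    {b : Fin k → Prop} (hb : ∀ i, b i ↔ (K i).Subsingleton) [∀ i, Decidable (b i)]
    {t : Fin k → ℝ} (ht : ∀ i, IsJ (lam s) (K i) (t i)) :
    ∀ᶠ e : ℝ in 𝓝[>] 0, ∀ X : Fin k → Finset Vtx, Fm s X → (∀ i, Apx e (K i) (X i)) →
      Fam s k X ∧ Cmp (4 ^ k) (Phi (gs s) k (fun i => cs (X i)))
        ((∏ i, if b i then e ^ (5 / 48 : ℝ) else 1) * ((∏ i, t i) * Phi (gm s) k K)) := by
  have e1 : ∀ᶠ e : ℝ in 𝓝[>] 0, ∀ i, ∀ X : Finset Vtx, Apx e (K i) X →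
      Close (3 * e) (K i) (es e X) := by
    rw [eventually_all]
    exact fun i => apx_close (K i)
  have e2 : ∀ᶠ e : ℝ in 𝓝[>] 0, ∀ i j, i ≠ j → ∀ X Y : Finset Vtx, Apx e (K i) X →
      Apx e (K j) Y → Disjoint X Y := by
    rw [eventually_all]
    intro i
    rw [eventually_all]
    intro j
    by_cases hij : i = j
    · exact Eventually.of_forall (fun e h => absurd hij h)
    · filter_upwards [apx_dj (cK i) (cK j) (hK.2 i j hij)] with e h _
      exact h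
  have e3 : ∀ᶠ e : ℝ in 𝓝[>] 0, ∀ i, ∀ X : Finset Vtx, Apx e (K i) X →
      ∀ t' : ℝ, IsJ (lam s) (es e X) t' → ((K i).Subsingleton ↔ (es e X).Subsingleton) →
        (K i).Nonempty → Cmp 2 t' (t i) := by
    rw [eventually_all]
    exact fun i => fac_ev s (hKD i) (ht i)
  obtain ⟨δ, hδ, h3⟩ := mem_nhdsGT_iff_exists_Ioo_subset.mp (near_Phi (ker_gm s) hKC hK cK)
  have hδ0 : (0 : ℝ) < δ := hδ
  filter_upwards [pos_ev, e1, e2, e3, lt_ev (show 0 < δ / 3 by positivity)] with e he h1 h2 h5 h4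
    X hX ha
  have hF := hX.fam hK ha (fun i j hij => h2 i j hij _ _ (ha i) (ha j))
  refine ⟨hF, ?_⟩
  have hcl : ∀ i, Close (3 * e) (K i) (es e (X i)) := fun i => h1 i _ (ha i)
  have hdj : Dj (fun i => es e (X i)) :=
    hF.dj_cs.image (φ := fun z : ℂ => (e : ℂ) * z) (S := Set.univ) (es_inj he).injOn
      (fun i => Set.subset_univ _)
  have hsubD : ∀ i, es e (X i) ⊆ Dm s := by
    rintro i _ ⟨_, ⟨x, hx, rfl⟩, rfl⟩
    show (e : ℂ) * cx x ∈ Dm s
    rw [Dm_cone s he, ← Dm_vert]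
    exact hX.1 i x (Finset.mem_coe.mp hx)
  have c1 := h3 (show 3 * e ∈ Set.Ioo 0 δ from ⟨by linarith, by linarith⟩)
    (fun i => es e (X i)) hdj hcl
  have c2 := Phi_cov (cv_scale s he Set.univ).cw hk (K := fun i => cs (X i))
    (fun i => Set.subset_univ _) (fun i _ => Set.subset_univ _) hF.dj_cs
    (c := fun i => if b i then e ^ (5 / 48 : ℝ) else 1) (by
      intro i
      have hiff : b i ↔ (cs (X i)).Subsingleton := by
        rw [hb i, (hcl i).2.2, es_sub he, cs_sub]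
      constructor
      · intro hs z _
        rw [if_pos (hiff.mpr hs)]
      · intro hs
        rw [if_neg (fun h => hs (hiff.mp h))])
  choose t' ht' using fun i => exists_IsJ (lam s) (es e (X i))
  have c3 := Phi_cov (cv_gauge s).cw hk (K := fun i => es e (X i)) hsubD (fun i _ => hsubD i) hdj
    ht'
  have c4 : (fun i => id '' es e (X i)) = fun i => es e (X i) := by
    funext i
    exact Set.image_id _
  rw [c4] at c3
  have c5 : Cmp (2 ^ k) (∏ i, t' i) (∏ i, t i) := by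
    have := Cmp_prod (Finset.univ : Finset (Fin k)) (a := t') (b := t)
      (fun i _ => h5 i _ (ha i) _ (ht' i) (hcl i).2.2 (hK.1 i))
    rw [Finset.card_univ, Fintype.card_fin] at this
    exact this
  have p0 : 0 < ∏ i, (if b i then e ^ (5 / 48 : ℝ) else (1 : ℝ)) := by
    apply Finset.prod_pos
    intro i _
    split_ifs
    · positivity
    · exact one_pos
  have c6 : Phi (gs s) k (fun i => cs (X i)) =
      (∏ i, (if b i then e ^ (5 / 48 : ℝ) else (1 : ℝ))) *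
        ((∏ i, t' i) * Phi (gm s) k (fun i => es e (X i))) := by
    rw [c2, ← c3]
    rfl
  rw [c6]
  refine ((Cmp.refl p0).mul (c5.mul c1)).weaken (le_of_eq ?_)
  rw [one_mul, ← mul_pow]
  norm_num

/-- **Covariance at small mesh.** -/
theorem mesh_final (hA : ArS) : ∃ C : ℝ, 1 ≤ C ∧
    (∀ (s : Sh) (k : ℕ) (X : Fin k → Finset Vtx), 1 ≤ k → Fam s k X →
      Cmp (C ^ k) (PD (dom s) (fun F => Lf F X)) (Phi (gs s) k (fun i => cs (X i)))) ∧
    ∀ (s s' : Sh) (O S : Set ℂ) (φ : ℂ → ℂ) (J : ℂ → ℝ), Cv (gs s) (gs s') J φ O → O ⊆ Dm s →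
      MapsTo φ O (Dm s') → O ⊆ S → S ⊆ closure O → S ⊆ Cl s → ContinuousOn φ S →
      Set.InjOn φ S → MapsTo φ S (Cl s') →
      ∀ (k : ℕ) (K : Fin k → Set ℂ) (c : Fin k → ℝ), 2 ≤ k → (∀ i, K i ⊆ S) →
      (∀ i, (K i).Subsingleton → K i ⊆ O) → Dj K →
      (∀ i, IsCompact (K i)) → (∀ i, IsJ J (K i) (c i)) →
      ∀ᶠ e : ℝ in 𝓝[>] 0, ∀ X Y : Fin k → Finset Vtx, Fm s X → Fm s' Y →
        (∀ i, Apx e (K i) (X i)) → (∀ i, Apx e (φ '' K i) (Y i)) →
        Cmp (C ^ k) (PD (dom s) (fun F => Lf F X))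
          ((∏ i, c i) * PD (dom s') (fun F => Lf F Y)) := by
  obtain ⟨C, hC, h⟩ := linked hA
  have hC0 : 0 < C := by linarith
  have hC2 : C ≤ 16 * C * C := by nlinarith
  have hC3 : 1 ≤ 16 * C * C := hC.trans hC2
  refine ⟨16 * C * C, hC3, ?_, ?_⟩
  · intro s k X hk hF
    exact (h s k X hk hF).weaken (pow_le_pow_left₀ hC0.le hC2 k)
  intro s s' O S φ J hcv hO hO' hOS hSO hSC hcont hinj hSC' k K c hk hKS hKO hK cK hc
  classical
  have hK' : Dj (fun i => φ '' K i) := hK.image hinj hKS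
  have hKC' : ∀ i, φ '' K i ⊆ Cl s' := by
    rintro i _ ⟨z, hz, rfl⟩
    exact hSC' (hKS i hz)
  have hiff : ∀ i, (φ '' K i).Subsingleton ↔ (K i).Subsingleton :=
    fun i => sub_image (hinj.mono (hKS i))
  have hKD' : ∀ i, (φ '' K i).Subsingleton → φ '' K i ⊆ Dm s' := by
    rintro i hs _ ⟨z, hz, rfl⟩
    exact hO' (hKO i ((hiff i).mp hs) hz)
  have cK' : ∀ i, IsCompact (φ '' K i) := fun i => (cK i).image_of_continuousOn
    (hcont.mono (hKS i))
  choose t ht using fun i => exists_IsJ (lam s) (K i)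
  choose t' ht' using fun i => exists_IsJ (lam s') (φ '' K i)
  have t0 : ∀ i, 0 < t i := fun i =>
    (ht i).pos' (fun hs z hz => lam_pos s (hO (hKO i hs hz))) (hK.1 i)
  have t0' : ∀ i, 0 < t' i := fun i =>
    (ht' i).pos' (fun hs z hz => lam_pos s' (hKD' i hs hz)) (hK'.1 i)
  have l1 := lat_Phi (s := s) hk (fun i => (hKS i).trans hSC)
    (fun i hs => (hKO i hs).trans hO) hK cK (b := fun i => (K i).Subsingleton)
    (fun i => Iff.rfl) ht
  have l2 := lat_Phi (s := s') hk hKC' hKD' hK' cK' (b := fun i => (K i).Subsingleton)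
    (fun i => (hiff i).symm) ht'
  have t3 := Phi_cov (cw_bdry hcv hO hO' hOS hSO hSC hcont hinj hSC') hk hKS hKO hK
    (c := fun i => c i * t' i / t i) (by
      intro i
      constructor
      · intro hs z hz
        unfold jf
        rw [(hc i).1 hs z hz, (ht i).1 hs z hz,
          (ht' i).1 ((hiff i).mpr hs) (φ z) (Set.mem_image_of_mem _ hz)]
      · intro hs
        rw [(hc i).2 hs, (ht i).2 hs, (ht' i).2 (fun h => hs ((hiff i).mp h))]
        norm_num)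
  filter_upwards [pos_ev, l1, l2] with e he h1 h2 X Y hX hY hx hy
  obtain ⟨fX, cX⟩ := h1 X hX hx
  obtain ⟨fY, cY⟩ := h2 Y hY hy
  have t1 := h s k X (by omega) fX
  have t2 := h s' k Y (by omega) fY
  have c0 : 0 < ∏ i, c i :=
    Finset.prod_pos (fun i _ => (hc i).pos' (fun hs z hz => hcv.pos z (hKO i hs hz)) (hK.1 i))
  have q : (∏ i, t i) * ∏ i, c i * t' i / t i = (∏ i, c i) * ∏ i, t' i := by
    rw [← Finset.prod_mul_distrib, ← Finset.prod_mul_distrib]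
    apply Finset.prod_congr rfl
    intro i _
    have := t0 i
    field_simp
  rw [t3, ← mul_assoc (∏ i, t i), q] at cX
  generalize (∏ i, (if (K i).Subsingleton then e ^ (5 / 48 : ℝ) else (1 : ℝ))) = E at *
  generalize PD (dom s) (fun F => Lf F X) = p at *
  generalize PD (dom s') (fun F => Lf F Y) = p' at *
  generalize Phi (gs s) k (fun i => cs (X i)) = A at *
  generalize Phi (gs s') k (fun i => cs (Y i)) = B at *
  generalize Phi (gm s') k (fun i => φ '' K i) = B0 at *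
  generalize (∏ i, c i) = c' at *
  generalize (∏ i, t' i) = τ at *
  have r1 := t1.trans cX
  have r2 := ((Cmp.refl c0).mul (cY.symm.trans t2.symm)).congr
    (show E * (c' * τ * B0) = c' * (E * (τ * B0)) by ring) rfl
  refine (r1.trans r2).weaken (le_of_eq ?_)
  rw [mul_pow, mul_pow, show (16 : ℝ) = 4 * 4 by norm_num, mul_pow]
  ring

end H67CS
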