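import Pool.Agent.H67CS.Perm

/-!
Exact covariance of the functional.
-/

set_option autoImplicit false

namespace H67CS
open Finset TH976

/-- `g` is the pull back of `g'` by `φ`, with the factors `J` -/
structure Cv (g g' : ℂ → ℂ → ℝ) (J : ℂ → ℝ) (φ : ℂ → ℂ) (S : Set ℂ) : Prop where
  inj : Set.InjOn φ S
  pos : ∀ z ∈ S, 0 < J z
  eq : ∀ z ∈ S, ∀ w ∈ S, g z w = J z * J w * g' (φ z) (φ w)

/-- the factor of a set: the value of `J` for a set with one point, `1` for the other sets -/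
def IsJ (J : ℂ → ℝ) (A : Set ℂ) (c : ℝ) : Prop :=
  (A.Subsingleton → ∀ z ∈ A, J z = c) ∧ (¬ A.Subsingleton → c = 1)

section
variable {g g' : ℂ → ℂ → ℝ} {J : ℂ → ℝ} {φ : ℂ → ℂ} {S : Set ℂ}

theorem IsJ.pos' {A : Set ℂ} {c : ℝ} (h : IsJ J A c) (hJ : A.Subsingleton → ∀ z ∈ A, 0 < J z)
    (hA : A.Nonempty) : 0 < c := by
  by_cases hs : A.Subsingleton
  · obtain ⟨z, hz⟩ := hA
    rw [← h.1 hs z hz]
    exact hJ hs z hz
  · rw [h.2 hs]
    exact one_pos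

theorem IsJ.pos {A : Set ℂ} {c : ℝ} (h : IsJ J A c) (hJ : ∀ z ∈ A, 0 < J z) (hA : A.Nonempty) :
    0 < c := h.pos' (fun _ => hJ) hA

theorem sub_image {A : Set ℂ} (hi : Set.InjOn φ A) :
    (φ '' A).Subsingleton ↔ A.Subsingleton := by
  constructor
  · intro h z hz w hw
    exact hi hz hw (h (Set.mem_image_of_mem _ hz) (Set.mem_image_of_mem _ hw))
  · intro h
    exact h.image φ

theorem gd_cov (h : Cv g g' J φ S) {A : Set ℂ} (hA : A ⊆ S) {c : ℝ} (hc : IsJ J A c) {z w : ℂ}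
    (hz : z ∈ A) (hw : w ∈ A) :
    gd g A z w * c ^ 2 = J z * J w * gd g' (φ '' A) (φ z) (φ w) := by
  unfold gd
  by_cases hs : A.Subsingleton
  · rw [if_pos hs, if_pos ((sub_image (h.inj.mono hA)).mpr hs), hc.1 hs z hz, hc.1 hs w hw]
    ring
  · rw [if_neg hs, if_neg (fun h2 => hs ((sub_image (h.inj.mono hA)).mp h2)), hc.2 hs,
      h.eq z (hA hz) w (hA hw)]
    ring

theorem rt4_cov (h : Cv g g' J φ S) {A B : Set ℂ} (hA : A ⊆ S) (hB : B ⊆ S) {c c' : ℝ}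
    (hc : IsJ J A c) (hc' : IsJ J B c') {z z' w w' : ℂ} (hz : z ∈ A) (hz' : z' ∈ A) (hw : w ∈ B)
    (hw' : w' ∈ B) :
    rt4 g A B z z' w w' = c * c' * rt4 g' (φ '' A) (φ '' B) (φ z) (φ z') (φ w) (φ w') := by
  have c0 := hc.pos (fun z hz => h.pos z (hA hz)) ⟨z, hz⟩
  have c0' := hc'.pos (fun z hz => h.pos z (hB hz)) ⟨w, hw⟩
  have e1 := gd_cov h hA hc hz hz'
  have e2 := gd_cov h hB hc' hw hw'
  have e3 := h.eq z (hA hz) w (hB hw)
  have e4 := h.eq z' (hA hz') w' (hB hw')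
  have j1 := h.pos z (hA hz)
  have j2 := h.pos z' (hA hz')
  have j3 := h.pos w (hB hw)
  have j4 := h.pos w' (hB hw')
  unfold rt4
  rw [e3, e4]
  have f1 : gd g A z z' = J z * J z' * gd g' (φ '' A) (φ z) (φ z') / c ^ 2 := by
    rw [← e1]
    field_simp
  have f2 : gd g B w w' = J w * J w' * gd g' (φ '' B) (φ w) (φ w') / c' ^ 2 := by
    rw [← e2]
    field_simp
  rw [f1, f2]
  have f3 : J z * J w * g' (φ z) (φ w) * (J z' * J w' * g' (φ z') (φ w')) /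
      (J z * J z' * gd g' (φ '' A) (φ z) (φ z') / c ^ 2 *
        (J w * J w' * gd g' (φ '' B) (φ w) (φ w') / c' ^ 2)) =
      (c * c') ^ 2 * (g' (φ z) (φ w) * g' (φ z') (φ w') /
        (gd g' (φ '' A) (φ z) (φ z') * gd g' (φ '' B) (φ w) (φ w'))) := by
    generalize gd g' (φ '' A) (φ z) (φ z') = G1
    generalize gd g' (φ '' B) (φ w) (φ w') = G2
    generalize g' (φ z) (φ w) = G3
    generalize g' (φ z') (φ w') = G4
    rcases eq_or_ne G1 0 with h1 | h1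
    · rw [h1]
      simp
    rcases eq_or_ne G2 0 with h2 | h2
    · rw [h2]
      simp
    field_simp
  rw [f3, Real.sqrt_mul (by positivity), Real.sqrt_sq (by positivity)]

/-- covariance of the four-point ratios; `D` contains the sets with one point -/
structure Cw (g g' : ℂ → ℂ → ℝ) (J : ℂ → ℝ) (φ : ℂ → ℂ) (S D : Set ℂ) : Prop where
  inj : Set.InjOn φ S
  pos : ∀ z ∈ D, 0 < J z
  rt : ∀ A B : Set ℂ, A ⊆ S → B ⊆ S → (A.Subsingleton → A ⊆ D) → (B.Subsingleton → B ⊆ D) →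
    Disjoint A B → ∀ c c' : ℝ, IsJ J A c → IsJ J B c' → ∀ z ∈ A, ∀ z' ∈ A, ∀ w ∈ B, ∀ w' ∈ B,
    rt4 g A B z z' w w' = c * c' * rt4 g' (φ '' A) (φ '' B) (φ z) (φ z') (φ w) (φ w')

theorem Cv.cw (h : Cv g g' J φ S) : Cw g g' J φ S S :=
  ⟨h.inj, h.pos, fun _ _ hA hB _ _ _ _ _ hc hc' _ hz _ hz' _ hw _ hw' =>
    rt4_cov h hA hB hc hc' hz hz' hw hw'⟩

variable {D : Set ℂ}

theorem th_cov (h : Cw g g' J φ S D) {A B : Set ℂ} (hA : A ⊆ S) (hB : B ⊆ S)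
    (sA : A.Subsingleton → A ⊆ D) (sB : B.Subsingleton → B ⊆ D) (hd : Disjoint A B) {c c' : ℝ}
    (hc : IsJ J A c) (hc' : IsJ J B c') (hAn : A.Nonempty) (hBn : B.Nonempty) :
    th g A B = c * c' * th g' (φ '' A) (φ '' B) := by
  have c0 := hc.pos' (fun hs z hz => h.pos z (sA hs hz)) hAn
  have c0' := hc'.pos' (fun hs z hz => h.pos z (sB hs hz)) hBn
  unfold th
  rw [Real.mul_iSup_of_nonneg (by positivity)]
  set eA : A ≃ φ '' A := Equiv.Set.imageOfInjOn φ A (h.inj.mono hA) with heA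
  set eB : B ≃ φ '' B := Equiv.Set.imageOfInjOn φ B (h.inj.mono hB) with heB
  refine Equiv.iSup_congr ((eA.prodCongr eA).prodCongr (eB.prodCongr eB)) ?_
  rintro ⟨⟨⟨z, hz⟩, ⟨z', hz'⟩⟩, ⟨⟨w, hw⟩, ⟨w', hw'⟩⟩⟩
  exact (h.rt A B hA hB sA sB hd c c' hc hc' z hz z' hz' w hw w' hw').symm

theorem Th_cov (h : Cw g g' J φ S D) {A B : Set ℂ} (hA : A ⊆ S) (hB : B ⊆ S)
    (sA : A.Subsingleton → A ⊆ D) (sB : B.Subsingleton → B ⊆ D) (hd : Disjoint A B) {c c' : ℝ}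
    (hc : IsJ J A c) (hc' : IsJ J B c') (hAn : A.Nonempty) (hBn : B.Nonempty) :
    Th g A B = c * c' * Th g' (φ '' A) (φ '' B) := by
  have e1 := th_cov h hA hB sA sB hd hc hc' hAn hBn
  unfold Th
  rw [sub_image (h.inj.mono hA), sub_image (h.inj.mono hB)]
  by_cases hs : A.Subsingleton ∨ B.Subsingleton
  · rw [if_pos hs, if_pos hs]
    exact e1
  · rw [if_neg hs, if_neg hs]
    push Not at hs
    rw [e1, hc.2 (Set.not_subsingleton_iff.mpr hs.1), hc'.2 (Set.not_subsingleton_iff.mpr hs.2),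
      one_mul, one_mul, one_mul]

/-- the union of the first sets -/
def Us {k : ℕ} (K : Fin k → Set ℂ) (σ : Equiv.Perm (Fin k)) (i : Fin k) : Set ℂ :=
  ⋃ j : Fin k, ⋃ _ : j < i, K (σ j)

theorem mem_Us {k : ℕ} {K : Fin k → Set ℂ} {σ : Equiv.Perm (Fin k)} {i : Fin k} {z : ℂ} :
    z ∈ Us K σ i ↔ ∃ j, j < i ∧ z ∈ K (σ j) := by
  unfold Us
  simp only [Set.mem_iUnion, exists_prop]

/-- pairwise disjoint nonempty sets -/
def Dj {k : ℕ} (K : Fin k → Set ℂ) : Prop :=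
  (∀ i, (K i).Nonempty) ∧ ∀ i j, i ≠ j → Disjoint (K i) (K j)

theorem Us_one {k : ℕ} (K : Fin k → Set ℂ) (σ : Equiv.Perm (Fin k)) {i : Fin k}
    (hi : (i : ℕ) = 1) : Us K σ i = K (σ ⟨0, by omega⟩) := by
  ext z
  rw [mem_Us]
  constructor
  · rintro ⟨j, hj, hz⟩
    have h1 : j = ⟨0, by omega⟩ := by
      apply Fin.ext
      have : (j : ℕ) < (i : ℕ) := hj
      show (j : ℕ) = 0
      omega
    rwa [h1] at hz
  · intro hz
    exact ⟨⟨0, by omega⟩, by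
      show (0 : ℕ) < (i : ℕ)
      omega, hz⟩

theorem Us_sub {k : ℕ} {K : Fin k → Set ℂ} (hK : Dj K) (σ : Equiv.Perm (Fin k)) {i : Fin k}
    (hi : (i : ℕ) ≠ 0) (h2 : (i : ℕ) ≠ 1) : ¬ (Us K σ i).Subsingleton := by
  intro hs
  have hk : 1 < k := by have := i.isLt; omega
  obtain ⟨z, hz⟩ := hK.1 (σ ⟨0, by omega⟩)
  obtain ⟨w, hw⟩ := hK.1 (σ ⟨1, hk⟩)
  have h1 : z = w := hs (mem_Us.mpr ⟨⟨0, by omega⟩, by
      show (0 : ℕ) < (i : ℕ)
      omega, hz⟩) (mem_Us.mpr ⟨⟨1, hk⟩, by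
      show (1 : ℕ) < (i : ℕ)
      omega, hw⟩)
  rw [h1] at hz
  refine Set.disjoint_left.mp (hK.2 (σ ⟨0, by omega⟩) (σ ⟨1, hk⟩) ?_) hz hw
  intro heq
  have := Fin.mk.inj (σ.injective heq)
  omega

theorem Us_ne {k : ℕ} {K : Fin k → Set ℂ} (hK : Dj K) (σ : Equiv.Perm (Fin k)) {i : Fin k}
    (hi : (i : ℕ) ≠ 0) : (Us K σ i).Nonempty := by
  have hk : 0 < k := by have := i.isLt; omega
  obtain ⟨z, hz⟩ := hK.1 (σ ⟨0, hk⟩)
  exact ⟨z, mem_Us.mpr ⟨⟨0, hk⟩, by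
    show (0 : ℕ) < (i : ℕ)
    omega, hz⟩⟩

theorem Us_dj {k : ℕ} {K : Fin k → Set ℂ} (hK : Dj K) (σ : Equiv.Perm (Fin k)) (i : Fin k) :
    Disjoint (Us K σ i) (K (σ i)) := by
  rw [Set.disjoint_left]
  intro z hz hz'
  obtain ⟨j, hj, hz⟩ := mem_Us.mp hz
  refine Set.disjoint_left.mp (hK.2 (σ j) (σ i) ?_) hz hz'
  intro he
  exact hj.ne (σ.injective he)

theorem Us_image {k : ℕ} (K : Fin k → Set ℂ) (σ : Equiv.Perm (Fin k)) (i : Fin k) (φ : ℂ → ℂ) :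
    Us (fun i => φ '' K i) σ i = φ '' Us K σ i := by
  unfold Us
  rw [Set.image_iUnion]
  congr 1
  ext j z
  rw [Set.image_iUnion]

theorem Ph_cov (h : Cw g g' J φ S D) {k : ℕ} (hk : 2 ≤ k) {K : Fin k → Set ℂ}
    (hKS : ∀ i, K i ⊆ S) (hKD : ∀ i, (K i).Subsingleton → K i ⊆ D) (hK : Dj K) {c : Fin k → ℝ} (hc : ∀ i, IsJ J (K i) (c i)) (σ : Equiv.Perm (Fin k)) :
    Ph g k K σ = (∏ i, c i) * Ph g' k (fun i => φ '' K i) σ := by
  have hUS : ∀ i, Us K σ i ⊆ S := by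
    intro i z hz
    obtain ⟨j, -, hz⟩ := mem_Us.mp hz
    exact hKS _ hz
  set o : Fin k := ⟨0, by omega⟩ with ho
  set l : Fin k := ⟨1, by omega⟩ with hl
  have term : ∀ i : Fin k, (if (i : ℕ) = 0 then (1 : ℝ) else Th g (Us K σ i) (K (σ i))) =
      ((if i = l then c (σ o) else 1) * (if i = o then 1 else c (σ i))) *
      (if (i : ℕ) = 0 then (1 : ℝ) else
        Th g' (Us (fun i => φ '' K i) σ i) (φ '' K (σ i))) := by
    intro i
    by_cases h0 : (i : ℕ) = 0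
    · have e0 : i = o := Fin.ext h0
      have e1 : i ≠ l := by
        intro hil
        rw [hil] at h0
        have : (1 : ℕ) = 0 := h0
        omega
      rw [if_pos h0, if_pos h0, if_neg e1, if_pos e0]
      ring
    · have e0 : i ≠ o := fun hio => h0 (by rw [hio])
      rw [if_neg h0, if_neg h0, if_neg e0, Us_image]
      have hUD : (Us K σ i).Subsingleton → Us K σ i ⊆ D := by
        intro hs
        by_cases h1 : (i : ℕ) = 1
        · rw [Us_one K σ h1] at hs ⊢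
          exact hKD _ hs
        · exact absurd hs (Us_sub hK σ h0 h1)
      refine Th_cov h (hUS i) (hKS _) hUD (hKD _) (Us_dj hK σ i) ?_ (hc _) (Us_ne hK σ h0) (hK.1 _)
      by_cases h1 : (i : ℕ) = 1
      · have e1 : i = l := Fin.ext h1
        rw [if_pos e1, Us_one K σ h1]
        exact hc _
      · have e1 : i ≠ l := fun hil => h1 (by rw [hil])
        rw [if_neg e1]
        exact ⟨fun hs => absurd hs (Us_sub hK σ h0 h1), fun _ => rfl⟩
  have e2 : Ph g k K σ = ∏ i : Fin k, (if (i : ℕ) = 0 then (1 : ℝ) else Th g (Us K σ i) (K (σ i))) :=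
    rfl
  have e3 : Ph g' k (fun i => φ '' K i) σ = ∏ i : Fin k, (if (i : ℕ) = 0 then (1 : ℝ) else
      Th g' (Us (fun i => φ '' K i) σ i) (φ '' K (σ i))) := rfl
  rw [e2, e3, Finset.prod_congr rfl (fun i _ => term i), Finset.prod_mul_distrib,
    Finset.prod_mul_distrib]
  congr 1
  have e4 : (∏ i : Fin k, (if i = l then c (σ o) else 1)) = c (σ o) := by
    rw [Finset.prod_ite_eq' Finset.univ l, if_pos (Finset.mem_univ _)]
  have e5 : (∏ i : Fin k, (if i = o then c (σ o) else 1)) = c (σ o) := by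
    rw [Finset.prod_ite_eq' Finset.univ o, if_pos (Finset.mem_univ _)]
  rw [e4, ← e5, ← Finset.prod_mul_distrib, ← Equiv.prod_comp σ c]
  apply Finset.prod_congr rfl
  intro i _
  by_cases h0 : i = o
  · rw [if_pos h0, if_pos h0, h0, mul_one]
  · rw [if_neg h0, if_neg h0, one_mul]

theorem Phi_cov (h : Cw g g' J φ S D) {k : ℕ} (hk : 2 ≤ k) {K : Fin k → Set ℂ}
    (hKS : ∀ i, K i ⊆ S) (hKD : ∀ i, (K i).Subsingleton → K i ⊆ D) (hK : Dj K) {c : Fin k → ℝ} (hc : ∀ i, IsJ J (K i) (c i)) :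
    Phi g k K = (∏ i, c i) * Phi g' k (fun i => φ '' K i) := by
  have hc0 : ∀ i, 0 < c i := fun i => (hc i).pos' (fun hs z hz => h.pos z (hKD i hs hz)) (hK.1 i)
  unfold Phi
  rw [Real.mul_iSup_of_nonneg (Finset.prod_nonneg (fun i _ => (hc0 i).le))]
  congr 1
  funext σ
  exact Ph_cov h hk hKS hKD hK hc σ

end

end H67CS
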