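import Pool.Agent.TH976.Scal

/-!
The four-point ratio, and the comparison with the costs.
-/

set_option autoImplicit false

namespace H67CS
open Finset H974 Pool.Agent.H160R2.CV H362P TH976
open Pool.Agent.H160R2.CV.Quad Pool.Agent.H389R2.CD

/-- the four-point ratio, in terms of the profiles -/
noncomputable def R4 (e : Vtx → ℕ → ℝ) (u u' x x' : Vtx) : ℝ :=
  (e u (sd u x) * e x (sd u x)) * (e u' (sd u' x') * e x' (sd u' x')) /
    ((e u (max (sd u u') 1) * e u' (max (sd u u') 1)) *
      (e x (max (sd x x') 1) * e x' (max (sd x x') 1)))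

theorem R4_flip (e : Vtx → ℕ → ℝ) (u u' x x' : Vtx) : R4 e u u' x x' = R4 e u' u x' x := by
  unfold R4
  rw [sd_comm u' u, sd_comm x' x]
  congr 1 <;> ring

theorem R4_swap (e : Vtx → ℕ → ℝ) (u u' x x' : Vtx) : R4 e u u' x x' = R4 e x x' u u' := by
  unfold R4
  rw [sd_comm x u, sd_comm x' u']
  congr 1 <;> ring

section
variable {D : Set Vtx} {e : Vtx → ℕ → ℝ} {k : ℝ}

theorem R4_pos (h : Reg D e k) {u u' x x' : Vtx} (hu : u ∈ D) (hu' : u' ∈ D) (hx : x ∈ D)
    (hx' : x' ∈ D) (n1 : 1 ≤ sd u x) (n2 : 1 ≤ sd u' x') : 0 < R4 e u u' x x' := by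
  have := h.pos u hu (sd u x) n1
  have := h.pos x hx (sd u x) n1
  have := h.pos u' hu' (sd u' x') n2
  have := h.pos x' hx' (sd u' x') n2
  have := h.pos u hu (max (sd u u') 1) (le_max_right _ _)
  have := h.pos u' hu' (max (sd u u') 1) (le_max_right _ _)
  have := h.pos x hx (max (sd x x') 1) (le_max_right _ _)
  have := h.pos x' hx' (max (sd x x') 1) (le_max_right _ _)
  unfold R4
  positivity

/-- comparison of the value at `n` with the value at a comparable or smaller scale -/
theorem up2' (h : Reg D e k) {v : Vtx} (hv : v ∈ D) {n m : ℕ} (hn : 1 ≤ n) (hm : 1 ≤ m)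
    (h1 : m ≤ 3 * n) : e v n ≤ k ^ 2 * e v m := by
  have k0 : 0 < k := lt_of_lt_of_le one_pos h.hk
  calc e v n ≤ k * e v (3 * n) := h.dbl v hv n hn
    _ ≤ k * (k * e v m) := mul_le_mul_of_nonneg_left (h.anti v hv m (3 * n) hm h1) k0.le
    _ = _ := by ring

/-- product of four one-sided comparisons of quotients -/
theorem four_mul {A1 A2 A3 A4 B1 B2 B3 B4 c1 c2 c3 c4 : ℝ} (a1 : 0 ≤ A1) (a2 : 0 ≤ A2)
    (a3 : 0 ≤ A3) (a4 : 0 ≤ A4) (b1 : 0 ≤ B1) (b2 : 0 ≤ B2) (b3 : 0 ≤ B3) (k1 : 0 ≤ c1)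
    (k2 : 0 ≤ c2) (k3 : 0 ≤ c3) (h1 : A1 ≤ c1 * B1) (h2 : A2 ≤ c2 * B2) (h3 : A3 ≤ c3 * B3)
    (h4 : A4 ≤ c4 * B4) :
    A1 * A2 * (A3 * A4) ≤ c1 * c2 * (c3 * c4) * (B1 * B2 * (B3 * B4)) := by
  have e1 : A1 * A2 ≤ (c1 * B1) * (c2 * B2) := mul_le_mul h1 h2 a2 (by positivity)
  have e2 : A3 * A4 ≤ (c3 * B3) * (c4 * B4) := mul_le_mul h3 h4 a4 (by positivity)
  have e3 := mul_le_mul e1 e2 (mul_nonneg a3 a4) (by positivity)
  calc _ ≤ _ := e3
    _ = _ := by ring

theorem R4_upper (h : Reg D e k) {u u' x x' : Vtx} (hu : u ∈ D) (hu' : u' ∈ D) (hx : x ∈ D)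
    (hx' : x' ∈ D) {a d D' : ℕ} (ha : 1 ≤ a) (hd : 1 ≤ d) (hda : d ≤ a) (h1 : a ≤ sd u x)
    (h2 : a ≤ sd u' x') (hm : sd u u' ≤ D') (hm' : sd x x' ≤ d) (hD : 1 ≤ D')
    (hle : sd u x ≤ sd u' x') :
    R4 e u u' x x' ≤ k ^ 13 * (e x (max a d) / e x d * (e u (max a D') / e u D')) ^ 2 := by
  have k0 : 0 < k := lt_of_lt_of_le one_pos h.hk
  have hk := h.hk
  rw [max_eq_left hda]
  have tri : sd u u' ≤ sd u x + sd x x' + sd u' x' := by
    have := sd_tri u x u'
    have := sd_tri x x' u'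
    have := sd_comm x' u'
    omega
  unfold R4
  set n := sd u x with hn
  set N := sd u' x' with hN
  set m := max (sd u u') 1 with hmm
  set m' := max (sd x x') 1 with hmm'
  have m1 : 1 ≤ m := le_max_right _ _
  have m1' : 1 ≤ m' := le_max_right _ _
  have n1 : 1 ≤ n := ha.trans h1
  have N1 : 1 ≤ N := ha.trans h2
  have hmd' : m' ≤ d := max_le hm' hd
  have hmD : m ≤ D' := max_le hm hD
  have hm3 : m ≤ 3 * N := by omega
  -- the four quotients
  have p1 := h.pos x hx n n1
  have p2 := h.pos x hx m' m1'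
  have p3 := h.pos x' hx' N N1
  have p4 := h.pos x' hx' m' m1'
  have p5 := h.pos u hu n n1
  have p6 := h.pos u hu m m1
  have p7 := h.pos u' hu' N N1
  have p8 := h.pos u' hu' m m1
  have p9 := h.pos x hx d hd
  have p10 := h.pos x hx N N1
  have p11 := h.pos u hu N N1
  have p12 := h.pos x' hx' d hd
  have p13 := h.pos u hu (max a D') (by omega)
  have p14 := h.pos u hu D' hD
  have p15 := h.pos x hx a ha
  have t1 : e x n / e x m' ≤ k * (e x n / e x d) := by
    rw [← mul_div_assoc, div_le_div_iff₀ p2 p9]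
    have := h.anti x hx m' d m1' hmd'
    nlinarith
  have t2 : e x' N / e x' m' ≤ k ^ 2 * (e x N / e x d) := by
    have q1 : e x' N / e x' m' ≤ k * (e x' N / e x' d) := by
      rw [← mul_div_assoc, div_le_div_iff₀ p4 p12]
      have := h.anti x' hx' m' d m1' hmd'
      nlinarith
    have q2 := (h.rat' hx' hx (r := d) (n := N) (by rw [sd_comm]; exact hm') hd (by omega)).l
    calc _ ≤ k * (e x' N / e x' d) := q1
      _ ≤ k * (k * (e x N / e x d)) := mul_le_mul_of_nonneg_left q2 k0.le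
      _ = _ := by ring
  have t4 : e u' N / e u' m ≤ k ^ 3 * (e u N / e u m) := by
    rcases Nat.lt_or_ge N m with hc | hc
    · have q1 : e u' N ≤ k ^ 2 * e u' m := up2' h hu' N1 m1 hm3
      have q2 : e u m ≤ k * e u N := h.anti u hu N m N1 hc.le
      have q3 : e u' N / e u' m ≤ k ^ 2 := by rw [div_le_iff₀ p8]; exact q1
      have q4 : 1 ≤ k * (e u N / e u m) := by
        rw [← mul_div_assoc, le_div_iff₀ p6, one_mul]; exact q2
      calc _ ≤ k ^ 2 := q3
        _ = k ^ 2 * 1 := (mul_one _).symm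
        _ ≤ k ^ 2 * (k * (e u N / e u m)) := mul_le_mul_of_nonneg_left q4 (by positivity)
        _ = _ := by ring
    · have q1 := (h.rat' hu' hu (r := m) (n := N) (by rw [sd_comm]; omega) m1 hc).l
      refine q1.trans ?_
      apply mul_le_mul_of_nonneg_right _ (by positivity)
      nlinarith [mul_pos k0 k0, mul_le_mul hk hk (by norm_num) k0.le]
  have t5 : e x N * e u n ≤ k * (e u N * e x n) := by
    have := h.rat u hu x hx n N le_rfl n1 hle
    linarith
  have t6 : e x n ≤ k * e x a := h.anti x hx a n ha h1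
  have t7 : e u N / e u m ≤ k ^ 2 * (e u (max a D') / e u D') := by
    rcases Nat.lt_or_ge N D' with hc | hc
    · rw [max_eq_right (h2.trans hc.le), div_self p14.ne', mul_one, div_le_iff₀ p6]
      exact up2' h hu N1 m1 hm3
    · rw [← mul_div_assoc, div_le_div_iff₀ p6 p14]
      have q1 := h.anti u hu (max a D') N (by omega) (max_le h2 hc)
      have q2 := h.anti u hu m D' m1 hmD
      calc e u N * e u D' ≤ (k * e u (max a D')) * (k * e u m) :=
            mul_le_mul q1 q2 p14.le (by positivity)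
        _ = _ := by ring
  have s1 : (e u n * e x n) * (e u' N * e x' N) / ((e u m * e u' m) * (e x m' * e x' m')) =
      e x n / e x m' * (e x' N / e x' m') * (e u n / e u m * (e u' N / e u' m)) := by
    field_simp
  rw [s1]
  have s2 := four_mul (c1 := k) (c2 := k ^ 2) (c3 := 1) (c4 := k ^ 3) (by positivity)
    (by positivity) (by positivity) (by positivity) (by positivity) (by positivity)
    (by positivity) k0.le (by positivity) (by norm_num) t1 t2
    (show e u n / e u m ≤ 1 * (e u n / e u m) by rw [one_mul]) t4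
  have s3 : e x n / e x d * (e x N / e x d) * (e u n / e u m * (e u N / e u m)) ≤
      k * (e x n / e x d * (e u N / e u m)) ^ 2 := by
    have e1 : e x n / e x d * (e x N / e x d) * (e u n / e u m * (e u N / e u m)) =
        (e x N * e u n) * (e x n * e u N / ((e x d) ^ 2 * (e u m) ^ 2)) := by
      field_simp
    have e2 : k * (e x n / e x d * (e u N / e u m)) ^ 2 =
        (k * (e u N * e x n)) * (e x n * e u N / ((e x d) ^ 2 * (e u m) ^ 2)) := by
      field_simp
    rw [e1, e2]
    exact mul_le_mul_of_nonneg_right t5 (by positivity)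
  have s4 : e x n / e x d * (e u N / e u m) ≤
      k ^ 3 * (e x a / e x d * (e u (max a D') / e u D')) := by
    have q1 : e x n / e x d ≤ k * (e x a / e x d) := by
      rw [← mul_div_assoc]
      exact div_le_div_of_nonneg_right t6 p9.le
    calc _ ≤ (k * (e x a / e x d)) * (k ^ 2 * (e u (max a D') / e u D')) :=
          mul_le_mul q1 t7 (by positivity) (by positivity)
      _ = _ := by ring
  have s5 := pow_le_pow_left₀ (by positivity) s4 2
  calc _ ≤ _ := s2
    _ ≤ k * k ^ 2 * (1 * k ^ 3) * (k * (e x n / e x d * (e u N / e u m)) ^ 2) :=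
        mul_le_mul_of_nonneg_left s3 (by positivity)
    _ ≤ k * k ^ 2 * (1 * k ^ 3) *
        (k * (k ^ 3 * (e x a / e x d * (e u (max a D') / e u D'))) ^ 2) := by
        apply mul_le_mul_of_nonneg_left _ (by positivity)
        exact mul_le_mul_of_nonneg_left s5 k0.le
    _ = _ := by ring

theorem R4_lower (h : Reg D e k) {u u' x x' : Vtx} (hu : u ∈ D) (hu' : u' ∈ D) (hx : x ∈ D)
    (hx' : x' ∈ D) {a d D' : ℕ} (ha : 1 ≤ a) (hd : 1 ≤ d) (hdD : d ≤ D') (h1 : sd u x = a)
    (h2 : 1 ≤ sd u' x') (hm1 : sd u u' ≤ D') (hm2 : D' ≤ 2 * max (sd u u') 1)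
    (hm1' : sd x x' ≤ d) (hm2' : d ≤ 2 * max (sd x x') 1) :
    (e x (max a d) / e x d * (e u (max a D') / e u D')) ^ 2 ≤ k ^ 17 * R4 e u u' x x' := by
  have k0 : 0 < k := lt_of_lt_of_le one_pos h.hk
  have hk := h.hk
  have hD : 1 ≤ D' := hd.trans hdD
  have tri : sd u' x' ≤ sd u u' + sd u x + sd x x' := by
    have := sd_tri u' u x'
    have := sd_tri u x x'
    have := sd_comm u' u
    omega
  unfold R4
  rw [h1]
  set n := sd u' x' with hn
  set m := max (sd u u') 1 with hmm
  set m' := max (sd x x') 1 with hmm'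
  have m1 : 1 ≤ m := le_max_right _ _
  have m1' : 1 ≤ m' := le_max_right _ _
  set M := max a D' with hM
  have M1 : 1 ≤ M := ha.trans (le_max_left _ _)
  have hn3 : n ≤ 3 * M := by omega
  have p1 := h.pos x hx a ha
  have p2 := h.pos x hx m' m1'
  have p3 := h.pos x' hx' n h2
  have p4 := h.pos x' hx' m' m1'
  have p5 := h.pos u hu a ha
  have p6 := h.pos u hu m m1
  have p7 := h.pos u' hu' n h2
  have p8 := h.pos u' hu' m m1
  have p9 := h.pos x hx d hd
  have p10 := h.pos x hx M M1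
  have p11 := h.pos u hu M M1
  have p12 := h.pos x' hx' d hd
  have p13 := h.pos u' hu' D' hD
  have p14 := h.pos u hu D' hD
  have p15 := h.pos x' hx' M M1
  have p16 := h.pos u' hu' M M1
  have p17 := h.pos x hx (max a d) (by omega)
  have t1 : e x a / e x d ≤ k ^ 2 * (e x a / e x m') := by
    rw [← mul_div_assoc, div_le_div_iff₀ p9 p2]
    have := up2' h hx (n := m') (m := d) m1' hd (by omega)
    nlinarith
  have t2 : e x M / e x d ≤ k ^ 5 * (e x' n / e x' m') := by
    have q1 := (h.rat' hx hx' (r := d) (n := M) (by omega) hd (by omega)).l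
    have q2 : e x' M ≤ k ^ 2 * e x' n := up2' h hx' M1 h2 hn3
    have q3 : e x' m' ≤ k ^ 2 * e x' d := up2' h hx' m1' hd (by omega)
    have q4 : e x' M / e x' d ≤ k ^ 4 * (e x' n / e x' m') := by
      rw [← mul_div_assoc, div_le_div_iff₀ p12 p4]
      calc e x' M * e x' m' ≤ (k ^ 2 * e x' n) * (k ^ 2 * e x' d) :=
            mul_le_mul q2 q3 p4.le (by positivity)
        _ = _ := by ring
    calc _ ≤ k * (e x' M / e x' d) := q1
      _ ≤ k * (k ^ 4 * (e x' n / e x' m')) := mul_le_mul_of_nonneg_left q4 k0.le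
      _ = _ := by ring
  have t3 : e u a / e u D' ≤ k ^ 2 * (e u a / e u m) := by
    rw [← mul_div_assoc, div_le_div_iff₀ p14 p6]
    have := up2' h hu (n := m) (m := D') m1 hD (by omega)
    nlinarith
  have t4 : e u M / e u D' ≤ k ^ 5 * (e u' n / e u' m) := by
    have q1 := (h.rat' hu hu' (r := D') (n := M) hm1 hD (le_max_right _ _)).l
    have q2 : e u' M ≤ k ^ 2 * e u' n := up2' h hu' M1 h2 hn3
    have q3 : e u' m ≤ k ^ 2 * e u' D' := up2' h hu' m1 hD (by omega)
    have q4 : e u' M / e u' D' ≤ k ^ 4 * (e u' n / e u' m) := by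
      rw [← mul_div_assoc, div_le_div_iff₀ p13 p8]
      calc e u' M * e u' m ≤ (k ^ 2 * e u' n) * (k ^ 2 * e u' D') :=
            mul_le_mul q2 q3 p8.le (by positivity)
        _ = _ := by ring
    calc _ ≤ k * (e u' M / e u' D') := q1
      _ ≤ k * (k ^ 4 * (e u' n / e u' m)) := mul_le_mul_of_nonneg_left q4 k0.le
      _ = _ := by ring
  have s1 : (e u a * e x a) * (e u' n * e x' n) / ((e u m * e u' m) * (e x m' * e x' m')) =
      e x a / e x m' * (e x' n / e x' m') * (e u a / e u m * (e u' n / e u' m)) := by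
    field_simp
  rw [s1]
  have s2 := four_mul (c1 := k ^ 2) (c2 := k ^ 5) (c3 := k ^ 2) (c4 := k ^ 5) (by positivity)
    (by positivity) (by positivity) (by positivity) (by positivity) (by positivity)
    (by positivity) (by positivity) (by positivity) (by positivity) t1 t2 t3 t4
  have t5 : e x a * e u M ≤ k * (e x M * e u a) :=
    h.rat x hx u hu a M (by rw [sd_comm]; omega) ha (le_max_left _ _)
  have t6 : e x (max a d) ≤ k * e x a := h.anti x hx a (max a d) ha (le_max_left _ _)
  have s3 : (e x (max a d) / e x d * (e u M / e u D')) ^ 2 ≤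
      k ^ 3 * (e x a / e x d * (e x M / e x d) * (e u a / e u D' * (e u M / e u D'))) := by
    have e1 : (e x (max a d) / e x d * (e u M / e u D')) ^ 2 =
        (e x (max a d)) ^ 2 * (e u M) ^ 2 / ((e x d) ^ 2 * (e u D') ^ 2) := by
      field_simp
    have e2 : k ^ 3 * (e x a / e x d * (e x M / e x d) * (e u a / e u D' * (e u M / e u D'))) =
        k ^ 3 * (e x a * e x M * (e u a * e u M)) / ((e x d) ^ 2 * (e u D') ^ 2) := by
      field_simp
    rw [e1, e2]
    apply div_le_div_of_nonneg_right _ (by positivity)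
    calc (e x (max a d)) ^ 2 * (e u M) ^ 2 ≤ (k * e x a) ^ 2 * (e u M) ^ 2 := by
          apply mul_le_mul_of_nonneg_right _ (by positivity)
          exact pow_le_pow_left₀ p17.le t6 2
      _ = k ^ 2 * (e x a * e u M) * (e x a * e u M) := by ring
      _ ≤ k ^ 2 * (k * (e x M * e u a)) * (e x a * e u M) := by
          apply mul_le_mul_of_nonneg_right _ (by positivity)
          exact mul_le_mul_of_nonneg_left t5 (by positivity)
      _ = _ := by ring
  calc _ ≤ _ := s3
    _ ≤ k ^ 3 * (k ^ 2 * k ^ 5 * (k ^ 2 * k ^ 5) * (e x a / e x m' * (e x' n / e x' m') *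
        (e u a / e u m * (e u' n / e u' m)))) := mul_le_mul_of_nonneg_left s2 (by positivity)
    _ = _ := by ring

end

end H67CS
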