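import Pool.Agent.H67CS.Add
import Pool.Agent.TH976.Inf

/-!
Connection of wired sets in the plane, the half-plane and the quadrant.
-/

set_option autoImplicit false

namespace H67CS
open Finset H974 Pool.Agent.H160R2.CV H362P TH976 MeasureTheory
open Pool.Agent.H160R2.CV.Quad Pool.Agent.H389R2.CD

/-- translation of the quadrant `x ≥ L, y ≥ M` to the standard quadrant -/
def sh2 (L M : ℤ) (v : Vtx) : Vtx := (v.1 - L, v.2 - M)

theorem sh2_eq (L M : ℤ) (v : Vtx) : sh2 L M v = (trl (-L) (-M)).ψ v := by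
  obtain ⟨a, b⟩ := v
  rw [trl_ψ]
  rfl

theorem sh2_inj (L M : ℤ) : Function.Injective (sh2 L M) := by
  intro u v h
  unfold sh2 at h
  have h1 := congrArg Prod.fst h
  have h2 := congrArg Prod.snd h
  simp only at h1 h2
  exact Prod.ext (by omega) (by omega)

theorem sd_sh2 (L M : ℤ) (u v : Vtx) : sd (sh2 L M u) (sh2 L M v) = sd u v := by
  unfold sd sh2
  simp only
  omega

theorem Near2_sh {L M : ℤ} {K X : Finset Vtx} {a : ℕ} (h : Near2 K X a) :
    Near2 (K.image (sh2 L M)) (X.image (sh2 L M)) a := by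
  obtain ⟨⟨x, hx, y, hy, hay⟩, hmin⟩ := h
  refine ⟨⟨sh2 L M x, Finset.mem_image_of_mem _ hx, sh2 L M y, Finset.mem_image_of_mem _ hy,
    by rw [sd_sh2]; exact hay⟩, ?_⟩
  rintro d ⟨u, hu, v, hv, rfl⟩
  obtain ⟨u', hu', rfl⟩ := Finset.mem_image.mp hu
  obtain ⟨v', hv', rfl⟩ := Finset.mem_image.mp hv
  rw [sd_sh2]
  exact hmin ⟨u', hu', v', hv', rfl⟩

theorem Diam_sh2 {L M : ℤ} {X : Finset Vtx} {a : ℕ} (h : Diam X a) :
    Diam (X.image (sh2 L M)) a := by
  obtain ⟨⟨p, hp, r, hr, hD⟩, hmax⟩ := h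
  refine ⟨⟨sh2 L M p, Finset.mem_image_of_mem _ hp, sh2 L M r, Finset.mem_image_of_mem _ hr,
    by rw [sd_sh2]; exact hD⟩, ?_⟩
  rintro d ⟨u, hu, v, hv, rfl⟩
  obtain ⟨u', hu', rfl⟩ := Finset.mem_image.mp hu
  obtain ⟨v', hv', rfl⟩ := Finset.mem_image.mp hv
  rw [sd_sh2]
  exact hmax ⟨u', hu', v', hv', rfl⟩

theorem Ends_sh {L M : ℤ} {W : Finset Edg} {X : Finset Vtx} (h : Ends W (fun v => v ∈ X)) :
    Ends ((trl (-L) (-M)).mp W) (fun v => v ∈ X.image (sh2 L M)) := by
  intro e he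
  rw [LSym.mem_mp] at he
  have h1 := h _ he
  obtain ⟨p, q, b⟩ := e
  rw [trl_φs] at h1
  rw [src_mk] at h1
  constructor
  · refine Finset.mem_image.mpr ⟨_, h1.1, ?_⟩
    rw [src_mk]
    unfold sh2
    exact Prod.ext (by simp only; ring) (by simp only; ring)
  · refine Finset.mem_image.mpr ⟨_, h1.2, ?_⟩
    cases b
    · rw [tgt_false, tgt_false]
      unfold sh2
      exact Prod.ext (by simp only; ring) (by simp only; ring)
    · rw [tgt_true, tgt_true]
      unfold sh2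
      exact Prod.ext (by simp only; ring) (by simp only; ring)

theorem reach_sh {L M : ℤ} {F : Finset Edg} {u v : Vtx} :
    Reach (↑((trl (-L) (-M)).mp F) : Set Edg) (sh2 L M u) (sh2 L M v) ↔
      Reach (↑F : Set Edg) u v := by
  rw [LSym.coe_mp, sh2_eq, sh2_eq, LSym.reach_iff]

theorem mp_union (g : LSym) (F G : Finset Edg) : g.mp (F ∪ G) = g.mp F ∪ g.mp G := by
  ext e; simp [LSym.mem_mp]

theorem Cn_sh2 (L M : ℤ) (X : Finset Vtx) (F : Finset Edg) :
    Cn (X.image (sh2 L M)) (↑((trl (-L) (-M)).mp F)) ↔ Cn X (↑F) := by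
  constructor
  · intro h u hu v hv
    exact reach_sh.mp (h _ (Finset.mem_image_of_mem _ hu) _ (Finset.mem_image_of_mem _ hv))
  · intro h u hu v hv
    obtain ⟨u', hu', rfl⟩ := Finset.mem_image.mp hu
    obtain ⟨v', hv', rfl⟩ := Finset.mem_image.mp hv
    exact reach_sh.mpr (h u' hu' v' hv')

theorem pr_sh2 (L M : ℤ) (X : Finset Vtx) (W S : Finset Edg) :
    Pr P ((trl (-L) (-M)).mp S) (fun F => CW (X.image (sh2 L M)) ((trl (-L) (-M)).mp W) (↑F)) =
      Pr P S (fun F => CW X W (↑F)) := by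
  change Pr (fun _ => (1 / 2 : ℝ)) _ _ = _
  rw [LSym.pr]
  apply Pr_congr
  intro F _
  unfold CW
  rw [coe_un, ← mp_union, Cn_sh2, coe_un]

theorem Dat_sh {L M : ℤ} {X K : Finset Vtx} {W V : Finset Edg} {a d D : ℕ}
    (h : Dat X K W V a d D) : Dat (X.image (sh2 L M)) (K.image (sh2 L M))
      ((trl (-L) (-M)).mp W) ((trl (-L) (-M)).mp V) a d D where
  hW := Ends_sh h.hW
  hV := Ends_sh h.hV
  hK := (Cn_sh2 L M K V).mpr h.hK
  near := Near2_sh h.near
  ha := h.ha
  dK := Diam_sh2 h.dK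
  dX := Diam_sh2 h.dX

theorem Thk_sh {L M : ℤ} {X : Finset Vtx} {W : Finset Edg} {d D : ℕ} (h : Thk X W d D) :
    Thk (X.image (sh2 L M)) ((trl (-L) (-M)).mp W) d D := by
  refine ⟨h.1, ?_⟩
  intro u hu
  obtain ⟨u', hu', rfl⟩ := Finset.mem_image.mp hu
  obtain ⟨v, hv, hr⟩ := h.2 u' hu'
  exact ⟨sh2 L M v, by rw [sd_sh2]; exact hv, reach_sh.mpr hr⟩

/-- adding a set in the quadrant `x ≥ L, y ≥ M` -/
theorem add_setL {L M : ℤ} {X K : Finset Vtx} {W V : Finset Edg} {a d D : ℕ}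
    (h : Dat X K W V a d D) (hXV : ∀ u ∈ X, L ≤ u.1 ∧ M ≤ u.2) (hKV : ∀ u ∈ K, L ≤ u.1 ∧ M ≤ u.2)
    {x y : Vtx} (hx : x ∈ K) (hy : y ∈ X) {S : Finset Edg} (hSQ : ∀ e ∈ S, L ≤ e.1 ∧ M ≤ e.2.1)
    (hS : qb (sh2 L M x) (64 * (a + max d 1)) ⊆ (trl (-L) (-M)).mp S) :
    kc * ((aq (sh2 L M x) (max a (max d 1)) * aq (sh2 L M y) (max a (max D 1))) *
        Pr P S (fun F => CW X W (↑F))) ≤
      (aq (sh2 L M x) (max d 1) * aq (sh2 L M y) (max D 1)) *
        Pr P S (fun F => CW (K ∪ X) (V ∪ W) (↑F)) ∧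
    (Thk X W d D → kc * ((aq (sh2 L M x) (max d 1) * aq (sh2 L M y) (max D 1)) *
        Pr P S (fun F => CW (K ∪ X) (V ∪ W) (↑F))) ≤
      (aq (sh2 L M x) (max a (max d 1)) * aq (sh2 L M y) (max a (max D 1))) *
        Pr P S (fun F => CW X W (↑F))) := by
  have inv : ∀ Y : Finset Vtx, (∀ u ∈ Y, L ≤ u.1 ∧ M ≤ u.2) → ∀ u ∈ Y.image (sh2 L M), InV u := by
    intro Y hY u hu
    obtain ⟨v, hv, rfl⟩ := Finset.mem_image.mp hu
    have := hY v hv
    unfold InV sh2
    simp only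
    omega
  have t := add_setQ (Dat_sh (L := L) (M := M) h) (inv X hXV) (inv K hKV)
    (Finset.mem_image_of_mem _ hx) (Finset.mem_image_of_mem _ hy)
    (S := (trl (-L) (-M)).mp S) ?_ hS
  · rw [pr_sh2, ← Finset.image_union, ← mp_union, pr_sh2] at t
    exact ⟨t.1, fun ht => t.2 (Thk_sh ht)⟩
  · intro e he
    rw [LSym.mem_mp] at he
    have := hSQ _ he
    obtain ⟨p, q, b⟩ := e
    rw [trl_φs] at this
    simp only at this ⊢
    omega

/-- the profile in the quadrant `x ≥ L, y ≥ M` -/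
noncomputable def EL2 (L M : ℤ) (v : Vtx) (n : ℕ) : ℝ :=
  E (min ((v.1 : ℝ) - L) ((v.2 : ℝ) - M) + 1) (max ((v.1 : ℝ) - L) ((v.2 : ℝ) - M) + 1) n

theorem aq_sh2_cmp (hA : ArS) : ∃ K : ℝ, ∀ (L M : ℤ) (v : Vtx), L ≤ v.1 ∧ M ≤ v.2 →
    ∀ n : ℕ, 1 ≤ n → Cmp K (aq (sh2 L M v) n) (EL2 L M v n) := by
  obtain ⟨K, h⟩ := aq_cmp hA
  refine ⟨K, fun L M v hv n hn => ?_⟩
  have := h (sh2 L M v) (by unfold InV sh2; simp only; omega) n hn
  unfold EL2
  unfold sh2 at this ⊢
  simp only at this ⊢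
  push_cast at this
  exact this

/-- adding a set with explicit profiles, finite volume -/
theorem add_setE (hA : ArS) : ∃ c : ℝ, 0 < c ∧ ∀ (L M : ℤ) (X K : Finset Vtx) (W V : Finset Edg)
    (a d D : ℕ), Dat X K W V a d D → (∀ u ∈ X, L ≤ u.1 ∧ M ≤ u.2) →
    (∀ u ∈ K, L ≤ u.1 ∧ M ≤ u.2) → ∀ x ∈ K, ∀ y ∈ X, ∀ S : Finset Edg,
    (∀ e ∈ S, L ≤ e.1 ∧ M ≤ e.2.1) →
    qb (sh2 L M x) (64 * (a + max d 1)) ⊆ (trl (-L) (-M)).mp S →
    c * ((EL2 L M x (max a (max d 1)) * EL2 L M y (max a (max D 1))) *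
        Pr P S (fun F => CW X W (↑F))) ≤
      (EL2 L M x (max d 1) * EL2 L M y (max D 1)) *
        Pr P S (fun F => CW (K ∪ X) (V ∪ W) (↑F)) ∧
    (Thk X W d D → c * ((EL2 L M x (max d 1) * EL2 L M y (max D 1)) *
        Pr P S (fun F => CW (K ∪ X) (V ∪ W) (↑F))) ≤
      (EL2 L M x (max a (max d 1)) * EL2 L M y (max a (max D 1))) *
        Pr P S (fun F => CW X W (↑F))) := by
  obtain ⟨Q, h⟩ := aq_sh2_cmp hA
  have hQ : 1 ≤ Q := (h 0 0 (1, 1) (by norm_num) 1 le_rfl).hk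
  have hQ0 : 0 < Q := by linarith
  have ha0 := kc_pos
  refine ⟨kc / Q ^ 4, by positivity, ?_⟩
  intro L M X K W V a d D hD hXV hKV x hx y hy S hSQ hS
  obtain ⟨i1, i2⟩ := add_setL hD hXV hKV hx hy hSQ hS
  have c1 := h L M x (hKV x hx) (max a (max d 1)) (by omega)
  have c2 := h L M y (hXV y hy) (max a (max D 1)) (by omega)
  have c3 := h L M x (hKV x hx) (max d 1) (by omega)
  have c4 := h L M y (hXV y hy) (max D 1) (by omega)
  have pX : 0 ≤ Pr P S (fun F => CW X W (↑F)) := Pr_nonneg okP _ _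
  have pI : 0 ≤ Pr P S (fun F => CW (K ∪ X) (V ∪ W) (↑F)) := Pr_nonneg okP _ _
  generalize Pr P S (fun F => CW (K ∪ X) (V ∪ W) (↑F)) = qI at *
  generalize Pr P S (fun F => CW X W (↑F)) = qX at *
  generalize aq (sh2 L M x) (max a (max d 1)) = A at *
  generalize aq (sh2 L M y) (max a (max D 1)) = B at *
  generalize aq (sh2 L M x) (max d 1) = α at *
  generalize aq (sh2 L M y) (max D 1) = β at *
  generalize EL2 L M x (max a (max d 1)) = A' at *
  generalize EL2 L M y (max a (max D 1)) = B' at *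
  generalize EL2 L M x (max d 1) = α' at *
  generalize EL2 L M y (max D 1) = β' at *
  generalize kc = κ at *
  have m1 := c1.mul c2
  have m2 := c3.mul c4
  obtain ⟨-, h1, h1', h2, h3⟩ := m1
  obtain ⟨-, h4, h4', h5, h6⟩ := m2
  have key : ∀ {A B α β qX qI : ℝ}, 0 ≤ qX → 0 ≤ qI → 0 < A → 0 < B → 0 < α → 0 < β →
      B ≤ Q * Q * A → α ≤ Q * Q * β → κ * (A * qX) ≤ α * qI → κ / Q ^ 4 * (B * qX) ≤ β * qI := by
    intro A B α β qX qI g1 g2 g3 g4 g5 g6 g7 g8 g9
    rw [div_mul_eq_mul_div, div_le_iff₀ (by positivity)]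
    calc κ * (B * qX) ≤ κ * ((Q * Q * A) * qX) := by
          apply mul_le_mul_of_nonneg_left _ ha0.le
          exact mul_le_mul_of_nonneg_right g7 g1
      _ = (Q * Q) * (κ * (A * qX)) := by ring
      _ ≤ (Q * Q) * (α * qI) := mul_le_mul_of_nonneg_left g9 (by positivity)
      _ ≤ (Q * Q) * ((Q * Q * β) * qI) := by
          apply mul_le_mul_of_nonneg_left _ (by positivity)
          exact mul_le_mul_of_nonneg_right g8 g2
      _ = _ := by ring
  exact ⟨key pX pI h1 h1' h4 h4' h3 h5 i1, fun ht => key pI pX h4 h4' h1 h1' h6 h2 (i2 ht)⟩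

/-! ### the domains -/

/-- the three domains -/
inductive Sh
  | plane
  | half
  | quad

/-- the domains: the plane, the half-plane `y ≥ 1`, the quadrant `x ≥ 1, y ≥ 1` -/
def dom : Sh → Set Vtx
  | .plane => Set.univ
  | .half => {v | 1 ≤ v.2}
  | .quad => {v | 1 ≤ v.1 ∧ 1 ≤ v.2}

/-- the profiles -/
noncomputable def pf : Sh → Vtx → ℕ → ℝ
  | .plane, _, n => (n : ℝ) ^ (-(5 / 48 : ℝ))
  | .half, v, n => EH v.2 n
  | .quad, v, n => E (min (v.1 : ℝ) v.2) (max (v.1 : ℝ) v.2) n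

/-- left side of the finite volumes -/
def lo1 : Sh → ℕ → ℤ
  | .quad, _ => 1
  | _, m => -(m : ℤ)

/-- bottom of the finite volumes -/
def lo2 : Sh → ℕ → ℤ
  | .plane, m => -(m : ℤ)
  | _, _ => 1

theorem pf_pos (s : Sh) {v : Vtx} (hv : v ∈ dom s) {n : ℕ} (hn : 1 ≤ n) : 0 < pf s v n := by
  have hn' : (0 : ℝ) < n := by exact_mod_cast hn
  cases s
  · exact Real.rpow_pos_of_pos hn' _
  · have h2 : (1 : ℝ) ≤ v.2 := by exact_mod_cast hv
    exact EH_pos hn' (by linarith)
  · have h1 : (1 : ℝ) ≤ v.1 := by exact_mod_cast hv.1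
    have h2 : (1 : ℝ) ≤ v.2 := by exact_mod_cast hv.2
    exact E_pos hn' (lt_min (by linarith) (by linarith)) (lt_max_of_lt_left (by linarith))

theorem EL2_eq (s : Sh) {m : ℕ} {v : Vtx} {n : ℕ} (hn : 1 ≤ n)
    (h1 : v.1.natAbs + v.2.natAbs + n ≤ m) : EL2 (lo1 s m) (lo2 s m) v n = pf s v n := by
  have hn' : (0 : ℝ) < n := by exact_mod_cast hn
  cases s
  · show E _ _ _ = _
    have e1 : (n : ℝ) ≤ (v.1 : ℝ) - ((-(m : ℤ) : ℤ) : ℝ) := by
      have : ((n : ℤ) : ℝ) ≤ ((v.1 + m : ℤ) : ℝ) := by exact_mod_cast (by omega)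
      push_cast at this ⊢
      linarith
    have e2 : (n : ℝ) ≤ (v.2 : ℝ) - ((-(m : ℤ) : ℤ) : ℝ) := by
      have : ((n : ℤ) : ℝ) ≤ ((v.2 + m : ℤ) : ℝ) := by exact_mod_cast (by omega)
      push_cast at this ⊢
      linarith
    exact E_small hn' ((le_min e1 e2).trans (by simp only [lo1, lo2]; linarith))
      ((le_max_of_le_left e1).trans (by simp only [lo1, lo2]; linarith))
  · have := EL_half (m := m) (v := v) (n := n) hn (by omega) (by omega)
    unfold EL eH at this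
    show EL2 (-(m : ℤ)) 1 v n = EH v.2 n
    unfold EL2
    rw [Int.cast_one]
    exact this
  · have := EL_one v n
    unfold EL eQ at this
    show EL2 1 1 v n = E (min (v.1 : ℝ) v.2) (max (v.1 : ℝ) v.2) n
    unfold EL2
    rw [← this, Int.cast_one]

theorem CW_mono' {X : Finset Vtx} {W : Finset Edg} : ∀ F G : Set Edg, F ⊆ G → CW X W F → CW X W G :=
  fun _ _ h hF => hF.mono h

theorem CW_box' {X : Finset Vtx} {W : Finset Edg} :
    ∀ F : Set Edg, CW X W F → ∃ m : ℕ, CW X W (F ∩ ↑(boxE m)) := by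
  intro F h
  obtain ⟨m, hm⟩ := Cn_box' (X := X) (F ∪ ↑W) h
  refine ⟨m, Cn.mono ?_ hm⟩
  rintro e ⟨he | he, h2⟩
  · exact Or.inl ⟨he, h2⟩
  · exact Or.inr he

/-- **Adding a set**, in the plane, the half-plane and the quadrant. -/
theorem add_set (hA : ArS) : ∃ c : ℝ, 0 < c ∧ ∀ (s : Sh) (X K : Finset Vtx) (W V : Finset Edg)
    (a d D : ℕ), Dat X K W V a d D → (∀ u ∈ X, u ∈ dom s) → (∀ u ∈ K, u ∈ dom s) →
    ∀ x ∈ K, ∀ y ∈ X,
    c * ((pf s x (max a (max d 1)) * pf s y (max a (max D 1))) * PD (dom s) (CW X W)) ≤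
      (pf s x (max d 1) * pf s y (max D 1)) * PD (dom s) (CW (K ∪ X) (V ∪ W)) ∧
    (Thk X W d D →
      c * ((pf s x (max d 1) * pf s y (max D 1)) * PD (dom s) (CW (K ∪ X) (V ∪ W))) ≤
      (pf s x (max a (max d 1)) * pf s y (max a (max D 1))) * PD (dom s) (CW X W)) := by
  obtain ⟨c, hc, h⟩ := add_setE hA
  refine ⟨c, hc, fun s X K W V a d D hD hX hK x hx y hy => ?_⟩
  set m0 : ℕ := X.sup (fun v => v.1.natAbs) + X.sup (fun v => v.2.natAbs) +
    K.sup (fun v => v.1.natAbs) + K.sup (fun v => v.2.natAbs) +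
    64 * (a + max d 1) + D + 1 with hm0
  have bX1 : ∀ u ∈ X, u.1.natAbs ≤ X.sup (fun v : Vtx => v.1.natAbs) :=
    fun u hu => Finset.le_sup (f := fun v : Vtx => v.1.natAbs) hu
  have bX2 : ∀ u ∈ X, u.2.natAbs ≤ X.sup (fun v : Vtx => v.2.natAbs) :=
    fun u hu => Finset.le_sup (f := fun v : Vtx => v.2.natAbs) hu
  have bK1 : ∀ u ∈ K, u.1.natAbs ≤ K.sup (fun v : Vtx => v.1.natAbs) :=
    fun u hu => Finset.le_sup (f := fun v : Vtx => v.1.natAbs) hu
  have bK2 : ∀ u ∈ K, u.2.natAbs ≤ K.sup (fun v : Vtx => v.2.natAbs) :=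
    fun u hu => Finset.le_sup (f := fun v : Vtx => v.2.natAbs) hu
  have x1 := bK1 x hx
  have x2 := bK2 x hx
  have y1 := bX1 y hy
  have y2 := bX2 y hy
  have fin : ∀ m : ℕ, m0 ≤ m →
      c * ((pf s x (max a (max d 1)) * pf s y (max a (max D 1))) *
          Pr P (bD (dom s) m) (fun F => CW X W (↑F))) ≤
        (pf s x (max d 1) * pf s y (max D 1)) *
          Pr P (bD (dom s) m) (fun F => CW (K ∪ X) (V ∪ W) (↑F)) ∧
      (Thk X W d D → c * ((pf s x (max d 1) * pf s y (max D 1)) *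
          Pr P (bD (dom s) m) (fun F => CW (K ∪ X) (V ∪ W) (↑F))) ≤
        (pf s x (max a (max d 1)) * pf s y (max a (max D 1))) *
          Pr P (bD (dom s) m) (fun F => CW X W (↑F))) := by
    intro m hm
    rw [← EL2_eq s (m := m) (v := x) (n := max a (max d 1)) (by omega) (by omega),
      ← EL2_eq s (m := m) (v := y) (n := max a (max D 1)) (by omega) (by omega),
      ← EL2_eq s (m := m) (v := x) (n := max d 1) (by omega) (by omega),
      ← EL2_eq s (m := m) (v := y) (n := max D 1) (by omega) (by omega)]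
    have lim : ∀ u : Vtx, u ∈ dom s → u.1.natAbs ≤ m → u.2.natAbs ≤ m →
        lo1 s m ≤ u.1 ∧ lo2 s m ≤ u.2 := by
      intro u hu h1 h2
      cases s
      · simp only [lo1, lo2]; omega
      · have : 1 ≤ u.2 := hu
        simp only [lo1, lo2]; omega
      · exact hu
    refine h (lo1 s m) (lo2 s m) X K W V a d D hD ?_ ?_ x hx y hy (bD (dom s) m) ?_ ?_
    · intro u hu
      have := bX1 u hu
      have := bX2 u hu
      exact lim u (hX u hu) (by omega) (by omega)
    · intro u hu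
      have := bK1 u hu
      have := bK2 u hu
      exact lim u (hK u hu) (by omega) (by omega)
    · intro e he
      obtain ⟨h1, h2⟩ := mem_bD.mp he
      obtain ⟨p, q, b⟩ := e
      have h3 := h2.1
      rw [src_mk] at h3
      unfold boxE at h1
      cases s
      · simp only [lo1, lo2]
        cases b
        · rw [mem_RE_false] at h1; omega
        · rw [mem_RE_true] at h1; omega
      · have h4 : 1 ≤ q := h3
        simp only [lo1, lo2]
        cases b
        · rw [mem_RE_false] at h1; omega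
        · rw [mem_RE_true] at h1; omega
      · exact h3
    · intro e he
      rw [LSym.mem_mp, mem_bD]
      obtain ⟨p, q, b⟩ := e
      rw [trl_φs]
      unfold sh2 qb at he
      have hxs : x ∈ dom s := hK x hx
      cases b
      · rw [mem_RE_false] at he
        simp only at he
        refine ⟨?_, ?_⟩
        · unfold boxE
          rw [mem_RE_false]
          cases s
          · simp only [lo1, lo2] at he ⊢; omega
          · have h4 : 1 ≤ x.2 := hxs
            simp only [lo1, lo2] at he ⊢; omega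
          · have h4 : 1 ≤ x.1 := hxs.1
            have h5 : 1 ≤ x.2 := hxs.2
            simp only [lo1, lo2] at he ⊢; omega
        · constructor
          · rw [src_mk]
            cases s
            · trivial
            · show (1 : ℤ) ≤ _
              simp only [lo1, lo2] at he ⊢; omega
            · show (1 : ℤ) ≤ _ ∧ (1 : ℤ) ≤ _
              simp only [lo1, lo2] at he ⊢; omega
          · rw [tgt_false]
            cases s
            · trivial
            · show (1 : ℤ) ≤ _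
              simp only [lo1, lo2] at he ⊢; omega
            · show (1 : ℤ) ≤ _ ∧ (1 : ℤ) ≤ _
              simp only [lo1, lo2] at he ⊢; omega
      · rw [mem_RE_true] at he
        simp only at he
        refine ⟨?_, ?_⟩
        · unfold boxE
          rw [mem_RE_true]
          cases s
          · simp only [lo1, lo2] at he ⊢; omega
          · have h4 : 1 ≤ x.2 := hxs
            simp only [lo1, lo2] at he ⊢; omega
          · have h4 : 1 ≤ x.1 := hxs.1
            have h5 : 1 ≤ x.2 := hxs.2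
            simp only [lo1, lo2] at he ⊢; omega
        · constructor
          · rw [src_mk]
            cases s
            · trivial
            · show (1 : ℤ) ≤ _
              simp only [lo1, lo2] at he ⊢; omega
            · show (1 : ℤ) ≤ _ ∧ (1 : ℤ) ≤ _
              simp only [lo1, lo2] at he ⊢; omega
          · rw [tgt_true]
            cases s
            · trivial
            · show (1 : ℤ) ≤ _
              simp only [lo1, lo2] at he ⊢; omega
            · show (1 : ℤ) ≤ _ ∧ (1 : ℤ) ≤ _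
              simp only [lo1, lo2] at he ⊢; omega
  have e1 := pf_pos s (hK x hx) (n := max a (max d 1)) (by omega)
  have e2 := pf_pos s (hX y hy) (n := max a (max D 1)) (by omega)
  have e3 := pf_pos s (hK x hx) (n := max d 1) (by omega)
  have e4 := pf_pos s (hX y hy) (n := max D 1) (by omega)
  constructor
  · rw [← mul_assoc]
    refine PD_mul_le CW_mono' CW_box' CW_mono' (by positivity) (by positivity) m0 (fun m hm => ?_)
    rw [mul_assoc]
    exact (fin m hm).1
  · intro ht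
    rw [← mul_assoc]
    refine PD_mul_le CW_mono' CW_box' CW_mono' (by positivity) (by positivity) m0 (fun m hm => ?_)
    rw [mul_assoc]
    exact (fin m hm).2 ht

end H67CS
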