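import Pool.Agent.H67CS.Inf

/-!
The connection probabilities of `k` connected sets.
-/

set_option autoImplicit false

namespace H67CS
open Finset H974 Pool.Agent.H160R2.CV H362P TH976 MeasureTheory
open Pool.Agent.H160R2.CV.Quad Pool.Agent.H389R2.CD

open Classical in
/-- the edges with both ends in `K` -/
noncomputable def ein (K : Finset Vtx) : Finset Edg :=
  ((K ×ˢ (Finset.univ : Finset Bool)).image (fun p => ((p.1.1, p.1.2, p.2) : Edg))).filter
    (fun e => tgt e ∈ K)

theorem mem_ein {K : Finset Vtx} {e : Edg} : e ∈ ein K ↔ src e ∈ K ∧ tgt e ∈ K := by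
  classical
  unfold ein
  rw [Finset.mem_filter, Finset.mem_image]
  constructor
  · rintro ⟨⟨⟨v, b⟩, hv, rfl⟩, h2⟩
    rw [Finset.mem_product] at hv
    exact ⟨by rw [src_mk]; exact hv.1, h2⟩
  · rintro ⟨h1, h2⟩
    obtain ⟨x, y, b⟩ := e
    rw [src_mk] at h1
    exact ⟨⟨((x, y), b), Finset.mem_product.mpr ⟨h1, Finset.mem_univ _⟩, rfl⟩, h2⟩

/-- union of the first `k` sets -/
noncomputable def Un (K : ℕ → Finset Vtx) (k : ℕ) : Finset Vtx := (range k).biUnion K

/-- the wired edges of the first `k` sets -/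
noncomputable def We (K : ℕ → Finset Vtx) (k : ℕ) : Finset Edg :=
  (range k).biUnion (fun i => ein (K i))

theorem Un_succ (K : ℕ → Finset Vtx) (k : ℕ) : Un K (k + 1) = K k ∪ Un K k := by
  unfold Un
  rw [Finset.range_add_one, Finset.biUnion_insert]

theorem We_succ (K : ℕ → Finset Vtx) (k : ℕ) : We K (k + 1) = ein (K k) ∪ We K k := by
  unfold We
  rw [Finset.range_add_one, Finset.biUnion_insert]

theorem mem_Un {K : ℕ → Finset Vtx} {k : ℕ} {v : Vtx} : v ∈ Un K k ↔ ∃ i < k, v ∈ K i := by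
  unfold Un
  simp only [Finset.mem_biUnion, Finset.mem_range]

theorem mem_We {K : ℕ → Finset Vtx} {k : ℕ} {e : Edg} : e ∈ We K k ↔ ∃ i < k, e ∈ ein (K i) := by
  unfold We
  simp only [Finset.mem_biUnion, Finset.mem_range]

/-- the cost for a set of diameter `r` at `v` to reach distance `a` -/
noncomputable def cost (s : Sh) (v : Vtx) (r a : ℕ) : ℝ := pf s v (max a r) / pf s v r

theorem cost_pos (s : Sh) {v : Vtx} (hv : v ∈ dom s) {r : ℕ} (hr : 1 ≤ r) (a : ℕ) :
    0 < cost s v r a := div_pos (pf_pos s hv (by omega)) (pf_pos s hv hr)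

/-- adding a set, in terms of the costs -/
theorem add_cost (hA : ArS) : ∃ C : ℝ, 1 ≤ C ∧ ∀ (s : Sh) (X K : Finset Vtx) (W V : Finset Edg)
    (a d D : ℕ), Dat X K W V a d D → (∀ u ∈ X, u ∈ dom s) → (∀ u ∈ K, u ∈ dom s) →
    ∀ x ∈ K, ∀ y ∈ X,
    C⁻¹ * (cost s x (max d 1) a * cost s y (max D 1) a * PD (dom s) (CW X W)) ≤
      PD (dom s) (CW (K ∪ X) (V ∪ W)) ∧
    (Thk X W d D → PD (dom s) (CW (K ∪ X) (V ∪ W)) ≤
      C * (cost s x (max d 1) a * cost s y (max D 1) a * PD (dom s) (CW X W))) := by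
  obtain ⟨c, hc, h⟩ := add_set hA
  refine ⟨max 1 c⁻¹, le_max_left _ _, ?_⟩
  intro s X K W V a d D hD hX hK x hx y hy
  obtain ⟨h1, h2⟩ := h s X K W V a d D hD hX hK x hx y hy
  have e3 := pf_pos s (hK x hx) (n := max d 1) (by omega)
  have e4 := pf_pos s (hX y hy) (n := max D 1) (by omega)
  have e1 := pf_pos s (hK x hx) (n := max a (max d 1)) (by omega)
  have e2 := pf_pos s (hX y hy) (n := max a (max D 1)) (by omega)
  have pX := PD_nonneg (dom s) (CW X W)
  unfold cost
  have hci : 0 < c⁻¹ := by positivity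
  have hC0 : 0 < max 1 c⁻¹ := lt_of_lt_of_le one_pos (le_max_left _ _)
  have hC1 : (max 1 c⁻¹)⁻¹ ≤ c := by
    rw [inv_le_comm₀ hC0 hc]
    exact le_max_right _ _
  generalize PD (dom s) (CW (K ∪ X) (V ∪ W)) = qI at *
  generalize PD (dom s) (CW X W) = qX at *
  generalize pf s x (max a (max d 1)) = A at *
  generalize pf s y (max a (max D 1)) = B at *
  generalize pf s x (max d 1) = α at *
  generalize pf s y (max D 1) = β at *
  have e5 : A / α * (B / β) * qX = (A * B * qX) / (α * β) := by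
    field_simp
  rw [e5]
  constructor
  · rw [← mul_div_assoc, div_le_iff₀ (by positivity)]
    calc (max 1 c⁻¹)⁻¹ * (A * B * qX) ≤ c * (A * B * qX) :=
          mul_le_mul_of_nonneg_right hC1 (by positivity)
      _ ≤ (α * β) * qI := h1
      _ = _ := mul_comm _ _
  · intro ht
    rw [← mul_div_assoc, le_div_iff₀ (by positivity)]
    calc qI * (α * β) = c⁻¹ * (c * ((α * β) * qI)) := by field_simp
      _ ≤ c⁻¹ * (A * B * qX) := mul_le_mul_of_nonneg_left (h2 ht) hci.le
      _ ≤ _ := mul_le_mul_of_nonneg_right (le_max_right _ _) (by positivity)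

theorem PD_one (D : Set Vtx) {A : Set Edg → Prop} (h : ∀ F, A F) : PD D A = 1 := by
  unfold PD
  have : {ω : sqLattice.edgeSet → Bool | A (opn ω ∩ dE D)} = Set.univ := by
    ext ω
    exact ⟨fun _ => trivial, fun _ => h _⟩
  rw [this]
  simp


end H67CS
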