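import Pool.Agent.H67CS.Net

/-!
Connection of wired sets, quadrant: lower bound, and both bounds together.
-/

set_option autoImplicit false

namespace H67CS
open Finset H974 Pool.Agent.H160R2.CV H362P TH976
open Pool.Agent.H160R2.CV.Quad
open H973 (dlt dlt_pos dlt_le rswL)

/-- the constant of the arms -/
noncomputable def km : ℝ := k4 * kd ^ 5 * k0

theorem km_pos : 0 < km := by
  have := k4_pos
  have := kd_pos
  have := k0_pos
  unfold km
  positivity

/-- the arm of a set of diameter `R` which contains `v` -/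
theorem armS {v : Vtx} (hv : InV v) {R a : ℕ} (hR : 1 ≤ R) (ha : 1 ≤ a) {S : Finset Edg}
    (hS : qb v (8 * a) ⊆ S) : ∃ A : Finset Edg → Prop, IncrE S A ∧
      km * aq v (max a R) ≤ aq v R * Pr P S A ∧
      ∀ F F' : Finset Edg, A F → F ⊆ F' → InQ F' →
        (R ≤ 15 ∨ ∃ z0, R ≤ 2 * sd z0 v ∧ Reach (↑F') v z0) →
        ∃ q, 8 * a ≤ sd q v ∧ Reach (↑F') v q := by
  have a1 := aq_nonneg v R
  have a2 := aq_nonneg v (max a R)
  have a3 := aq_nonneg v (8 * a)
  have kd0 := kd_pos
  have kd1 := kd_le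
  have k40 := k4_pos
  have k41 := k4_le
  have k00 := k0_pos
  have k01 : k0 ≤ 1 := by linarith [k0_le]
  have kd3 : kd ^ 5 ≤ kd ^ 2 := pow_le_pow_of_le_one kd0.le kd1 (by norm_num)
  have kd2 : kd ^ 2 ≤ 1 := pow_le_one₀ kd0.le kd1
  by_cases hsm : a ≤ 15 ∨ R ≤ 15
  · refine ⟨Ar v (8 * a), Ar_incr _ _ _, ?_, ?_⟩
    · have h1 : aq v (8 * a) ≤ Pr P S (Ar v (8 * a)) := pr_Ar_ge hS
      have h2 : km * aq v (max a R) ≤ aq v R * aq v (8 * a) := by
        have e1 : km ≤ kd ^ 2 * k0 := by
          unfold km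
          calc k4 * kd ^ 5 * k0 ≤ 1 * kd ^ 2 * k0 := by
                apply mul_le_mul_of_nonneg_right _ k00.le
                exact mul_le_mul k41 kd3 (by positivity) zero_le_one
            _ = kd ^ 2 * k0 := by ring
        refine (mul_le_mul_of_nonneg_right e1 a2).trans ?_
        rcases hsm with h | h
        · have h3 : k0 ≤ aq v (8 * a) := k0_aq hv (by omega)
          have h4 : aq v (max a R) ≤ aq v R := aq_anti (le_max_right _ _)
          calc kd ^ 2 * k0 * aq v (max a R) ≤ 1 * aq v (8 * a) * aq v R := by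
                apply mul_le_mul (mul_le_mul kd2 h3 k00.le zero_le_one) h4 a2
                exact mul_nonneg zero_le_one a3
            _ = _ := by ring
        · have h3 : k0 ≤ aq v R := k0_aq hv (by omega)
          have h4 : kd ^ 2 * aq v (max a R) ≤ aq v (8 * a) := by
            refine le_trans ?_ ((aq_dbl2 hv a).trans (aq_anti (by omega)))
            exact mul_le_mul_of_nonneg_left (aq_anti (le_max_left _ _)) (by positivity)
          calc kd ^ 2 * k0 * aq v (max a R) = k0 * (kd ^ 2 * aq v (max a R)) := by ring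
            _ ≤ _ := mul_le_mul h3 h4 (mul_nonneg (by positivity) a2) a1
      exact h2.trans (mul_le_mul_of_nonneg_left h1 a1)
    · rintro F F' ⟨q, hq, hr⟩ hFF' _ _
      exact ⟨q, hq, hr.mono (by exact_mod_cast hFF')⟩
  · push Not at hsm
    obtain ⟨ha16, hR16⟩ := hsm
    set m := min a R with hm
    set q := m / 8 with hq
    refine ⟨fun F => CQ v q F ∧ Cx v q (8 * a) F, incr_and (CQ_incr _ _ _) (Cx_incr _ _ _ _), ?_, ?_⟩
    · have h1 : k4 ≤ Pr P S (CQ v q) := pr_CQ' hv (by omega) ((qb_mono (by omega)).trans hS)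
      have h3' : bq v q (8 * a) ≤ Pr P S (Cx v q (8 * a)) := pr_Cx_ge hS
      have h4' := fkg (CQ_incr S v q) (Cx_incr S v q (8 * a)) (bq_nonneg _ _ _) h1 h3'
      have h2 := aq_split hv (r := q) (n := 8 * a) (by omega)
      have b0 := bq_nonneg v q (8 * a)
      have a6 := aq_nonneg v m
      have h3 : kd ^ 3 * aq v q ≤ aq v m := (aq_dbl3 hv q).trans (aq_anti (by omega))
      have h4 : kd ^ 2 * aq v a ≤ aq v (8 * a) := (aq_dbl2 hv a).trans (aq_anti (by omega))
      have h5 : aq v (max a R) * aq v m = aq v R * aq v a := by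
        rcases le_total a R with h | h
        · rw [hm, max_eq_right h, min_eq_left h]
        · rw [hm, max_eq_left h, min_eq_right h]; ring
      have hm0 : 0 < aq v m := aq_pos hv m
      refine le_trans ?_ (mul_le_mul_of_nonneg_left h4' a1)
      generalize aq v (max a R) = B at *
      generalize aq v (8 * a) = B' at *
      generalize aq v m = M at *
      generalize aq v q = Q at *
      generalize aq v a = B'' at *
      generalize aq v R = C at *
      generalize bq v q (8 * a) = b at *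
      have h6 : kd ^ 5 * B'' ≤ M * b := by
        calc kd ^ 5 * B'' = kd ^ 3 * (kd ^ 2 * B'') := by ring
          _ ≤ kd ^ 3 * (Q * b) :=
              mul_le_mul_of_nonneg_left (h4.trans h2) (by positivity)
          _ = (kd ^ 3 * Q) * b := by ring
          _ ≤ _ := mul_le_mul_of_nonneg_right h3 b0
      have h7 : kd ^ 5 * B ≤ C * b := by
        have : kd ^ 5 * B * M ≤ C * b * M := by
          calc kd ^ 5 * B * M = C * (kd ^ 5 * B'') := by
                rw [mul_assoc, h5]; ring
            _ ≤ C * (M * b) := mul_le_mul_of_nonneg_left h6 a1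
            _ = _ := by ring
        exact le_of_mul_le_mul_right this hm0
      unfold km
      calc k4 * kd ^ 5 * k0 * B = k4 * k0 * (kd ^ 5 * B) := by ring
        _ ≤ k4 * k0 * (C * b) := mul_le_mul_of_nonneg_left h7 (by positivity)
        _ ≤ k4 * 1 * (C * b) := by
            apply mul_le_mul_of_nonneg_right _ (by positivity)
            exact mul_le_mul_of_nonneg_left k01 k40.le
        _ = C * (k4 * b) := by ring
    · rintro F F' ⟨h1, ⟨u, w, hu0, hu, hw, huw⟩⟩ hFF' hQ hz
      rcases hz with h | ⟨z0, hz0, hr⟩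
      · omega
      · obtain ⟨z, hz⟩ := CQ_meet hv (by omega) hQ (h1.mono hFF')
        have m1 := hz v z0 hv (by rw [sd_self]; omega) (by omega) hr
        have huw' : Reach (↑F') u w := huw.mono (by exact_mod_cast hFF')
        have m2 := hz u w hu0 hu (by omega) huw'
        exact ⟨w, hw, (m1.trans m2.symm).trans huw'⟩

theorem km_le : km ≤ 1 := by
  have h1 := k4_pos
  have h2 := k4_le
  have h3 := kd_pos
  have h4 := kd_le
  have h5 := k0_pos
  have h6 : k0 ≤ 1 := by linarith [k0_le]
  unfold km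
  exact mul_le_one₀ (mul_le_one₀ h2 (by positivity) (pow_le_one₀ h3.le h4)) h5.le h6

attribute [irreducible] km

/-- **Lower bound.** -/
theorem low1 {X K : Finset Vtx} {W V : Finset Edg} {x y : Vtx} (hx : InV x) (hy : InV y)
    {a d D : ℕ} (hxK : x ∈ K) (hyX : y ∈ X) (hxy : sd y x = a) (ha : 1 ≤ a) (hd : 1 ≤ d)
    (hD : 1 ≤ D) (hVQ : InQ V) (hWQ : InQ W) (hK : Cn K (↑V))
    (hKd : d ≤ 15 ∨ ∃ z ∈ K, d ≤ 2 * sd z x) (hXD : D ≤ 15 ∨ ∃ z ∈ X, D ≤ 2 * sd z y)
    {S : Finset Edg} (hSQ : InQ S) (hS : qb x (9 * a) ⊆ S) :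
    k4 * km ^ 2 * ((aq x (max a d) * aq y (max a D)) * Pr P S (fun F => CW X W (↑F))) ≤
      (aq x d * aq y D) * Pr P S (fun F => CW (K ∪ X) (V ∪ W) (↑F)) := by
  obtain ⟨A, iA, pA, gA⟩ := armS hx hd ha (S := S) ((qb_mono (by omega)).trans hS)
  obtain ⟨B, iB, pB, gB⟩ := armS hy hD ha (S := S) ((qb_sub (by omega)).trans hS)
  have h1 : k4 ≤ Pr P S (CQ x (2 * a)) := pr_CQ' hx (by omega) ((qb_mono (by omega)).trans hS)
  have p0 : 0 ≤ Pr P S (fun F => CW X W (↑F)) := Pr_nonneg okP _ _
  have i1 := fkg (CQ_incr S x (2 * a)) iA (Pr_nonneg okP _ _) h1 le_rfl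
  have i2 := fkg (incr_and (CQ_incr S x (2 * a)) iA) iB (Pr_nonneg okP _ _) i1 le_rfl
  have i3 := fkg (incr_and (incr_and (CQ_incr S x (2 * a)) iA) iB) (CW_incr S X W) p0 i2 le_rfl
  have i4 : Pr P S (fun F => ((CQ x (2 * a) F ∧ A F) ∧ B F) ∧ CW X W (↑F)) ≤
      Pr P S (fun F => CW (K ∪ X) (V ∪ W) (↑F)) := by
    apply Pr_mono okP
    rintro F hFS ⟨⟨⟨k1, k2⟩, k3⟩, k4⟩
    have hQ : InQ (F ∪ (V ∪ W)) := inQ_union (hSQ.mono hFS) (inQ_union hVQ hWQ)
    have hX : Cn X (↑(F ∪ (V ∪ W)) : Set Edg) := by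
      refine Cn.mono ?_ k4
      rw [coe_un]
      exact_mod_cast Finset.union_subset_union_right Finset.subset_union_right
    have hK' : Cn K (↑(F ∪ (V ∪ W)) : Set Edg) := by
      refine Cn.mono ?_ hK
      exact_mod_cast Finset.subset_union_left.trans Finset.subset_union_right
    obtain ⟨q1, hq1, r1⟩ := gA F _ k2 Finset.subset_union_left hQ (by
      rcases hKd with h | ⟨z, hz, h⟩
      · exact Or.inl h
      · exact Or.inr ⟨z, h, hK' x hxK z hz⟩)
    obtain ⟨q2, hq2, r2⟩ := gB F _ k3 Finset.subset_union_left hQ (by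
      rcases hXD with h | ⟨z, hz, h⟩
      · exact Or.inl h
      · exact Or.inr ⟨z, h, hX y hyX z hz⟩)
    obtain ⟨z, hz⟩ := CQ_meet hx (by omega) hQ (k1.mono Finset.subset_union_left)
    have m1 := hz x q1 hx (by rw [sd_self]; omega) (by omega) r1
    have t1 := sd_tri q2 x y
    have t2 := sd_comm x y
    have m2 := hz y q2 hy (by omega) (by omega) r2
    have m3 := m1.trans m2.symm
    have key : ∀ u ∈ K ∪ X, Reach (↑(F ∪ (V ∪ W)) : Set Edg) u x := by
      intro u hu
      rcases Finset.mem_union.mp hu with hu | hu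
      · exact hK' u hu x hxK
      · exact (hX u hu y hyX).trans m3.symm
    intro u hu v hv
    rw [coe_un]
    exact (key u hu).trans (key v hv).symm
  have a1 := aq_nonneg x (max a d)
  have a2 := aq_nonneg y (max a D)
  have a3 := aq_nonneg x d
  have a4 := aq_nonneg y D
  have km0 := km_pos
  have k40 := k4_pos
  have q1 : 0 ≤ Pr P S A := Pr_nonneg okP _ _
  have q2 : 0 ≤ Pr P S B := Pr_nonneg okP _ _
  have i5 := i3.trans i4
  generalize Pr P S (fun F => CW (K ∪ X) (V ∪ W) (↑F)) = pI at *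
  generalize Pr P S (fun F => CW X W (↑F)) = pX at *
  generalize Pr P S A = α at *
  generalize Pr P S B = β at *
  clear i1 i2 i3 i4
  generalize aq x (max a d) = A1 at *
  generalize aq y (max a D) = A2 at *
  generalize aq x d = A3 at *
  generalize aq y D = A4 at *
  generalize k4 = κ at *
  generalize km = μ at *
  calc κ * μ ^ 2 * ((A1 * A2) * pX)
      = κ * ((μ * A1) * (μ * A2)) * pX := by ring
    _ ≤ κ * ((A3 * α) * (A4 * β)) * pX := by
        apply mul_le_mul_of_nonneg_right _ p0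
        apply mul_le_mul_of_nonneg_left _ k40.le
        exact mul_le_mul pA pB (by positivity) (by positivity)
    _ = (A3 * A4) * (κ * α * β * pX) := by ring
    _ ≤ _ := mul_le_mul_of_nonneg_left i5 (by positivity)

/-- the constant of the upper bound -/
noncomputable def ku : ℝ := k4 ^ 3 * kd ^ 9 * kn * ks

theorem ku_pos : 0 < ku := by
  have := k4_pos
  have := kd_pos
  have := kn_pos
  have := ks_pos
  unfold ku
  positivity

/-- comparison of a crossing with arms -/
theorem bq_up {p : Vtx} (hp : InV p) {r n : ℕ} (hr : 1 ≤ r) (hn : 3 * r ≤ n) :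
    k4 * kd * (aq p r * bq p r n) ≤ aq p n := by
  refine le_trans ?_ (bq_le' hp hr hn)
  have h1 := aq_dbl hp r
  have h2 := bq_nonneg p r n
  calc k4 * kd * (aq p r * bq p r n) = k4 * ((kd * aq p r) * bq p r n) := by ring
    _ ≤ _ := mul_le_mul_of_nonneg_left (mul_le_mul_of_nonneg_right h1 h2) k4_pos.le

/-- **Upper bound.** -/
theorem upper {X K : Finset Vtx} {W V : Finset Edg} {x y : Vtx} (hx : InV x) (hy : InV y)
    {a d D : ℕ} (hxK : x ∈ K) (hyX : y ∈ X) (hxy : sd y x = a) (ha : 1 ≤ a) (hd : 1 ≤ d)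
    (hdD : d ≤ D) (hV : Ends V (fun v => InV v ∧ sd v x ≤ d))
    (hX : ∀ u ∈ X, InV u ∧ a ≤ sd u x ∧ sd u y ≤ D)
    (hW : Ends W (fun v => InV v ∧ a ≤ sd v x ∧ sd v y ≤ D))
    (hth : 32 ≤ d → ∀ u ∈ X, ∃ v, d ≤ 2 * sd u v ∧ Reach (↑W) u v)
    {S : Finset Edg} (hSQ : InQ S) (hS : qb x (32 * (a + d)) ⊆ S) :
    ku * ((aq x d * aq y D) * Pr P S (fun F => CW (K ∪ X) (V ∪ W) (↑F))) ≤
      (aq x (max a d) * aq y (max a D)) * Pr P S (fun F => CW X W (↑F)) := by
  have hD : 1 ≤ D := hd.trans hdD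
  have a1 := aq_nonneg x (max a d)
  have a2 := aq_nonneg y (max a D)
  have a3 := aq_nonneg x d
  have a4 := aq_nonneg y D
  have kd0 := kd_pos
  have kd1 := kd_le
  have k40 := k4_pos
  have k41 := k4_le
  have kn0 := kn_pos
  have kn1 := kn_le
  have ks0 := ks_pos
  have ks1 := ks_le
  have p0 : 0 ≤ Pr P S (fun F => CW X W (↑F)) := Pr_nonneg okP _ _
  have pI0 : 0 ≤ Pr P S (fun F => CW (K ∪ X) (V ∪ W) (↑F)) := Pr_nonneg okP _ _
  have hWQ : InQ W := inQ_of hW fun _ h => h.1
  have kdp : ∀ n m : ℕ, n ≤ m → kd ^ m ≤ kd ^ n :=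
    fun n m h => pow_le_pow_of_le_one kd0.le kd1 h
  have k4p : k4 ^ 3 ≤ 1 := pow_le_one₀ k40.le k41
  rcases Nat.lt_or_ge a (9 * d) with h9 | h9
  · -- near
    have e1 : kd ^ 2 * aq x d ≤ aq x (max a d) := (aq_dbl2 hx d).trans (aq_anti (by omega))
    have e2 : kd ^ 2 * aq y D ≤ aq y (max a D) := (aq_dbl2 hy D).trans (aq_anti (by omega))
    have e3 : kn * ks * Pr P S (fun F => CW (K ∪ X) (V ∪ W) (↑F)) ≤
        Pr P S (fun F => CW X W (↑F)) := by
      rcases Nat.lt_or_ge d 32 with h | h
      · have := up4 (X := X) (K := K) (W := W) (V := V) (x := x) (d := d) (by omega) hV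
          (S := S) ((qb_mono (by omega)).trans hS)
        refine le_trans ?_ this
        apply mul_le_mul_of_nonneg_right _ pI0
        calc kn * ks ≤ 1 * ks := mul_le_mul_of_nonneg_right kn1 ks0.le
          _ = ks := one_mul _
      · have := up3 (X := X) (K := K) (W := W) (V := V) hx h hV hWQ (hth h) hSQ
          ((qb_mono (by omega)).trans hS)
        refine le_trans ?_ this
        apply mul_le_mul_of_nonneg_right _ pI0
        calc kn * ks ≤ kn * 1 := mul_le_mul_of_nonneg_left ks1 kn0.le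
          _ = kn := mul_one _
    unfold ku
    clear kdp
    generalize Pr P S (fun F => CW (K ∪ X) (V ∪ W) (↑F)) = pI at *
    generalize Pr P S (fun F => CW X W (↑F)) = pX at *
    generalize aq x (max a d) = A1 at *
    generalize aq y (max a D) = A2 at *
    generalize aq x d = A3 at *
    generalize aq y D = A4 at *
    generalize k4 = κ at *
    generalize kd = δ at *
    generalize kn = ν at *
    generalize ks = σ at *
    calc κ ^ 3 * δ ^ 9 * ν * σ * ((A3 * A4) * pI)
        = (κ ^ 3 * δ ^ 5) * (((δ ^ 2 * A3) * (δ ^ 2 * A4)) * (ν * σ * pI)) := by ring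
      _ ≤ 1 * ((A1 * A2) * pX) := by
          apply mul_le_mul
          · exact mul_le_one₀ k4p (by positivity) (pow_le_one₀ kd0.le kd1)
          · exact mul_le_mul (mul_le_mul e1 e2 (by positivity) a1) e3 (by positivity)
              (by positivity)
          · positivity
          · norm_num
      _ = _ := one_mul _
  · -- far
    have c1 := bq_up hx (r := d) (n := a / 3) hd (by omega)
    have c2 : kd ^ 2 * aq x (a / 3) ≤ aq x (max a d) :=
      (aq_dbl2 hx (a / 3)).trans (aq_anti (by omega))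
    have c3 : k4 * kd ^ 3 * (aq x d * bq x d (a / 3)) ≤ aq x (max a d) := by
      refine le_trans ?_ c2
      calc k4 * kd ^ 3 * (aq x d * bq x d (a / 3)) =
            kd ^ 2 * (k4 * kd * (aq x d * bq x d (a / 3))) := by ring
        _ ≤ _ := mul_le_mul_of_nonneg_left c1 (by positivity)
    have b1 := bq_nonneg x d (a / 3)
    have hSx : qb x a ⊆ S := (qb_mono (by omega)).trans hS
    rcases Nat.lt_or_ge a (27 * D) with h27 | h27
    · have u1 := up1 hx hxK hyX hd h9 hV (fun u hu => ⟨(hX u hu).1, (hX u hu).2.1⟩)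
        (fun e he => ⟨⟨(hW e he).1.1, (hW e he).1.2.1⟩, ⟨(hW e he).2.1, (hW e he).2.2.1⟩⟩) hSQ hSx
      have e2 : kd ^ 3 * aq y D ≤ aq y (max a D) := (aq_dbl3 hy D).trans (aq_anti (by omega))
      unfold ku
      clear kdp c1 c2
      generalize Pr P S (fun F => CW (K ∪ X) (V ∪ W) (↑F)) = pI at *
      generalize Pr P S (fun F => CW X W (↑F)) = pX at *
      generalize aq x (max a d) = A1 at *
      generalize aq y (max a D) = A2 at *
      generalize aq x d = A3 at *
      generalize aq y D = A4 at *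
      generalize bq x d (a / 3) = b at *
      generalize k4 = κ at *
      generalize kd = δ at *
      generalize kn = ν at *
      generalize ks = σ at *
      have key : κ ^ 2 * δ ^ 6 * ((A3 * A4) * pI) ≤ (A1 * A2) * pX := by
        calc κ ^ 2 * δ ^ 6 * ((A3 * A4) * pI)
            = (κ * δ ^ 3 * A3) * (δ ^ 3 * A4) * (κ * pI) := by ring
          _ ≤ (κ * δ ^ 3 * A3) * (δ ^ 3 * A4) * (b * pX) :=
              mul_le_mul_of_nonneg_left u1 (by positivity)
          _ = (κ * δ ^ 3 * (A3 * b)) * (δ ^ 3 * A4) * pX := by ring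
          _ ≤ _ := by
              apply mul_le_mul_of_nonneg_right _ p0
              exact mul_le_mul c3 e2 (by positivity) a1
      refine le_trans ?_ key
      apply mul_le_mul_of_nonneg_right _ (by positivity)
      calc κ ^ 3 * δ ^ 9 * ν * σ = (κ ^ 2 * δ ^ 6) * (κ * δ ^ 3 * (ν * σ)) := by ring
        _ ≤ (κ ^ 2 * δ ^ 6) * 1 := by
            apply mul_le_mul_of_nonneg_left _ (by positivity)
            exact mul_le_one₀ (mul_le_one₀ k41 (by positivity) (pow_le_one₀ kd0.le kd1))
              (by positivity) (mul_le_one₀ kn1 ks0.le ks1)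
        _ = _ := mul_one _
    · have hSy : qb y (3 * D) ⊆ S := (qb_sub (by omega)).trans hS
      have u2 := up2 hx hy hxK hyX hd hdD h27 (by rw [sd_comm]; exact hxy) hV
        (fun u hu => ⟨(hX u hu).1, (hX u hu).2.2⟩)
        (fun e he => ⟨⟨(hW e he).1.1, (hW e he).1.2.2⟩, ⟨(hW e he).2.1, (hW e he).2.2.2⟩⟩) hSQ hSy
      have f1 := bq_up hy (r := 3 * D) (n := a / 3) (by omega) (by omega)
      have f2 : kd ^ 2 * aq y (a / 3) ≤ aq y (max a D) :=
        (aq_dbl2 hy (a / 3)).trans (aq_anti (by omega))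
      have f3 : kd * aq y D ≤ aq y (3 * D) := aq_dbl hy D
      have b2 := bq_nonneg y (3 * D) (a / 3)
      have f4 : k4 * kd ^ 4 * (aq y D * bq y (3 * D) (a / 3)) ≤ aq y (max a D) := by
        refine le_trans ?_ f2
        calc k4 * kd ^ 4 * (aq y D * bq y (3 * D) (a / 3))
            = kd ^ 2 * (k4 * kd * ((kd * aq y D) * bq y (3 * D) (a / 3))) := by ring
          _ ≤ kd ^ 2 * (k4 * kd * (aq y (3 * D) * bq y (3 * D) (a / 3))) := by
              apply mul_le_mul_of_nonneg_left _ (by positivity)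
              apply mul_le_mul_of_nonneg_left _ (by positivity)
              exact mul_le_mul_of_nonneg_right f3 b2
          _ ≤ _ := mul_le_mul_of_nonneg_left f1 (by positivity)
      unfold ku
      clear kdp c1 c2 f1 f2 f3
      generalize Pr P S (fun F => CW (K ∪ X) (V ∪ W) (↑F)) = pI at *
      generalize Pr P S (fun F => CW X W (↑F)) = pX at *
      generalize aq x (max a d) = A1 at *
      generalize aq y (max a D) = A2 at *
      generalize aq x d = A3 at *
      generalize aq y D = A4 at *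
      generalize bq x d (a / 3) = b at *
      generalize bq y (3 * D) (a / 3) = b' at *
      generalize k4 = κ at *
      generalize kd = δ at *
      generalize kn = ν at *
      generalize ks = σ at *
      have key : κ ^ 3 * δ ^ 7 * ((A3 * A4) * pI) ≤ (A1 * A2) * pX := by
        calc κ ^ 3 * δ ^ 7 * ((A3 * A4) * pI)
            = (κ * δ ^ 3 * A3) * (κ * δ ^ 4 * A4) * (κ * pI) := by ring
          _ ≤ (κ * δ ^ 3 * A3) * (κ * δ ^ 4 * A4) * (b * (b' * pX)) :=
              mul_le_mul_of_nonneg_left u2 (by positivity)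
          _ = (κ * δ ^ 3 * (A3 * b)) * (κ * δ ^ 4 * (A4 * b')) * pX := by ring
          _ ≤ _ := by
              apply mul_le_mul_of_nonneg_right _ p0
              exact mul_le_mul c3 f4 (by positivity) a1
      refine le_trans ?_ key
      apply mul_le_mul_of_nonneg_right _ (by positivity)
      calc κ ^ 3 * δ ^ 9 * ν * σ = (κ ^ 3 * δ ^ 7) * (δ ^ 2 * (ν * σ)) := by ring
        _ ≤ (κ ^ 3 * δ ^ 7) * 1 := by
            apply mul_le_mul_of_nonneg_left _ (by positivity)
            exact mul_le_one₀ (pow_le_one₀ kd0.le kd1)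
              (by positivity) (mul_le_one₀ kn1 ks0.le ks1)
        _ = _ := mul_one _

theorem ku_le : ku ≤ 1 := by
  have h1 := k4_pos
  have h2 := k4_le
  have h3 := kd_pos
  have h4 := kd_le
  have h5 := kn_pos
  have h6 := kn_le
  have h7 := ks_pos
  have h8 := ks_le
  unfold ku
  exact mul_le_one₀ (mul_le_one₀ (mul_le_one₀ (pow_le_one₀ h1.le h2) (by positivity)
    (pow_le_one₀ h3.le h4)) h5.le h6) h7.le h8

attribute [irreducible] ku

end H67CS
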