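import Pool.Agent.H67CS.Mesh

/-!
Kernels and maps of the three domains; covariance at small mesh.
-/

set_option autoImplicit false

namespace H67CS
open TH976 Filter Topology Set

/-! ### the kernels -/

/-- inverse kernel of the half-plane, up to factors which depend on one point; it is continuous up
to the boundary -/
noncomputable def NH (z w : ℂ) : ℝ :=
  ‖z - w‖ ^ (5 / 24 : ℝ) * (z.im * w.im + ‖z - w‖ ^ 2) ^ (11 / 48 : ℝ)

/-- inverse kernels -/
noncomputable def Mk : Sh → ℂ → ℂ → ℝ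
  | .plane, z, w => ‖z - w‖ ^ (5 / 24 : ℝ)
  | .half, z, w => NH z w
  | .quad, z, w => NH (z ^ 2) (w ^ 2)

/-- kernels up to factors which depend on one point -/
noncomputable def gm (s : Sh) (z w : ℂ) : ℝ := (Mk s z w)⁻¹

/-- the factors -/
noncomputable def lam : Sh → ℂ → ℝ
  | .plane, _ => 1
  | .half, z => z.im ^ (11 / 48 : ℝ)
  | .quad, z => ‖2 * z‖ ^ (5 / 48 : ℝ) * (z ^ 2).im ^ (11 / 48 : ℝ)

/-- the open domains -/
def Dm : Sh → Set ℂ
  | .plane => Set.univ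
  | .half => UH
  | .quad => UQ

/-- the closed domains -/
def Cl : Sh → Set ℂ
  | .plane => Set.univ
  | .half => {z | 0 ≤ z.im}
  | .quad => {z | 0 ≤ z.re ∧ 0 ≤ z.im}

theorem NH_cont : Continuous (fun p : ℂ × ℂ => NH p.1 p.2) := by
  unfold NH
  apply Continuous.mul
  · exact (continuous_norm.comp (continuous_fst.sub continuous_snd)).rpow_const
      (fun p => Or.inr (by norm_num))
  · have : Continuous (fun p : ℂ × ℂ => p.1.im * p.2.im + ‖p.1 - p.2‖ ^ 2) := by fun_prop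
    exact this.rpow_const (fun p => Or.inr (by norm_num))

theorem Mk_cont (s : Sh) : Continuous (fun p : ℂ × ℂ => Mk s p.1 p.2) := by
  cases s
  · exact (continuous_norm.comp (continuous_fst.sub continuous_snd)).rpow_const
      (fun p => Or.inr (by norm_num))
  · exact NH_cont
  · have : Continuous (fun p : ℂ × ℂ => ((p.1 ^ 2, p.2 ^ 2) : ℂ × ℂ)) := by fun_prop
    exact NH_cont.comp this

theorem NH_self (z : ℂ) : NH z z = 0 := by
  unfold NH
  rw [sub_self, norm_zero, Real.zero_rpow (by norm_num), zero_mul]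

theorem Mk_self (s : Sh) (z : ℂ) : Mk s z z = 0 := by
  cases s
  · show ‖z - z‖ ^ (5 / 24 : ℝ) = 0
    rw [sub_self, norm_zero, Real.zero_rpow (by norm_num)]
  · exact NH_self z
  · exact NH_self _

theorem NH_pos {z w : ℂ} (h : z ≠ w) : 0 < NH z w := by
  have n0 : 0 < ‖z - w‖ := norm_pos_iff.mpr (sub_ne_zero.mpr h)
  have h1 : 0 < z.im * w.im + ‖z - w‖ ^ 2 := by
    by_contra hc
    push Not at hc
    have e : ‖z - w‖ ^ 2 = (z.re - w.re) ^ 2 + (z.im - w.im) ^ 2 := by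
      rw [← Complex.normSq_eq_norm_sq, Complex.normSq_apply, Complex.sub_re, Complex.sub_im]
      ring
    rw [e] at hc
    have a1 : z.im = 0 := by
      nlinarith [sq_nonneg (z.re - w.re), sq_nonneg (z.im - w.im), sq_nonneg z.im,
        sq_nonneg w.im]
    have a2 : w.im = 0 := by
      nlinarith [sq_nonneg (z.re - w.re), sq_nonneg (z.im - w.im), sq_nonneg z.im,
        sq_nonneg w.im]
    have a3 : z.re - w.re = 0 := by
      nlinarith [sq_nonneg (z.re - w.re), sq_nonneg (z.im - w.im), sq_nonneg z.im,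
        sq_nonneg w.im]
    exact h (Complex.ext (by linarith) (by linarith))
  unfold NH
  positivity

theorem Mk_pos (s : Sh) {z w : ℂ} (hz : z ∈ Cl s) (hw : w ∈ Cl s) (h : z ≠ w) :
    0 < Mk s z w := by
  cases s
  · exact Real.rpow_pos_of_pos (norm_pos_iff.mpr (sub_ne_zero.mpr h)) _
  · exact NH_pos h
  · refine NH_pos ?_
    intro he
    have h1 : (z - w) * (z + w) = 0 := by linear_combination he
    obtain ⟨z1, z2⟩ := hz
    obtain ⟨w1, w2⟩ := hw
    rcases mul_eq_zero.mp h1 with h2 | h2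
    · exact h (sub_eq_zero.mp h2)
    · have h3 := congrArg Complex.re h2
      have h4 := congrArg Complex.im h2
      rw [Complex.add_re, Complex.zero_re] at h3
      rw [Complex.add_im, Complex.zero_im] at h4
      exact h (Complex.ext (by linarith) (by linarith))

theorem Dm_Cl (s : Sh) : Dm s ⊆ Cl s := by
  cases s
  · exact subset_rfl
  · intro z hz
    exact le_of_lt (show 0 < z.im from hz)
  · intro z hz
    exact ⟨le_of_lt (show 0 < z.re from hz.1), le_of_lt (show 0 < z.im from hz.2)⟩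

theorem ker_gm (s : Sh) : Ker (gm s) (Cl s) := by
  refine ⟨fun z hz w hw h => inv_pos.mpr (Mk_pos s hz hw h), fun z => ?_, fun z _ w _ => ?_⟩
  · unfold gm
    rw [Mk_self, inv_zero]
  · have : (fun p : ℂ × ℂ => (gm s p.1 p.2)⁻¹) = fun p => Mk s p.1 p.2 := by
      funext p
      unfold gm
      rw [inv_inv]
    rw [this]
    exact (Mk_cont s).continuousAt

theorem gauge_H {z w : ℂ} (hz : z ∈ UH) (hw : w ∈ UH) :
    gH z w = z.im ^ (11 / 48 : ℝ) * w.im ^ (11 / 48 : ℝ) * (NH z w)⁻¹ := by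
  have z0 : 0 < z.im := hz
  have w0 : 0 < w.im := hw
  unfold gH NH
  have e1 : 1 + ‖z - w‖ ^ 2 / (z.im * w.im) = (z.im * w.im + ‖z - w‖ ^ 2) / (z.im * w.im) := by
    field_simp
  rw [e1, Real.rpow_neg (norm_nonneg _), Real.rpow_neg (by positivity),
    Real.div_rpow (by positivity) (by positivity), Real.mul_rpow z0.le w0.le]
  have p1 : 0 < (z.im * w.im + ‖z - w‖ ^ 2) ^ (11 / 48 : ℝ) := by positivity
  have p2 : 0 < z.im ^ (11 / 48 : ℝ) * w.im ^ (11 / 48 : ℝ) := by positivity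
  rw [mul_inv, inv_div]
  field_simp

theorem gauge (s : Sh) {z w : ℂ} (hz : z ∈ Dm s) (hw : w ∈ Dm s) :
    gs s z w = lam s z * lam s w * gm s z w := by
  cases s
  · show ‖z - w‖ ^ (-(5 / 24) : ℝ) = 1 * 1 * (‖z - w‖ ^ (5 / 24 : ℝ))⁻¹
    rw [Real.rpow_neg (norm_nonneg _)]
    ring
  · exact gauge_H hz hw
  · show gQ z w = (‖2 * z‖ ^ (5 / 48 : ℝ) * (z ^ 2).im ^ (11 / 48 : ℝ)) *
      (‖2 * w‖ ^ (5 / 48 : ℝ) * (w ^ 2).im ^ (11 / 48 : ℝ)) * (NH (z ^ 2) (w ^ 2))⁻¹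
    unfold gQ
    rw [gauge_H (conf_sq.2.1 hz) (conf_sq.2.1 hw)]
    ring

theorem lam_pos (s : Sh) {z : ℂ} (hz : z ∈ Dm s) : 0 < lam s z := by
  cases s
  · exact one_pos
  · have z0 : 0 < z.im := hz
    exact Real.rpow_pos_of_pos z0 _
  · have h1 : 0 < ‖2 * z‖ := norm_pos_iff.mpr (mul_ne_zero two_ne_zero (UQ_ne hz))
    have h2 : 0 < (z ^ 2).im := conf_sq.2.1 hz
    show 0 < ‖2 * z‖ ^ (5 / 48 : ℝ) * (z ^ 2).im ^ (11 / 48 : ℝ)
    positivity

theorem lam_cont (s : Sh) (z : ℂ) : ContinuousAt (lam s) z := by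
  cases s
  · exact continuousAt_const
  · have c : ContinuousAt (fun z : ℂ => z.im) z := Complex.continuous_im.continuousAt
    exact c.rpow_const (Or.inr (by norm_num))
  · have c1 : ContinuousAt (fun z : ℂ => ‖2 * z‖) z := by fun_prop
    have c2 : ContinuousAt (fun z : ℂ => (z ^ 2).im) z :=
      (Complex.continuous_im.comp (continuous_pow 2)).continuousAt
    exact (c1.rpow_const (Or.inr (by norm_num))).mul (c2.rpow_const (Or.inr (by norm_num)))

theorem cv_gauge (s : Sh) : Cv (gs s) (gm s) (lam s) id (Dm s) :=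
  ⟨Function.injective_id.injOn, fun _ hz => lam_pos s hz, fun _ hz _ hw => gauge s hz hw⟩

theorem Dm_cone (s : Sh) {e : ℝ} (he : 0 < e) (z : ℂ) : (e : ℂ) * z ∈ Dm s ↔ z ∈ Dm s := by
  cases s
  · exact ⟨fun _ => trivial, fun _ => trivial⟩
  · show 0 < ((e : ℂ) * z).im ↔ 0 < z.im
    rw [Complex.im_ofReal_mul, mul_pos_iff_of_pos_left he]
  · show (0 < ((e : ℂ) * z).re ∧ 0 < ((e : ℂ) * z).im) ↔ (0 < z.re ∧ 0 < z.im)
    rw [Complex.im_ofReal_mul, Complex.re_ofReal_mul, mul_pos_iff_of_pos_left he,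
      mul_pos_iff_of_pos_left he]

theorem Dm_vert (s : Sh) (v : ℤ × ℤ) : v ∈ dom s ↔ cx v ∈ Dm s := by
  cases s
  · exact ⟨fun _ => trivial, fun _ => trivial⟩
  · exact mod_H.vert v
  · exact mod_Q.vert v

/-! ### scaling -/

theorem gH_scale {e : ℝ} (he : 0 < e) (z w : ℂ) :
    gH z w = e ^ (5 / 24 : ℝ) * gH ((e : ℂ) * z) ((e : ℂ) * w) := by
  unfold gH
  rw [← mul_sub, norm_mul, Complex.norm_of_nonneg he.le, Complex.im_ofReal_mul,
    Complex.im_ofReal_mul, mul_pow, Real.mul_rpow he.le (norm_nonneg _)]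
  have e1 : e ^ 2 * ‖z - w‖ ^ 2 / (e * z.im * (e * w.im)) = ‖z - w‖ ^ 2 / (z.im * w.im) := by
    rw [show e * z.im * (e * w.im) = e ^ 2 * (z.im * w.im) by ring,
      mul_div_mul_left _ _ (by positivity)]
  rw [e1]
  have e2 : e ^ (5 / 24 : ℝ) * e ^ (-(5 / 24) : ℝ) = 1 := by
    rw [← Real.rpow_add he, add_neg_cancel, Real.rpow_zero]
  calc _ = (e ^ (5 / 24 : ℝ) * e ^ (-(5 / 24) : ℝ)) * (‖z - w‖ ^ (-(5 / 24) : ℝ) *
        (1 + ‖z - w‖ ^ 2 / (z.im * w.im)) ^ (-(11 / 48) : ℝ)) := by rw [e2, one_mul]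
    _ = _ := by ring

theorem gs_scale (s : Sh) {e : ℝ} (he : 0 < e) (z w : ℂ) :
    gs s z w = e ^ (5 / 24 : ℝ) * gs s ((e : ℂ) * z) ((e : ℂ) * w) := by
  cases s
  · show ‖z - w‖ ^ (-(5 / 24) : ℝ) = e ^ (5 / 24 : ℝ) * ‖(e : ℂ) * z - (e : ℂ) * w‖ ^ (-(5 / 24) : ℝ)
    rw [← mul_sub, norm_mul, Complex.norm_of_nonneg he.le, Real.mul_rpow he.le (norm_nonneg _),
      ← mul_assoc, ← Real.rpow_add he, add_neg_cancel, Real.rpow_zero, one_mul]
  · exact gH_scale he z w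
  · show gQ z w = e ^ (5 / 24 : ℝ) * gQ ((e : ℂ) * z) ((e : ℂ) * w)
    unfold gQ
    have h1 := gH_scale (e := e ^ 2) (by positivity) (z ^ 2) (w ^ 2)
    have e1 : ((e : ℂ) * z) ^ 2 = ((e ^ 2 : ℝ) : ℂ) * z ^ 2 := by push_cast; ring
    have e2 : ((e : ℂ) * w) ^ 2 = ((e ^ 2 : ℝ) : ℂ) * w ^ 2 := by push_cast; ring
    have e3 : ‖2 * ((e : ℂ) * z)‖ = e * ‖2 * z‖ := by
      rw [show (2 : ℂ) * ((e : ℂ) * z) = (e : ℂ) * (2 * z) by ring, norm_mul,
        Complex.norm_of_nonneg he.le]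
    have e4 : ‖2 * ((e : ℂ) * w)‖ = e * ‖2 * w‖ := by
      rw [show (2 : ℂ) * ((e : ℂ) * w) = (e : ℂ) * (2 * w) by ring, norm_mul,
        Complex.norm_of_nonneg he.le]
    rw [e1, e2, e3, e4, h1, Real.mul_rpow he.le (norm_nonneg _),
      Real.mul_rpow he.le (norm_nonneg _), ← Real.rpow_natCast e 2, ← Real.rpow_mul he.le]
    have e5 : e ^ (((2 : ℕ) : ℝ) * (5 / 24)) = e ^ (5 / 24 : ℝ) * (e ^ (5 / 48 : ℝ) *
        e ^ (5 / 48 : ℝ)) := by
      rw [← Real.rpow_add he, ← Real.rpow_add he]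
      norm_num
    rw [e5]
    ring

theorem cv_scale (s : Sh) {e : ℝ} (he : 0 < e) (S : Set ℂ) :
    Cv (gs s) (gs s) (fun _ => e ^ (5 / 48 : ℝ)) (fun z => (e : ℂ) * z) S := by
  have he' : (e : ℂ) ≠ 0 := by exact_mod_cast he.ne'
  refine ⟨fun z _ w _ h => mul_left_cancel₀ he' h, fun _ _ => by positivity, ?_⟩
  intro z _ w _
  rw [← Real.rpow_add he]
  have := gs_scale s he z w
  norm_num at this ⊢
  exact this

/-! ### conformal maps -/

theorem cv_conf {D D' : Set ℂ} {V V' : Set (ℤ × ℤ)} {g g' : ℂ → ℂ → ℝ} {u u' : ℂ → ℂ}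
    (h : Mod D V g u) (h' : Mod D' V' g' u') {φ : ℂ → ℂ} (hφ : Conf D D' φ) :
    Cv g g' (fun z => ‖deriv φ z‖ ^ (5 / 48 : ℝ)) φ D := by
  refine ⟨?_, ?_, ?_⟩
  · intro z hz w hw hzw
    obtain ⟨-, -, ψ, -, -, h5, -⟩ := hφ
    rw [← h5 z hz, hzw, h5 w hw]
  · intro z hz
    have := hφ.deriv_ne h.isOpen h'.isOpen hz
    have := norm_pos_iff.mpr this
    positivity
  · intro z hz w hw
    rw [← h.eq, ← h'.eq]
    exact pull_conf h.isOpen h'.isOpen h.conf h'.conf hφ hz hw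

/-- a Möbius transformation -/
noncomputable def mob (α β γ δ : ℂ) (z : ℂ) : ℂ := (α * z + β) / (γ * z + δ)

theorem mob_deriv {α β γ δ z : ℂ} (hz : γ * z + δ ≠ 0) :
    deriv (mob α β γ δ) z = (α * δ - β * γ) / (γ * z + δ) ^ 2 := by
  have h1 : HasDerivAt (fun z : ℂ => α * z + β) α z := by
    simpa using ((hasDerivAt_id z).const_mul α).add_const β
  have h2 : HasDerivAt (fun z : ℂ => γ * z + δ) γ z := by
    simpa using ((hasDerivAt_id z).const_mul γ).add_const δ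
  have h3 := h1.div h2 hz
  have e : deriv (mob α β γ δ) z = (α * (γ * z + δ) - (α * z + β) * γ) / (γ * z + δ) ^ 2 :=
    h3.deriv
  rw [e]
  congr 1
  ring

theorem cv_mob {α β γ δ : ℂ} (hd : α * δ - β * γ ≠ 0) :
    Cv (gs .plane) (gs .plane) (fun z => ‖deriv (mob α β γ δ) z‖ ^ (5 / 48 : ℝ)) (mob α β γ δ)
      {z | γ * z + δ ≠ 0} := by
  have key : ∀ z w : ℂ, γ * z + δ ≠ 0 → γ * w + δ ≠ 0 → mob α β γ δ z - mob α β γ δ w =
      (α * δ - β * γ) * (z - w) / ((γ * z + δ) * (γ * w + δ)) := by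
    intro z w hz hw
    unfold mob
    rw [div_sub_div _ _ hz hw]
    congr 1
    ring
  refine ⟨?_, ?_, ?_⟩
  · intro z hz w hw hzw
    have h1 := key z w hz hw
    rw [hzw, sub_self, eq_comm, div_eq_zero_iff] at h1
    rcases h1 with h1 | h1
    · rcases mul_eq_zero.mp h1 with h2 | h2
      · exact absurd h2 hd
      · exact sub_eq_zero.mp h2
    · rcases mul_eq_zero.mp h1 with h2 | h2
      · exact absurd h2 hz
      · exact absurd h2 hw
  · intro z hz
    have hz' : γ * z + δ ≠ 0 := hz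
    show 0 < ‖deriv (mob α β γ δ) z‖ ^ (5 / 48 : ℝ)
    rw [mob_deriv hz']
    apply Real.rpow_pos_of_pos
    rw [norm_pos_iff]
    exact div_ne_zero hd (pow_ne_zero 2 hz')
  · intro z hz w hw
    have hz' : γ * z + δ ≠ 0 := hz
    have hw' : γ * w + δ ≠ 0 := hw
    show ‖z - w‖ ^ (-(5 / 24) : ℝ) = ‖deriv (mob α β γ δ) z‖ ^ (5 / 48 : ℝ) *
      ‖deriv (mob α β γ δ) w‖ ^ (5 / 48 : ℝ) *
      ‖mob α β γ δ z - mob α β γ δ w‖ ^ (-(5 / 24) : ℝ)
    rw [mob_deriv hz', mob_deriv hw', key z w hz' hw', norm_div, norm_div, norm_div, norm_mul,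
      norm_mul, norm_pow, norm_pow]
    have a1 : 0 < ‖α * δ - β * γ‖ := norm_pos_iff.mpr hd
    have a2 : 0 < ‖γ * z + δ‖ := norm_pos_iff.mpr hz'
    have a3 : 0 < ‖γ * w + δ‖ := norm_pos_iff.mpr hw'
    have a4 : 0 ≤ ‖z - w‖ := norm_nonneg _
    generalize ‖α * δ - β * γ‖ = N at *
    generalize ‖γ * z + δ‖ = p at *
    generalize ‖γ * w + δ‖ = q at *
    generalize ‖z - w‖ = t at *
    rw [← Real.mul_rpow (by positivity) (by positivity)]
    have e1 : N / p ^ 2 * (N / q ^ 2) = (N / (p * q)) ^ 2 := by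
      field_simp
    rw [e1, ← Real.rpow_natCast (N / (p * q)) 2, ← Real.rpow_mul (by positivity)]
    have e2 : N * t / (p * q) = N / (p * q) * t := by ring
    rw [e2, Real.mul_rpow (by positivity) a4, ← mul_assoc, ← Real.rpow_add (by positivity)]
    norm_num

/-! ### covariance up to the boundary -/

theorem contM (s : Sh) {X : Type*} [TopologicalSpace X] {a b : X → ℂ} {T : Set X}
    (ha : ContinuousOn a T) (hb : ContinuousOn b T) :
    ContinuousOn (fun x => Mk s (a x) (b x)) T :=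
  (Mk_cont s).comp_continuousOn (ha.prodMk hb)

/-- the factors for the kernels `gm` -/
noncomputable def jf (s s' : Sh) (J : ℂ → ℝ) (φ : ℂ → ℂ) (z : ℂ) : ℝ :=
  J z * lam s' (φ z) / lam s z

section
variable {s s' : Sh} {O S : Set ℂ} {φ : ℂ → ℂ} {J : ℂ → ℝ}

theorem jf_pos (h : Cv (gs s) (gs s') J φ O) (hO : O ⊆ Dm s) (hO' : MapsTo φ O (Dm s')) {z : ℂ}
    (hz : z ∈ O) : 0 < jf s s' J φ z := by
  have h1 := h.pos z hz
  have h2 := lam_pos s (hO hz)
  have h3 := lam_pos s' (hO' hz)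
  unfold jf
  positivity

theorem basic (h : Cv (gs s) (gs s') J φ O) (hO : O ⊆ Dm s) (hO' : MapsTo φ O (Dm s')) {z w : ℂ}
    (hz : z ∈ O) (hw : w ∈ O) :
    Mk s z w * (jf s s' J φ z * jf s s' J φ w) = Mk s' (φ z) (φ w) := by
  by_cases hzw : z = w
  · rw [hzw, Mk_self, Mk_self, zero_mul]
  have h1 := h.eq z hz w hw
  rw [gauge s (hO hz) (hO hw), gauge s' (hO' hz) (hO' hw)] at h1
  have p1 := Mk_pos s (Dm_Cl s (hO hz)) (Dm_Cl s (hO hw)) hzw
  have p2 := Mk_pos s' (Dm_Cl s' (hO' hz)) (Dm_Cl s' (hO' hw))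
    (fun he => hzw (h.inj hz hw he))
  have p3 := lam_pos s (hO hz)
  have p4 := lam_pos s (hO hw)
  unfold gm at h1
  unfold jf
  generalize Mk s z w = m at *
  generalize Mk s' (φ z) (φ w) = m' at *
  generalize lam s z = l1 at *
  generalize lam s w = l2 at *
  generalize lam s' (φ z) = l3 at *
  generalize lam s' (φ w) = l4 at *
  generalize J z = j1 at *
  generalize J w = j2 at *
  field_simp at h1 ⊢
  linarith

theorem four (h : Cv (gs s) (gs s') J φ O) (hO : O ⊆ Dm s) (hO' : MapsTo φ O (Dm s'))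
    (hOS : O ⊆ S) (hSO : S ⊆ closure O) (hφ : ContinuousOn φ S) {z z' w w' : ℂ} (hz : z ∈ S)
    (hz' : z' ∈ S) (hw : w ∈ S) (hw' : w' ∈ S) :
    Mk s z z' * Mk s w w' * (Mk s' (φ z) (φ w) * Mk s' (φ z') (φ w')) =
      Mk s' (φ z) (φ z') * Mk s' (φ w) (φ w') * (Mk s z w * Mk s z' w') := by
  set T : Set ((ℂ × ℂ) × (ℂ × ℂ)) := (S ×ˢ S) ×ˢ (S ×ˢ S) with hT
  set T0 : Set ((ℂ × ℂ) × (ℂ × ℂ)) := (O ×ˢ O) ×ˢ (O ×ˢ O) with hT0
  have m1 : ContinuousOn (fun p : (ℂ × ℂ) × (ℂ × ℂ) => p.1.1) T := by fun_prop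
  have m2 : ContinuousOn (fun p : (ℂ × ℂ) × (ℂ × ℂ) => p.1.2) T := by fun_prop
  have m3 : ContinuousOn (fun p : (ℂ × ℂ) × (ℂ × ℂ) => p.2.1) T := by fun_prop
  have m4 : ContinuousOn (fun p : (ℂ × ℂ) × (ℂ × ℂ) => p.2.2) T := by fun_prop
  have n1 : ContinuousOn (fun p : (ℂ × ℂ) × (ℂ × ℂ) => φ p.1.1) T :=
    hφ.comp m1 (fun p hp => hp.1.1)
  have n2 : ContinuousOn (fun p : (ℂ × ℂ) × (ℂ × ℂ) => φ p.1.2) T :=
    hφ.comp m2 (fun p hp => hp.1.2)
  have n3 : ContinuousOn (fun p : (ℂ × ℂ) × (ℂ × ℂ) => φ p.2.1) T :=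
    hφ.comp m3 (fun p hp => hp.2.1)
  have n4 : ContinuousOn (fun p : (ℂ × ℂ) × (ℂ × ℂ) => φ p.2.2) T :=
    hφ.comp m4 (fun p hp => hp.2.2)
  have key : Set.EqOn (fun p : (ℂ × ℂ) × (ℂ × ℂ) => Mk s p.1.1 p.1.2 * Mk s p.2.1 p.2.2 *
      (Mk s' (φ p.1.1) (φ p.2.1) * Mk s' (φ p.1.2) (φ p.2.2)))
      (fun p => Mk s' (φ p.1.1) (φ p.1.2) * Mk s' (φ p.2.1) (φ p.2.2) *
        (Mk s p.1.1 p.2.1 * Mk s p.1.2 p.2.2)) T := by
    apply Set.EqOn.of_subset_closure (s := T0)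
    · rintro ⟨⟨z, z'⟩, ⟨w, w'⟩⟩ ⟨⟨hz, hz'⟩, ⟨hw, hw'⟩⟩
      show Mk s z z' * Mk s w w' * (Mk s' (φ z) (φ w) * Mk s' (φ z') (φ w')) =
        Mk s' (φ z) (φ z') * Mk s' (φ w) (φ w') * (Mk s z w * Mk s z' w')
      rw [← basic h hO hO' hz hw, ← basic h hO hO' hz' hw', ← basic h hO hO' hz hz',
        ← basic h hO hO' hw hw']
      ring
    · exact ((contM s m1 m2).mul (contM s m3 m4)).mul ((contM s' n1 n3).mul (contM s' n2 n4))
    · exact ((contM s' n1 n2).mul (contM s' n3 n4)).mul ((contM s m1 m3).mul (contM s m2 m4))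
    · exact Set.prod_mono (Set.prod_mono hOS hOS) (Set.prod_mono hOS hOS)
    · rw [hT, hT0, closure_prod_eq, closure_prod_eq]
      exact Set.prod_mono (Set.prod_mono hSO hSO) (Set.prod_mono hSO hSO)
  exact key (show (((z, z'), (w, w')) : (ℂ × ℂ) × (ℂ × ℂ)) ∈ T from ⟨⟨hz, hz'⟩, ⟨hw, hw'⟩⟩)

theorem three' (h : Cv (gs s) (gs s') J φ O) (hO : O ⊆ Dm s) (hO' : MapsTo φ O (Dm s'))
    (hOS : O ⊆ S) (hSO : S ⊆ closure O) (hφ : ContinuousOn φ S) {z w w' : ℂ} (hz : z ∈ O)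
    (hw : w ∈ S) (hw' : w' ∈ S) :
    Mk s w w' * (Mk s' (φ z) (φ w) * Mk s' (φ z) (φ w')) =
      (jf s s' J φ z) ^ 2 * Mk s' (φ w) (φ w') * (Mk s z w * Mk s z w') := by
  have m1 : ContinuousOn (fun p : ℂ × ℂ => p.1) (S ×ˢ S) := by fun_prop
  have m2 : ContinuousOn (fun p : ℂ × ℂ => p.2) (S ×ˢ S) := by fun_prop
  have n1 : ContinuousOn (fun p : ℂ × ℂ => φ p.1) (S ×ˢ S) := hφ.comp m1 (fun p hp => hp.1)
  have n2 : ContinuousOn (fun p : ℂ × ℂ => φ p.2) (S ×ˢ S) := hφ.comp m2 (fun p hp => hp.2)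
  have cc : ContinuousOn (fun _ : ℂ × ℂ => z) (S ×ˢ S) := continuousOn_const
  have cc' : ContinuousOn (fun _ : ℂ × ℂ => φ z) (S ×ˢ S) := continuousOn_const
  have key : Set.EqOn (fun p : ℂ × ℂ => Mk s p.1 p.2 *
      (Mk s' (φ z) (φ p.1) * Mk s' (φ z) (φ p.2)))
      (fun p => (jf s s' J φ z) ^ 2 * Mk s' (φ p.1) (φ p.2) * (Mk s z p.1 * Mk s z p.2))
      (S ×ˢ S) := by
    apply Set.EqOn.of_subset_closure (s := O ×ˢ O)
    · rintro ⟨w, w'⟩ ⟨hw, hw'⟩
      show Mk s w w' * (Mk s' (φ z) (φ w) * Mk s' (φ z) (φ w')) =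
        (jf s s' J φ z) ^ 2 * Mk s' (φ w) (φ w') * (Mk s z w * Mk s z w')
      rw [← basic h hO hO' hz hw, ← basic h hO hO' hz hw', ← basic h hO hO' hw hw']
      ring
    · exact (contM s m1 m2).mul ((contM s' cc' n1).mul (contM s' cc' n2))
    · exact (continuousOn_const.mul (contM s' n1 n2)).mul ((contM s cc m1).mul (contM s cc m2))
    · exact Set.prod_mono hOS hOS
    · rw [closure_prod_eq]
      exact Set.prod_mono hSO hSO
  exact key (show ((w, w') : ℂ × ℂ) ∈ S ×ˢ S from ⟨hw, hw'⟩)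

theorem Mk_symm (s : Sh) (z w : ℂ) : Mk s z w = Mk s w z := by
  have : ∀ z w : ℂ, NH z w = NH w z := by
    intro z w
    unfold NH
    rw [norm_sub_rev, mul_comm z.im]
  cases s
  · show ‖z - w‖ ^ (5 / 24 : ℝ) = ‖w - z‖ ^ (5 / 24 : ℝ)
    rw [norm_sub_rev]
  · exact this _ _
  · exact this _ _

/-- **Covariance of the four-point ratios, up to the boundary.** -/
theorem cw_bdry (h : Cv (gs s) (gs s') J φ O) (hO : O ⊆ Dm s) (hO' : MapsTo φ O (Dm s'))
    (hOS : O ⊆ S) (hSO : S ⊆ closure O) (hSC : S ⊆ Cl s) (hφ : ContinuousOn φ S)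
    (hi : Set.InjOn φ S) (hC' : MapsTo φ S (Cl s')) :
    Cw (gm s) (gm s') (jf s s' J φ) φ S O := by
  refine ⟨hi, fun z hz => jf_pos h hO hO' hz, ?_⟩
  intro A B hA hB sA sB hd c c' hc hc' z hz z' hz' w hw w' hw'
  have ne1 : z ≠ w := fun e => Set.disjoint_left.mp hd hz (e ▸ hw)
  have ne2 : z' ≠ w' := fun e => Set.disjoint_left.mp hd hz' (e ▸ hw')
  have p1 := Mk_pos s (hSC (hA hz)) (hSC (hB hw)) ne1
  have p2 := Mk_pos s (hSC (hA hz')) (hSC (hB hw')) ne2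
  have p3 := Mk_pos s' (hC' (hA hz)) (hC' (hB hw)) (fun e => ne1 (hi (hA hz) (hB hw) e))
  have p4 := Mk_pos s' (hC' (hA hz')) (hC' (hB hw')) (fun e => ne2 (hi (hA hz') (hB hw') e))
  have i1 : (φ '' A).Subsingleton ↔ A.Subsingleton := sub_image (hi.mono hA)
  have i2 : (φ '' B).Subsingleton ↔ B.Subsingleton := sub_image (hi.mono hB)
  unfold rt4 gd
  by_cases hsA : A.Subsingleton
  · have ez : z' = z := hsA hz' hz
    subst ez
    have hcA := hc.1 hsA z' hz'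
    have hzO := sA hsA hz'
    have jp := jf_pos h hO hO' hzO
    rw [if_pos hsA, if_pos (i1.mpr hsA)]
    by_cases hsB : B.Subsingleton
    · have ew : w' = w := hsB hw' hw
      subst ew
      have hcB := hc'.1 hsB w' hw'
      have hwO := sB hsB hw'
      have jq := jf_pos h hO hO' hwO
      rw [if_pos hsB, if_pos (i2.mpr hsB), ← hcA, ← hcB]
      have b := basic h hO hO' hzO hwO
      unfold gm
      rw [← b]
      generalize Mk s z' w' = m at *
      generalize jf s s' J φ z' = j1 at *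
      generalize jf s s' J φ w' = j2 at *
      have e1 : m⁻¹ * m⁻¹ / (1 * 1) = (j1 * j2) ^ 2 *
          ((m * (j1 * j2))⁻¹ * (m * (j1 * j2))⁻¹ / (1 * 1)) := by
        field_simp
      rw [e1, Real.sqrt_mul (by positivity), Real.sqrt_sq (by positivity)]
    · have hcB := hc'.2 hsB
      rw [if_neg hsB, if_neg (fun h => hsB (i2.mp h)), ← hcA, hcB, mul_one]
      have b := three' h hO hO' hOS hSO hφ hzO (hB hw) (hB hw')
      unfold gm
      generalize Mk s z' w = m1 at *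
      generalize Mk s z' w' = m2 at *
      generalize Mk s' (φ z') (φ w) = m3 at *
      generalize Mk s' (φ z') (φ w') = m4 at *
      generalize Mk s w w' = m5 at *
      generalize Mk s' (φ w) (φ w') = m6 at *
      generalize jf s s' J φ z' = j1 at *
      have e1 : m1⁻¹ * m2⁻¹ / (1 * m5⁻¹) = j1 ^ 2 * (m3⁻¹ * m4⁻¹ / (1 * m6⁻¹)) := by
        rw [one_mul, one_mul, div_inv_eq_mul, div_inv_eq_mul]
        field_simp
        linarith
      rw [e1, Real.sqrt_mul (by positivity), Real.sqrt_sq jp.le]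
  · have hcA := hc.2 hsA
    rw [if_neg hsA, if_neg (fun h => hsA (i1.mp h)), hcA, one_mul]
    by_cases hsB : B.Subsingleton
    · have ew : w' = w := hsB hw' hw
      subst ew
      have hcB := hc'.1 hsB w' hw'
      have hwO := sB hsB hw'
      have jq := jf_pos h hO hO' hwO
      rw [if_pos hsB, if_pos (i2.mpr hsB), ← hcB]
      have b := three' h hO hO' hOS hSO hφ hwO (hA hz) (hA hz')
      rw [Mk_symm s w' z, Mk_symm s w' z', Mk_symm s' (φ w') (φ z), Mk_symm s' (φ w') (φ z')] at b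
      unfold gm
      generalize Mk s z w' = m1 at *
      generalize Mk s z' w' = m2 at *
      generalize Mk s' (φ z) (φ w') = m3 at *
      generalize Mk s' (φ z') (φ w') = m4 at *
      generalize Mk s z z' = m5 at *
      generalize Mk s' (φ z) (φ z') = m6 at *
      generalize jf s s' J φ w' = j1 at *
      have e1 : m1⁻¹ * m2⁻¹ / (m5⁻¹ * 1) = j1 ^ 2 * (m3⁻¹ * m4⁻¹ / (m6⁻¹ * 1)) := by
        rw [mul_one, mul_one, div_inv_eq_mul, div_inv_eq_mul]
        field_simp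
        linarith
      rw [e1, Real.sqrt_mul (by positivity), Real.sqrt_sq jq.le]
    · have hcB := hc'.2 hsB
      rw [if_neg hsB, if_neg (fun h => hsB (i2.mp h)), hcB, one_mul]
      have b := four h hO hO' hOS hSO hφ (hA hz) (hA hz') (hB hw) (hB hw')
      unfold gm
      generalize Mk s z w = m1 at *
      generalize Mk s z' w' = m2 at *
      generalize Mk s' (φ z) (φ w) = m3 at *
      generalize Mk s' (φ z') (φ w') = m4 at *
      generalize Mk s z z' = m5 at *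
      generalize Mk s' (φ z) (φ z') = m6 at *
      generalize Mk s w w' = m7 at *
      generalize Mk s' (φ w) (φ w') = m8 at *
      congr 1
      rw [← mul_inv m5, ← mul_inv m6, div_inv_eq_mul, div_inv_eq_mul]
      field_simp
      linarith

end

end H67CS
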