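import Pool.Agent.H67CS.Cov

/-!
The functional of approximating sets.
-/

set_option autoImplicit false

namespace H67CS
open TH976 Filter Topology Set

/-- regular kernels -/
structure Ker (g : ℂ → ℂ → ℝ) (O : Set ℂ) : Prop where
  pos : ∀ z ∈ O, ∀ w ∈ O, z ≠ w → 0 < g z w
  self : ∀ z, g z z = 0
  cont : ∀ z ∈ O, ∀ w ∈ O, ContinuousAt (fun p : ℂ × ℂ => (g p.1 p.2)⁻¹) (z, w)

/-- `X` approximates `A` -/
def Close (δ : ℝ) (A X : Set ℂ) : Prop :=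
  (∀ x ∈ X, ∃ z ∈ A, ‖x - z‖ < δ) ∧ (∀ z ∈ A, ∃ x ∈ X, ‖x - z‖ < δ) ∧
    (A.Subsingleton ↔ X.Subsingleton)

theorem Close.mono {δ δ' : ℝ} {A X : Set ℂ} (h : Close δ A X) (hd : δ ≤ δ') : Close δ' A X := by
  refine ⟨fun x hx => ?_, fun z hz => ?_, h.2.2⟩
  · obtain ⟨z, hz, h1⟩ := h.1 x hx
    exact ⟨z, hz, h1.trans_le hd⟩
  · obtain ⟨x, hx, h1⟩ := h.2.1 z hz
    exact ⟨x, hx, h1.trans_le hd⟩

section
variable {g : ℂ → ℂ → ℝ} {O : Set ℂ}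

theorem Ker.contAt (h : Ker g O) {z w : ℂ} (hz : z ∈ O) (hw : w ∈ O) :
    ContinuousAt (fun p : ℂ × ℂ => (g p.1 p.2)⁻¹) (z, w) :=
  h.cont z hz w hw

theorem Ker.contAt' (h : Ker g O) {z w : ℂ} (hz : z ∈ O) (hw : w ∈ O) (hne : z ≠ w) :
    ContinuousAt (fun p : ℂ × ℂ => g p.1 p.2) (z, w) := by
  have h1 := (h.contAt hz hw).inv₀ (inv_ne_zero (h.pos z hz w hw hne).ne')
  refine h1.congr (Eventually.of_forall ?_)
  intro p
  exact inv_inv _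

theorem Ker.gdAt (h : Ker g O) (A : Set ℂ) {z w : ℂ} (hz : z ∈ O) (hw : w ∈ O) :
    ContinuousAt (fun p : ℂ × ℂ => (gd g A p.1 p.2)⁻¹) (z, w) := by
  unfold gd
  by_cases hs : A.Subsingleton
  · simp only [hs, if_true]
    exact continuousAt_const
  · simp only [hs, if_false]
    exact h.contAt hz hw

/-- the four-point ratio as a function on a product space -/
noncomputable def fr (g : ℂ → ℂ → ℝ) (A B : Set ℂ) (p : (ℂ × ℂ) × (ℂ × ℂ)) : ℝ :=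
  rt4 g A B p.1.1 p.1.2 p.2.1 p.2.2

theorem Ker.frAt (h : Ker g O) {A B : Set ℂ} (hA : A ⊆ O) (hB : B ⊆ O) (hd : Disjoint A B)
    {p : (ℂ × ℂ) × (ℂ × ℂ)} (hp : p ∈ (A ×ˢ A) ×ˢ (B ×ˢ B)) : ContinuousAt (fr g A B) p := by
  obtain ⟨⟨z, z'⟩, ⟨w, w'⟩⟩ := p
  obtain ⟨⟨hz, hz'⟩, ⟨hw, hw'⟩⟩ := hp
  simp only at hz hz' hw hw'
  have ne1 : z ≠ w := fun e => Set.disjoint_left.mp hd hz (e ▸ hw)
  have ne2 : z' ≠ w' := fun e => Set.disjoint_left.mp hd hz' (e ▸ hw')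
  have c1 : ContinuousAt (fun p : (ℂ × ℂ) × (ℂ × ℂ) => g p.1.1 p.2.1) ((z, z'), (w, w')) :=
    ContinuousAt.comp (g := fun q : ℂ × ℂ => g q.1 q.2)
      (f := fun p : (ℂ × ℂ) × (ℂ × ℂ) => (p.1.1, p.2.1)) (h.contAt' (hA hz) (hB hw) ne1)
      (by fun_prop)
  have c2 : ContinuousAt (fun p : (ℂ × ℂ) × (ℂ × ℂ) => g p.1.2 p.2.2) ((z, z'), (w, w')) :=
    ContinuousAt.comp (g := fun q : ℂ × ℂ => g q.1 q.2)
      (f := fun p : (ℂ × ℂ) × (ℂ × ℂ) => (p.1.2, p.2.2)) (h.contAt' (hA hz') (hB hw') ne2)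
      (by fun_prop)
  have c3 : ContinuousAt (fun p : (ℂ × ℂ) × (ℂ × ℂ) => (gd g A p.1.1 p.1.2)⁻¹)
      ((z, z'), (w, w')) :=
    ContinuousAt.comp (g := fun q : ℂ × ℂ => (gd g A q.1 q.2)⁻¹)
      (f := fun p : (ℂ × ℂ) × (ℂ × ℂ) => (p.1.1, p.1.2)) (h.gdAt A (hA hz) (hA hz'))
      (by fun_prop)
  have c4 : ContinuousAt (fun p : (ℂ × ℂ) × (ℂ × ℂ) => (gd g B p.2.1 p.2.2)⁻¹)
      ((z, z'), (w, w')) :=
    ContinuousAt.comp (g := fun q : ℂ × ℂ => (gd g B q.1 q.2)⁻¹)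
      (f := fun p : (ℂ × ℂ) × (ℂ × ℂ) => (p.2.1, p.2.2)) (h.gdAt B (hB hw) (hB hw'))
      (by fun_prop)
  have e : fr g A B = fun p : (ℂ × ℂ) × (ℂ × ℂ) => Real.sqrt (g p.1.1 p.2.1 * g p.1.2 p.2.2 *
      ((gd g A p.1.1 p.1.2)⁻¹ * (gd g B p.2.1 p.2.2)⁻¹)) := by
    funext p
    unfold fr rt4
    rw [← mul_inv, div_eq_mul_inv]
  rw [e]
  exact ((c1.mul c2).mul (c3.mul c4)).sqrt

theorem exists_pair {A : Set ℂ} (hA : A.Nonempty) :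
    ∃ z ∈ A, ∃ z' ∈ A, (z = z' → A.Subsingleton) := by
  by_cases hs : A.Subsingleton
  · obtain ⟨z, hz⟩ := hA
    exact ⟨z, hz, z, hz, fun _ => hs⟩
  · rw [Set.not_subsingleton_iff] at hs
    obtain ⟨z, hz, z', hz', hne⟩ := hs
    exact ⟨z, hz, z', hz', fun e => absurd e hne⟩

theorem gd_pos (h : Ker g O) {A : Set ℂ} (hA : A ⊆ O) {z z' : ℂ} (hz : z ∈ A) (hz' : z' ∈ A)
    (hs : z = z' → A.Subsingleton) : 0 < gd g A z z' := by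
  unfold gd
  by_cases hA' : A.Subsingleton
  · rw [if_pos hA']
    exact one_pos
  · rw [if_neg hA']
    exact h.pos z (hA hz) z' (hA hz') (fun e => hA' (hs e))

theorem gd_congr {A X : Set ℂ} (hA : A.Subsingleton ↔ X.Subsingleton) (z z' : ℂ) :
    gd g X z z' = gd g A z z' := by
  unfold gd
  by_cases h : A.Subsingleton
  · rw [if_pos h, if_pos (hA.mp h)]
  · rw [if_neg h, if_neg (fun h2 => h (hA.mpr h2))]

theorem rt4_congr {A B X Y : Set ℂ} (hA : A.Subsingleton ↔ X.Subsingleton)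
    (hB : B.Subsingleton ↔ Y.Subsingleton) (z z' w w' : ℂ) :
    rt4 g X Y z z' w w' = rt4 g A B z z' w w' := by
  unfold rt4
  rw [gd_congr hA, gd_congr hB]

/-- **Approximation of the functional.** -/
theorem near_Th (h : Ker g O) {A B : Set ℂ} (hA : A ⊆ O) (hB : B ⊆ O) (hd : Disjoint A B)
    (cA : IsCompact A) (cB : IsCompact B) (nA : A.Nonempty) (nB : B.Nonempty) :
    ∀ᶠ δ : ℝ in 𝓝[>] 0, ∀ X Y : Set ℂ, Close δ A X → Close δ B Y →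
      Cmp 2 (Th g X Y) (Th g A B) := by
  set S : Set ((ℂ × ℂ) × (ℂ × ℂ)) := (A ×ˢ A) ×ˢ (B ×ˢ B) with hS
  have cS : IsCompact S := (cA.prod cA).prod (cB.prod cB)
  have nS : S.Nonempty := (nA.prod nA).prod (nB.prod nB)
  have ff : ∀ p ∈ S, ContinuousAt (fr g A B) p := fun p hp => h.frAt hA hB hd hp
  obtain ⟨p0, hp0, hmax⟩ := cS.exists_isMaxOn nS
    (fun p hp => (ff p hp).continuousWithinAt)
  set M := fr g A B p0 with hM
  have hle : ∀ p ∈ S, fr g A B p ≤ M := fun p hp => hmax hp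
  have hM0 : 0 < M := by
    obtain ⟨z, hz, z', hz', hs⟩ := exists_pair nA
    obtain ⟨w, hw, w', hw', hs'⟩ := exists_pair nB
    refine lt_of_lt_of_le ?_ (hle ((z, z'), (w, w')) ⟨⟨hz, hz'⟩, ⟨hw, hw'⟩⟩)
    have q1 := gd_pos h hA hz hz' hs
    have q2 := gd_pos h hB hw hw' hs'
    have q3 := h.pos z (hA hz) w (hB hw) (fun e => Set.disjoint_left.mp hd hz (e ▸ hw))
    have q4 := h.pos z' (hA hz') w' (hB hw') (fun e => Set.disjoint_left.mp hd hz' (e ▸ hw'))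
    show 0 < Real.sqrt (g z w * g z' w' / (gd g A z z' * gd g B w w'))
    exact Real.sqrt_pos.mpr (by positivity)
  have hthA : th g A B = M := by
    have : Nonempty ((A × A) × (B × B)) := by
      obtain ⟨z, hz⟩ := nA
      obtain ⟨w, hw⟩ := nB
      exact ⟨((⟨z, hz⟩, ⟨z, hz⟩), (⟨w, hw⟩, ⟨w, hw⟩))⟩
    apply le_antisymm
    · apply ciSup_le
      rintro ⟨⟨⟨z, hz⟩, ⟨z', hz'⟩⟩, ⟨⟨w, hw⟩, ⟨w', hw'⟩⟩⟩
      exact hle ((z, z'), (w, w')) ⟨⟨hz, hz'⟩, ⟨hw, hw'⟩⟩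
    · have hb : BddAbove (Set.range (fun p : (A × A) × (B × B) =>
          rt4 g A B p.1.1 p.1.2 p.2.1 p.2.2)) := by
        refine ⟨M, ?_⟩
        rintro _ ⟨⟨⟨⟨z, hz⟩, ⟨z', hz'⟩⟩, ⟨⟨w, hw⟩, ⟨w', hw'⟩⟩⟩, rfl⟩
        exact hle ((z, z'), (w, w')) ⟨⟨hz, hz'⟩, ⟨hw, hw'⟩⟩
      exact le_ciSup hb (((⟨p0.1.1, hp0.1.1⟩, ⟨p0.1.2, hp0.1.2⟩),
        (⟨p0.2.1, hp0.2.1⟩, ⟨p0.2.2, hp0.2.2⟩)) : (A × A) × (B × B))
  have hu := cS.uniformContinuousAt_of_continuousAt (fr g A B) ff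
    (Metric.dist_mem_uniformity (half_pos hM0))
  obtain ⟨δ, hδ, hδ'⟩ := Metric.mem_uniformity_dist.mp hu
  have key : ∀ p ∈ S, ∀ q, dist p q < δ → |fr g A B p - fr g A B q| < M / 2 := by
    intro p hp q hpq
    exact hδ' hpq hp
  filter_upwards [Ioo_mem_nhdsGT hδ] with δ' hδ2 X Y hX hY
  replace hX := hX.mono hδ2.2.le
  replace hY := hY.mono hδ2.2.le
  have nX : X.Nonempty := by
    obtain ⟨z, hz⟩ := nA
    obtain ⟨x, hx, -⟩ := hX.2.1 z hz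
    exact ⟨x, hx⟩
  have nY : Y.Nonempty := by
    obtain ⟨z, hz⟩ := nB
    obtain ⟨x, hx, -⟩ := hY.2.1 z hz
    exact ⟨x, hx⟩
  have hdist : ∀ z z' w w' a a' b b' : ℂ, ‖z - a‖ < δ → ‖z' - a'‖ < δ → ‖w - b‖ < δ →
      ‖w' - b'‖ < δ → dist (((a, a'), (b, b')) : (ℂ × ℂ) × (ℂ × ℂ)) ((z, z'), (w, w')) < δ := by
    intro z z' w w' a a' b b' h1 h2 h3 h4
    rw [Prod.dist_eq, Prod.dist_eq, Prod.dist_eq, max_lt_iff, max_lt_iff, max_lt_iff]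
    simp only [dist_eq_norm]
    refine ⟨⟨?_, ?_⟩, ?_, ?_⟩
    · rw [norm_sub_rev]; exact h1
    · rw [norm_sub_rev]; exact h2
    · rw [norm_sub_rev]; exact h3
    · rw [norm_sub_rev]; exact h4
  have up : ∀ z ∈ X, ∀ z' ∈ X, ∀ w ∈ Y, ∀ w' ∈ Y, rt4 g X Y z z' w w' ≤ 3 / 2 * M := by
    intro z hz z' hz' w hw w' hw'
    obtain ⟨a, ha, h1⟩ := hX.1 z hz
    obtain ⟨a', ha', h2⟩ := hX.1 z' hz'
    obtain ⟨b, hb, h3⟩ := hY.1 w hw
    obtain ⟨b', hb', h4⟩ := hY.1 w' hw'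
    have hpS : (((a, a'), (b, b')) : (ℂ × ℂ) × (ℂ × ℂ)) ∈ S := ⟨⟨ha, ha'⟩, ⟨hb, hb'⟩⟩
    have h5 := key _ hpS _ (hdist z z' w w' a a' b b' h1 h2 h3 h4)
    have h6 := hle _ hpS
    rw [abs_lt] at h5
    rw [rt4_congr hX.2.2 hY.2.2]
    have h7 : fr g A B ((z, z'), (w, w')) = rt4 g A B z z' w w' := rfl
    rw [← h7]
    linarith [h5.1]
  have hbX : BddAbove (Set.range (fun p : (X × X) × (Y × Y) =>
      rt4 g X Y p.1.1 p.1.2 p.2.1 p.2.2)) := by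
    refine ⟨3 / 2 * M, ?_⟩
    rintro _ ⟨⟨⟨⟨z, hz⟩, ⟨z', hz'⟩⟩, ⟨⟨w, hw⟩, ⟨w', hw'⟩⟩⟩, rfl⟩
    exact up z hz z' hz' w hw w' hw'
  have hU : th g X Y ≤ 3 / 2 * M := by
    have : Nonempty ((X × X) × (Y × Y)) := by
      obtain ⟨z, hz⟩ := nX
      obtain ⟨w, hw⟩ := nY
      exact ⟨((⟨z, hz⟩, ⟨z, hz⟩), (⟨w, hw⟩, ⟨w, hw⟩))⟩
    apply ciSup_le
    rintro ⟨⟨⟨z, hz⟩, ⟨z', hz'⟩⟩, ⟨⟨w, hw⟩, ⟨w', hw'⟩⟩⟩
    exact up z hz z' hz' w hw w' hw'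
  have hL : M / 2 ≤ th g X Y := by
    obtain ⟨⟨a, a'⟩, ⟨b, b'⟩⟩ := p0
    obtain ⟨⟨ha, ha'⟩, ⟨hb, hb'⟩⟩ := hp0
    simp only at ha ha' hb hb'
    obtain ⟨z, hz, h1⟩ := hX.2.1 a ha
    obtain ⟨z', hz', h2⟩ := hX.2.1 a' ha'
    obtain ⟨w, hw, h3⟩ := hY.2.1 b hb
    obtain ⟨w', hw', h4⟩ := hY.2.1 b' hb'
    have h5 := key _ (show (((a, a'), (b, b')) : (ℂ × ℂ) × (ℂ × ℂ)) ∈ S from
      ⟨⟨ha, ha'⟩, ⟨hb, hb'⟩⟩) _ (hdist z z' w w' a a' b b' h1 h2 h3 h4)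
    rw [abs_lt, ← hM] at h5
    have h8 : rt4 g X Y z z' w w' ≤ th g X Y :=
      le_ciSup hbX (((⟨z, hz⟩, ⟨z', hz'⟩), (⟨w, hw⟩, ⟨w', hw'⟩)) : (X × X) × (Y × Y))
    rw [rt4_congr hX.2.2 hY.2.2] at h8
    have h7 : fr g A B ((z, z'), (w, w')) = rt4 g A B z z' w w' := rfl
    rw [← h7] at h8
    linarith [h5.2]
  have c1 : Cmp 2 (th g X Y) (th g A B) := by
    rw [hthA]
    exact ⟨by norm_num, by linarith, hM0, by linarith, by linarith⟩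
  unfold Th
  by_cases hs : A.Subsingleton ∨ B.Subsingleton
  · rw [if_pos hs, if_pos (by rw [← hX.2.2, ← hY.2.2]; exact hs)]
    exact c1
  · rw [if_neg hs, if_neg (by rw [← hX.2.2, ← hY.2.2]; exact hs)]
    exact ((Cmp.refl one_pos).weaken (by norm_num)).min' c1

theorem Cmp_prod {ι : Type*} (s : Finset ι) {a b : ι → ℝ} (h : ∀ i ∈ s, Cmp 2 (a i) (b i)) :
    Cmp (2 ^ s.card) (∏ i ∈ s, a i) (∏ i ∈ s, b i) := by
  classical
  induction s using Finset.induction_on with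
  | empty => simpa using Cmp.refl one_pos
  | @insert i s hi ih =>
    rw [Finset.prod_insert hi, Finset.prod_insert hi, Finset.card_insert_of_notMem hi, pow_succ]
    have := (h i (Finset.mem_insert_self _ _)).mul
      (ih (fun j hj => h j (Finset.mem_insert_of_mem hj)))
    exact this.weaken (le_of_eq (mul_comm _ _))

theorem close_Us {k : ℕ} {K X : Fin k → Set ℂ} (hK : Dj K) (hX : Dj X) {δ : ℝ}
    (h : ∀ i, Close δ (K i) (X i)) (σ : Equiv.Perm (Fin k)) {i : Fin k} (hi : (i : ℕ) ≠ 0) :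
    Close δ (Us K σ i) (Us X σ i) := by
  refine ⟨?_, ?_, ?_⟩
  · intro x hx
    obtain ⟨j, hj, hx⟩ := mem_Us.mp hx
    obtain ⟨z, hz, h1⟩ := (h _).1 x hx
    exact ⟨z, mem_Us.mpr ⟨j, hj, hz⟩, h1⟩
  · intro x hx
    obtain ⟨j, hj, hx⟩ := mem_Us.mp hx
    obtain ⟨z, hz, h1⟩ := (h _).2.1 x hx
    exact ⟨z, mem_Us.mpr ⟨j, hj, hz⟩, h1⟩
  · by_cases h1 : (i : ℕ) = 1
    · rw [Us_one K σ h1, Us_one X σ h1]
      exact (h _).2.2
    · exact ⟨fun hs => absurd hs (Us_sub hK σ hi h1), fun hs => absurd hs (Us_sub hX σ hi h1)⟩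

theorem near_Phi (h : Ker g O) {k : ℕ} {K : Fin k → Set ℂ} (hKO : ∀ i, K i ⊆ O) (hK : Dj K)
    (cK : ∀ i, IsCompact (K i)) : ∀ᶠ δ : ℝ in 𝓝[>] 0, ∀ X : Fin k → Set ℂ, Dj X →
      (∀ i, Close δ (K i) (X i)) → Cmp (2 ^ k) (Phi g k X) (Phi g k K) := by
  have e1 : ∀ (σ : Equiv.Perm (Fin k)) (i : Fin k), ∀ᶠ δ : ℝ in 𝓝[>] 0, (i : ℕ) ≠ 0 →
      ∀ X Y : Set ℂ, Close δ (Us K σ i) X → Close δ (K (σ i)) Y →
        Cmp 2 (Th g X Y) (Th g (Us K σ i) (K (σ i))) := by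
    intro σ i
    by_cases hi : (i : ℕ) = 0
    · exact Eventually.of_forall (fun δ h0 => absurd hi h0)
    · have hsub : Us K σ i ⊆ O := by
        intro z hz
        obtain ⟨j, -, hz⟩ := mem_Us.mp hz
        exact hKO _ hz
      have hdj : Disjoint (Us K σ i) (K (σ i)) := by
        rw [Set.disjoint_left]
        intro z hz hz'
        obtain ⟨j, hj, hz⟩ := mem_Us.mp hz
        refine Set.disjoint_left.mp (hK.2 (σ j) (σ i) ?_) hz hz'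
        intro he
        exact hj.ne (σ.injective he)
      have hcU : IsCompact (Us K σ i) :=
        isCompact_iUnion (fun j => isCompact_iUnion (fun _ => cK _))
      filter_upwards [near_Th h hsub (hKO _) hdj hcU (cK _) (Us_ne hK σ hi) (hK.1 _)] with δ hδ _
      exact hδ
  have e2 : ∀ᶠ δ : ℝ in 𝓝[>] 0, ∀ (σ : Equiv.Perm (Fin k)) (i : Fin k), (i : ℕ) ≠ 0 →
      ∀ X Y : Set ℂ, Close δ (Us K σ i) X → Close δ (K (σ i)) Y →
        Cmp 2 (Th g X Y) (Th g (Us K σ i) (K (σ i))) := by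
    rw [eventually_all]
    intro σ
    rw [eventually_all]
    exact e1 σ
  filter_upwards [e2] with δ hδ X hX hc
  have key : ∀ σ : Equiv.Perm (Fin k), Cmp (2 ^ k) (Ph g k X σ) (Ph g k K σ) := by
    intro σ
    have := Cmp_prod (Finset.univ : Finset (Fin k))
      (a := fun i => if (i : ℕ) = 0 then (1 : ℝ) else Th g (Us X σ i) (X (σ i)))
      (b := fun i => if (i : ℕ) = 0 then (1 : ℝ) else Th g (Us K σ i) (K (σ i))) (by
        intro i _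
        by_cases hi : (i : ℕ) = 0
        · simp only [hi, if_true]
          exact (Cmp.refl one_pos).weaken (by norm_num)
        · simp only [hi, if_false]
          exact hδ σ i hi _ _ (close_Us hK hX hc σ hi) (hc _))
    rw [Finset.card_univ, Fintype.card_fin] at this
    exact this
  exact Cmp.iSup' key

end

end H67CS
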