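import Pool.Agent.H67CS.Up

/-!
Connection of wired sets, quadrant: adding a set which is close to the others (a net of circuits).
-/

set_option autoImplicit false

namespace H67CS
open Finset H974 Pool.Agent.H160R2.CV H362P TH976
open Pool.Agent.H160R2.CV.Quad
open H973 (dlt dlt_pos dlt_le rswL)

/-- the FKG inequality for finitely many events -/
theorem fkg_all {ι : Type*} {S : Finset Edg} (T : Finset ι) {A : ι → Finset Edg → Prop}
    (hA : ∀ i ∈ T, IncrE S (A i)) {δ : ℝ} (hδ : 0 ≤ δ) (h : ∀ i ∈ T, δ ≤ Pr P S (A i)) :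
    δ ^ T.card ≤ Pr P S (fun F => ∀ i ∈ T, A i F) := by
  classical
  induction T using Finset.induction_on with
  | empty =>
    rw [pr_true S (fun F i hi => absurd hi (Finset.notMem_empty i))]
    simp
  | @insert i T hi ih =>
    have h1 := ih (fun j hj => hA j (Finset.mem_insert_of_mem hj))
      (fun j hj => h j (Finset.mem_insert_of_mem hj))
    have h2 := h i (Finset.mem_insert_self i T)
    have h3 : IncrE S (fun F => ∀ j ∈ T, A j F) := by
      intro F G hF hG hFG j hj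
      exact hA j (Finset.mem_insert_of_mem hj) F G hF hG (hFG j hj)
    have h4 := fkg h3 (hA i (Finset.mem_insert_self i T)) hδ h1 h2
    rw [Finset.card_insert_of_notMem hi, pow_succ]
    refine h4.trans (Pr_mono okP ?_)
    rintro F _ ⟨h5, h6⟩ j hj
    rcases Finset.mem_insert.mp hj with rfl | hj
    · exact h6
    · exact h5 j hj

/-- a point of the net -/
def ct (x : Vtx) (s : ℕ) (p : ℤ × ℤ) : Vtx := (max 0 (x.1 + p.1 * s), max 0 (x.2 + p.2 * s))

theorem ct_InV (x : Vtx) (s : ℕ) (p : ℤ × ℤ) : InV (ct x s p) := ⟨le_max_left _ _, le_max_left _ _⟩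

/-- the index set of the net -/
noncomputable def idx : Finset (ℤ × ℤ) := Finset.Icc (-64 : ℤ) 64 ×ˢ Finset.Icc (-64 : ℤ) 64

theorem mem_idx {p : ℤ × ℤ} : p ∈ idx ↔ (-64 ≤ p.1 ∧ p.1 ≤ 64) ∧ (-64 ≤ p.2 ∧ p.2 ≤ 64) := by
  unfold idx
  rw [Finset.mem_product, Finset.mem_Icc, Finset.mem_Icc]

attribute [irreducible] idx

theorem ct_near {x : Vtx} (hx : InV x) (s : ℕ) {p : ℤ × ℤ} (hp : p ∈ idx) :
    sd (ct x s p) x ≤ 64 * s := by
  rw [mem_idx] at hp
  obtain ⟨⟨h1, h2⟩, h3, h4⟩ := hp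
  have e : ∀ i : ℤ, -64 ≤ i → i ≤ 64 → -(64 * (s : ℤ)) ≤ i * s ∧ i * s ≤ 64 * (s : ℤ) := by
    intro i h5 h6
    constructor <;> nlinarith [Int.natCast_nonneg s]
  have e1 := e _ h1 h2
  have e2 := e _ h3 h4
  unfold InV at hx
  unfold sd ct
  simp only
  generalize p.1 * (s : ℤ) = A at *
  generalize p.2 * (s : ℤ) = B at *
  omega

theorem ct_cover {x w : Vtx} (hw : InV w) {s d : ℕ} (hs : 1 ≤ s) (hd : d < 64 * s)
    (h : sd w x ≤ d) : ∃ p ∈ idx, sd w (ct x s p) ≤ s := by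
  have e : ∀ t : ℤ, -(d : ℤ) ≤ t → t ≤ d → ∃ i : ℤ, (-64 ≤ i ∧ i ≤ 64) ∧ i * s ≤ t ∧ t < i * s + s := by
    intro t h1 h2
    have hs' : (0 : ℤ) < s := by exact_mod_cast hs
    have hd' : (d : ℤ) < 64 * s := by exact_mod_cast hd
    have h5 := Int.ediv_mul_le t hs'.ne'
    have h6 := Int.lt_ediv_add_one_mul_self t hs'
    refine ⟨t / s, ⟨?_, ?_⟩, h5, ?_⟩
    · by_contra hc
      push Not at hc
      have : t / (s : ℤ) + 1 ≤ -64 := by omega
      nlinarith
    · by_contra hc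
      push Not at hc
      have : 65 ≤ t / (s : ℤ) := by omega
      nlinarith
    · nlinarith
  unfold sd at h
  obtain ⟨i, ⟨i1, i2⟩, i3, i4⟩ := e (w.1 - x.1) (by omega) (by omega)
  obtain ⟨j, ⟨j1, j2⟩, j3, j4⟩ := e (w.2 - x.2) (by omega) (by omega)
  refine ⟨(i, j), ?_, ?_⟩
  · rw [mem_idx]
    exact ⟨⟨i1, i2⟩, j1, j2⟩
  · unfold InV at hw
    unfold sd ct
    simp only
    generalize i * (s : ℤ) = A at *
    generalize j * (s : ℤ) = B at *
    omega

theorem bq_ge {c : Vtx} (hc : InV c) (s : ℕ) : kd ^ 6 ≤ bq c s (729 * s) := by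
  have h1 := aq_dbl3 hc s
  have h2 := aq_dbl3 hc (27 * s)
  have h3 := aq_split hc (r := s) (n := 729 * s) (by omega)
  have h4 := aq_pos hc s
  have h5 := kd_pos
  rw [show 27 * (27 * s) = 729 * s by ring] at h2
  have h6 : kd ^ 6 * aq c s ≤ bq c s (729 * s) * aq c s := by
    calc kd ^ 6 * aq c s = kd ^ 3 * (kd ^ 3 * aq c s) := by ring
      _ ≤ kd ^ 3 * aq c (27 * s) := mul_le_mul_of_nonneg_left h1 (by positivity)
      _ ≤ aq c (729 * s) := h2
      _ ≤ aq c s * bq c s (729 * s) := h3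
      _ = _ := mul_comm _ _
  exact le_of_mul_le_mul_right h6 h4

/-- the net -/
def NetE (x : Vtx) (d s : ℕ) (F : Finset Edg) : Prop :=
  CQ x (3 * d) F ∧ ∀ p ∈ idx, CQ (ct x s p) s F ∧ Cx (ct x s p) s (729 * s) F

theorem NetE.mono {x : Vtx} {d s : ℕ} {F G : Finset Edg} (h : F ⊆ G) (hF : NetE x d s F) :
    NetE x d s G := ⟨hF.1.mono h, fun p hp => ⟨(hF.2 p hp).1.mono h, (hF.2 p hp).2.mono h⟩⟩

/-- the constant of the net -/
noncomputable def kn : ℝ := k4 * (k4 * kd ^ 6) ^ idx.card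

theorem kn_pos : 0 < kn := by
  have := k4_pos
  have := kd_pos
  unfold kn
  positivity

theorem kn_le : kn ≤ 1 := by
  have h1 := k4_pos
  have h2 := kd_pos
  have h3 := k4_le
  have h4 := kd_le
  unfold kn
  have h5 : kd ^ 6 ≤ 1 := pow_le_one₀ h2.le h4
  have h6 : k4 * kd ^ 6 ≤ 1 := mul_le_one₀ h3 (by positivity) h5
  exact mul_le_one₀ h3 (by positivity) (pow_le_one₀ (by positivity) h6)

theorem kn_fkg {a b : ℝ} (h1 : k4 ≤ a) (h2 : (k4 * kd ^ 6) ^ idx.card ≤ b) : kn ≤ a * b := by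
  have h3 := k4_pos
  have h4 := kd_pos
  unfold kn
  exact mul_le_mul h1 h2 (by positivity) (h3.le.trans h1)

attribute [irreducible] kn

theorem pr_Net {x : Vtx} (hx : InV x) {d s : ℕ} (hs : 1 ≤ s) (h1 : 32 * s ≤ d)
    {S : Finset Edg} (hS : qb x (25 * d) ⊆ S) : kn ≤ Pr P S (NetE x d s) := by
  have hk4 := k4_pos
  have hkd := kd_pos
  have a1 : k4 ≤ Pr P S (CQ x (3 * d)) := pr_CQ' hx (by omega) ((qb_mono (by omega)).trans hS)
  have a2 : ∀ p ∈ idx, k4 * kd ^ 6 ≤
      Pr P S (fun F => CQ (ct x s p) s F ∧ Cx (ct x s p) s (729 * s) F) := by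
    intro p hp
    have hc := ct_InV x s p
    have hn := ct_near hx s hp
    rw [sd_comm] at hn
    have b1 : k4 ≤ Pr P S (CQ (ct x s p) s) :=
      pr_CQ' hc hs ((qb_sub (by rw [sd_comm]; omega)).trans hS)
    have b2 : kd ^ 6 ≤ Pr P S (Cx (ct x s p) s (729 * s)) :=
      (bq_ge hc s).trans (pr_Cx_ge ((qb_sub (by rw [sd_comm]; omega)).trans hS))
    exact fkg (CQ_incr _ _ _) (Cx_incr _ _ _ _) (by positivity) b1 b2
  have a3 := fkg_all idx (fun p _ => incr_and (CQ_incr S (ct x s p) s)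
    (Cx_incr S (ct x s p) s (729 * s))) (by positivity) a2
  have i3 : IncrE S (fun F => ∀ p ∈ idx, CQ (ct x s p) s F ∧ Cx (ct x s p) s (729 * s) F) := by
    intro F G hFG _ hF p hp
    exact ⟨(hF p hp).1.mono hFG, (hF p hp).2.mono hFG⟩
  exact (kn_fkg a1 a3).trans (fkg (CQ_incr S x (3 * d)) i3 (Pr_nonneg okP _ _) le_rfl le_rfl)

/-- on the net, long clusters which come close to `x` are all joined -/
theorem Net_meet {x : Vtx} (hx : InV x) {d s : ℕ} (hs : 1 ≤ s) (h1 : 32 * s ≤ d)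
    (h2 : d < 64 * s) {F : Finset Edg} (hF : InQ F) (h : NetE x d s F) :
    ∃ z : Vtx, ∀ w u : Vtx, InV w → sd w x ≤ d → d ≤ 4 * sd w u → Reach (↑F) w u →
      Reach (↑F) w z := by
  obtain ⟨h3, h4⟩ := h
  obtain ⟨z, hz⟩ := CQ_meet hx (by omega) hF h3
  refine ⟨z, fun w u hw hwx hwu hr => ?_⟩
  obtain ⟨p, hp, hwp⟩ := ct_cover hw hs h2 hwx
  obtain ⟨h5, ⟨a, b, ha, ha1, hb1, hab⟩⟩ := h4 p hp
  have hc := ct_InV x s p
  have hn := ct_near hx s hp
  obtain ⟨z', hz'⟩ := CQ_meet hc hs hF h5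
  have t1 := sd_tri w (ct x s p) u
  have t2 := sd_comm (ct x s p) u
  have t3 := sd_tri a (ct x s p) x
  have t4 := sd_tri b x (ct x s p)
  have t5 := sd_comm x (ct x s p)
  have m1 := hz' w u hw hwp (by omega) hr
  have m2 := hz' a b ha ha1 (by omega) hab
  have m3 := hz a b ha (by omega) (by omega) hab
  exact m1.trans (m2.symm.trans m3)

/-- **Near.** the new set has a large diameter `d`, the others have diameter at least `d` -/
theorem up3 {X K : Finset Vtx} {W V : Finset Edg} {x : Vtx} (hx : InV x) {d : ℕ} (hd : 32 ≤ d)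
    (hV : Ends V (fun v => InV v ∧ sd v x ≤ d))
    (hWQ : InQ W) (hth : ∀ u ∈ X, ∃ v, d ≤ 2 * sd u v ∧ Reach (↑W) u v)
    {S : Finset Edg} (hSQ : InQ S) (hS : qb x (25 * d) ⊆ S) :
    kn * Pr P S (fun F => CW (K ∪ X) (V ∪ W) (↑F)) ≤ Pr P S (fun F => CW X W (↑F)) := by
  classical
  set s := d / 32 with hs
  have hs1 : 1 ≤ s := by omega
  have h1 : 32 * s ≤ d := by omega
  have h2 : d < 64 * s := by omega
  have hn := pr_Net hx hs1 h1 hS
  have i1 : IncrE S (NetE x d s) := fun F G h _ hF => hF.mono h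
  have h3 := fkg i1 (CW_incr S (K ∪ X) (V ∪ W)) (Pr_nonneg okP _ _) hn le_rfl
  refine h3.trans (Pr_mono okP ?_)
  rintro F hFS ⟨h4, h5⟩
  have hQ : InQ (F ∪ W) := inQ_union (hSQ.mono hFS) hWQ
  obtain ⟨z, hz⟩ := Net_meet hx hs1 h1 h2 hQ (h4.mono Finset.subset_union_left)
  have key : ∀ u ∈ X, ∀ v, Reach (↑(F ∪ W) ∪ ↑V : Set Edg) u v →
      Reach (↑(F ∪ W) : Set Edg) u v ∨ Reach (↑(F ∪ W) : Set Edg) u z := by
    intro u hu v hr
    rcases hit_or (T := fun w => InV w ∧ sd w x ≤ d) (fun e he => hV e (Finset.mem_coe.mp he)) hr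
      with h6 | ⟨w, h6, h7⟩
    · exact Or.inl h6
    · right
      obtain ⟨v', hv', hr'⟩ := hth u hu
      have hr2 : Reach (↑(F ∪ W) : Set Edg) u v' := hr'.mono (by
        exact_mod_cast Finset.subset_union_right)
      have t1 := sd_tri u w v'
      have t2 := sd_comm u w
      rcases Nat.lt_or_ge (sd w u) (sd w v') with h8 | h8
      · exact h7.trans (hz w v' h6.1 h6.2 (by omega) (h7.symm.trans hr2))
      · exact h7.trans (hz w u h6.1 h6.2 (by omega) h7.symm)
  intro u hu v hv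
  rw [coe_un]
  have h8 : Reach (↑(F ∪ W) ∪ ↑V : Set Edg) u v := by
    refine (h5 u (Finset.mem_union_right _ hu) v (Finset.mem_union_right _ hv)).mono ?_
    rintro e (he | he)
    · left
      rw [Finset.mem_coe, Finset.mem_union]
      exact Or.inl (Finset.mem_coe.mp he)
    · rw [Finset.mem_coe, Finset.mem_union] at he
      rcases he with he | he
      · exact Or.inr (Finset.mem_coe.mpr he)
      · left
        rw [Finset.mem_coe, Finset.mem_union]
        exact Or.inr he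
  rcases key u hu v h8 with h9 | h9
  · exact h9
  · rcases key v hv u h8.symm with h10 | h10
    · exact h10.symm
    · exact h9.trans h10.symm

theorem card_qb (c : Vtx) (m : ℕ) : (qb c m).card ≤ (2 * m + 1) * ((2 * m + 1) * 2) := by
  classical
  unfold qb RE
  refine (Finset.card_filter_le _ _).trans ?_
  rw [Finset.card_product, Finset.card_product, Int.card_Icc, Int.card_Icc, Finset.card_univ,
    Fintype.card_bool]
  apply Nat.mul_le_mul
  · omega
  · apply Nat.mul_le_mul _ le_rfl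
    omega

/-- the constant for small sets -/
noncomputable def ks : ℝ := (1 / 2 : ℝ) ^ 8450

theorem ks_pos : 0 < ks := by unfold ks; positivity
theorem ks_le : ks ≤ 1 := by unfold ks; exact pow_le_one₀ (by norm_num) (by norm_num)
theorem ks_card {n : ℕ} (h : n ≤ 8450) : ks ≤ (1 / 2 : ℝ) ^ n := by
  unfold ks; exact pow_le_pow_of_le_one (by norm_num) (by norm_num) h

attribute [irreducible] ks

/-- **Near.** the new set has a small diameter -/
theorem up4 {X K : Finset Vtx} {W V : Finset Edg} {x : Vtx} {d : ℕ} (hd : d ≤ 32)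
    (hV : Ends V (fun v => InV v ∧ sd v x ≤ d)) {S : Finset Edg} (hS : qb x 32 ⊆ S) :
    ks * Pr P S (fun F => CW (K ∪ X) (V ∪ W) (↑F)) ≤ Pr P S (fun F => CW X W (↑F)) := by
  classical
  have h1 : ks ≤ Pr P S (fun F => qb x 32 ⊆ F) := by
    refine le_trans ?_ (pr_all hS)
    exact ks_card ((card_qb x 32).trans (by norm_num))
  have h3 := fkg (S := S) (A := fun F => qb x 32 ⊆ F) (fun F G h _ hF => hF.trans h)
    (CW_incr S (K ∪ X) (V ∪ W)) (Pr_nonneg okP _ _) h1 le_rfl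
  refine h3.trans (Pr_mono okP ?_)
  rintro F _ ⟨h4, h5⟩
  intro u hu v hv
  refine (h5 u (Finset.mem_union_right _ hu) v (Finset.mem_union_right _ hv)).mono ?_
  rintro e (he | he)
  · exact Or.inl he
  · rw [Finset.mem_coe, Finset.mem_union] at he
    rcases he with he | he
    · have h6 : e ∈ qb x 32 := qb_mono hd (mem_qb_of (hV e he))
      exact Or.inl (Finset.mem_coe.mpr (h4 h6))
    · exact Or.inr (Finset.mem_coe.mpr he)

end H67CS
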