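import Pool.Agent.H67CS.Theta

/-!
The linking probability of `k` connected sets, as a maximum over the orderings of the sets.
-/

set_option autoImplicit false

namespace H67CS
open Finset H974 Pool.Agent.H160R2.CV H362P TH976
open Pool.Agent.H160R2.CV.Quad Pool.Agent.H389R2.CD

/-! ### the kernels of the three domains -/

/-- the kernels -/
noncomputable def gs : Sh → ℂ → ℂ → ℝ
  | .plane, z, w => ‖z - w‖ ^ (-(5 / 24) : ℝ)
  | .half, z, w => gH z w
  | .quad, z, w => gQ z w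

theorem gH_self (z : ℂ) : gH z z = 0 := by
  unfold gH
  rw [sub_self, norm_zero, Real.zero_rpow (by norm_num), zero_mul]

theorem gs_self (s : Sh) (z : ℂ) : gs s z z = 0 := by
  cases s
  · show ‖z - z‖ ^ (-(5 / 24) : ℝ) = 0
    rw [sub_self, norm_zero, Real.zero_rpow (by norm_num)]
  · exact gH_self z
  · show gQ z z = 0
    unfold gQ
    rw [gH_self, mul_zero]

theorem pf_one (s : Sh) : ∀ v ∈ dom s, pf s v 1 = 1 := by
  intro v hv
  cases s
  · show ((1 : ℕ) : ℝ) ^ (-(5 / 48 : ℝ)) = 1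
    simp
  · exact eH_one hv
  · exact e_one hv

theorem reg_plane : Reg (dom .plane) (pf .plane) 3 := by
  refine ⟨by norm_num, fun v hv n hn => pf_pos .plane hv hn, ?_, ?_, ?_⟩
  · intro v hv n m hn hnm
    show (m : ℝ) ^ (-(5 / 48 : ℝ)) ≤ 3 * (n : ℝ) ^ (-(5 / 48 : ℝ))
    have hn0 : (0 : ℝ) < n := by exact_mod_cast hn
    have h1 : (m : ℝ) ^ (-(5 / 48 : ℝ)) ≤ (n : ℝ) ^ (-(5 / 48 : ℝ)) :=
      Real.rpow_le_rpow_of_nonpos hn0 (by exact_mod_cast hnm) (by norm_num)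
    have h2 : 0 < (n : ℝ) ^ (-(5 / 48 : ℝ)) := Real.rpow_pos_of_pos hn0 _
    linarith
  · intro v hv n hn
    have hn0 : (0 : ℝ) < n := by exact_mod_cast hn
    have c : Cmp 3 ((n : ℝ) ^ (-(5 / 48 : ℝ))) (((3 * n : ℕ) : ℝ) ^ (-(5 / 48 : ℝ))) := by
      apply Cmp.rpow_neg _ (by norm_num) (by norm_num)
      push_cast
      exact ⟨by norm_num, hn0, by positivity, by linarith, by linarith⟩
    exact c.l
  · intro u hu v hv r n huv hr hrn
    show (r : ℝ) ^ (-(5 / 48 : ℝ)) * (n : ℝ) ^ (-(5 / 48 : ℝ)) ≤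
      3 * ((n : ℝ) ^ (-(5 / 48 : ℝ)) * (r : ℝ) ^ (-(5 / 48 : ℝ)))
    have hr0 : (0 : ℝ) < r := by exact_mod_cast hr
    have hn0 : (0 : ℝ) < n := by exact_mod_cast (by omega : 0 < n)
    have h1 := Real.rpow_pos_of_pos hr0 (-(5 / 48 : ℝ))
    have h2 := Real.rpow_pos_of_pos hn0 (-(5 / 48 : ℝ))
    nlinarith [mul_pos h1 h2]

theorem two_plane : TwoP (dom .plane) (pf .plane) (gs .plane) 2 := by
  intro x _ y _ hxy
  show Cmp 2 (((sd x y : ℕ) : ℝ) ^ (-(5 / 48 : ℝ)) * ((sd x y : ℕ) : ℝ) ^ (-(5 / 48 : ℝ)))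
    (‖cx x - cx y‖ ^ (-(5 / 24) : ℝ))
  have n1 := sd_pos hxy
  obtain ⟨l1, l2⟩ := norm_cx x y
  have hn : (0 : ℝ) < (sd x y : ℕ) := by exact_mod_cast n1
  have hl : 0 < ‖cx x - cx y‖ := by linarith
  rw [← Real.rpow_add hn]
  generalize ((sd x y : ℕ) : ℝ) = n at *
  generalize ‖cx x - cx y‖ = l at *
  have c1 : Cmp 2 n l := by
    refine ⟨by norm_num, hn, hl, by linarith, ?_⟩
    by_contra hc
    push Not at hc
    nlinarith
  have := c1.rpow_neg (a := 5 / 24) (by norm_num) (by norm_num)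
  refine this.congr ?_ rfl
  norm_num

theorem regs (hA : ArS) : ∃ k K : ℝ, 1 ≤ K ∧ ∀ s : Sh, Reg (dom s) (pf s) k ∧
    TwoP (dom s) (pf s) (gs s) K := by
  obtain ⟨k1, h1⟩ := reg_H hA
  obtain ⟨k2, h2⟩ := reg_Q hA
  obtain ⟨K2, hK2⟩ := two_Q hA
  have hw : ∀ {D : Set Vtx} {e : Vtx → ℕ → ℝ} {k k' : ℝ}, Reg D e k → k ≤ k' → Reg D e k' := by
    intro D e k k' h hk
    have p : ∀ v ∈ D, ∀ n : ℕ, 1 ≤ n → 0 < e v n := h.pos
    refine ⟨h.hk.trans hk, p, ?_, ?_, ?_⟩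
    · intro v hv n m hn hnm
      exact (h.anti v hv n m hn hnm).trans (mul_le_mul_of_nonneg_right hk (p v hv n hn).le)
    · intro v hv n hn
      exact (h.dbl v hv n hn).trans
        (mul_le_mul_of_nonneg_right hk (p v hv (3 * n) (by omega)).le)
    · intro u hu v hv r n huv hr hrn
      refine (h.rat u hu v hv r n huv hr hrn).trans (mul_le_mul_of_nonneg_right hk ?_)
      exact mul_nonneg (p u hu n (by omega)).le (p v hv r hr).le
  refine ⟨max 3 (max k1 k2), max 6 K2, le_max_of_le_left (by norm_num), ?_⟩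
  intro s
  cases s
  · exact ⟨hw reg_plane (le_max_left _ _), fun x hx y hy hxy =>
      (two_plane x hx y hy hxy).weaken (le_max_of_le_left (by norm_num))⟩
  · exact ⟨hw h1 (le_max_of_le_right (le_max_left _ _)), fun x hx y hy hxy =>
      (two_H hx hy hxy).weaken (le_max_left _ _)⟩
  · exact ⟨hw h2 (le_max_of_le_right (le_max_right _ _)), fun x hx y hy hxy =>
      (hK2 x hx y hy hxy).weaken (le_max_right _ _)⟩

/-- **Adding a set**, in terms of the functional. -/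
theorem add_th (hA : ArS) : ∃ C : ℝ, 1 ≤ C ∧ ∀ (s : Sh) (X K : Finset Vtx) (W V : Finset Edg)
    (a d D : ℕ), Dat X K W V a d D → (∀ u ∈ X, u ∈ dom s) → (∀ u ∈ K, u ∈ dom s) →
    K.Nonempty → X.Nonempty →
    0 < Th (gs s) (cs X) (cs K) ∧
    C⁻¹ * (Th (gs s) (cs X) (cs K) * PD (dom s) (CW X W)) ≤ PD (dom s) (CW (K ∪ X) (V ∪ W)) ∧
    (Thk X W d D → PD (dom s) (CW (K ∪ X) (V ∪ W)) ≤
      C * (Th (gs s) (cs X) (cs K) * PD (dom s) (CW X W))) := by
  obtain ⟨C, hC, h⟩ := add_cost hA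
  obtain ⟨k, K0, hK0, hr⟩ := regs hA
  have hk : 1 ≤ k := (hr .plane).1.hk
  have hC0 : 0 < C := by linarith
  have hM : 1 ≤ k ^ 11 * K0 ^ 4 := Cmp.one_le_mul' (one_le_pow₀ hk) (one_le_pow₀ hK0)
  refine ⟨(k ^ 11 * K0 ^ 4) * C, Cmp.one_le_mul' hM hC, ?_⟩
  intro s X K W V a d D hD hX hK hKn hXn
  obtain ⟨x, hx⟩ := hKn
  obtain ⟨y, hy⟩ := hXn
  obtain ⟨i1, i2⟩ := h s X K W V a d D hD hX hK x hx y hy
  have c := Th_cmp (hr s).1 (pf_one s) (hr s).2 hK0 (gs_self s) hX hK hD.ha hD.near hD.dK hD.dX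
    hx hy
  have e1 : cost s x (max d 1) a * cost s y (max D 1) a =
      cst (pf s) x (max d 1) a * cst (pf s) y (max D 1) a := rfl
  rw [e1] at i1 i2
  have p := PD_nonneg (dom s) (CW X W)
  obtain ⟨-, c0, t0, c1, c2⟩ := c
  set M := k ^ 11 * K0 ^ 4 with hMM
  have hM0 : 0 < M := by linarith
  generalize cst (pf s) x (max d 1) a * cst (pf s) y (max D 1) a = q at *
  generalize Th (gs s) (cs X) (cs K) = t at *
  generalize PD (dom s) (CW X W) = P at *
  generalize PD (dom s) (CW (K ∪ X) (V ∪ W)) = Q at *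
  refine ⟨t0, ?_, ?_⟩
  · rw [mul_inv]
    calc M⁻¹ * C⁻¹ * (t * P) = C⁻¹ * ((M⁻¹ * t) * P) := by ring
      _ ≤ C⁻¹ * (q * P) := by
          apply mul_le_mul_of_nonneg_left _ (by positivity)
          apply mul_le_mul_of_nonneg_right _ p
          rw [inv_mul_le_iff₀ hM0]
          exact c2
      _ ≤ Q := i1
  · intro ht
    calc Q ≤ C * (q * P) := i2 ht
      _ ≤ C * ((M * t) * P) := by
          apply mul_le_mul_of_nonneg_left _ hC0.le
          exact mul_le_mul_of_nonneg_right c1 p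
      _ = _ := by ring

end H67CS
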