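import Pool.Agent.H67CS.Ord

/-!
The linking probability of `k` connected sets, as a maximum over the orderings of the sets.
-/

set_option autoImplicit false

namespace H67CS
open Finset H974 Pool.Agent.H160R2.CV H362P TH976
open Pool.Agent.H160R2.CV.Quad Pool.Agent.H389R2.CD

/-- the product for one ordering -/
noncomputable def Ph (g : ℂ → ℂ → ℝ) (k : ℕ) (K : Fin k → Set ℂ) (σ : Equiv.Perm (Fin k)) : ℝ :=
  ∏ i : Fin k, if (i : ℕ) = 0 then 1 else Th g (⋃ j : Fin k, ⋃ _ : j < i, K (σ j)) (K (σ i))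

/-- the maximum over the orderings -/
noncomputable def Phi (g : ℂ → ℂ → ℝ) (k : ℕ) (K : Fin k → Set ℂ) : ℝ :=
  ⨆ σ : Equiv.Perm (Fin k), Ph g k K σ

/-- the sets are linked -/
def Lf {k : ℕ} (F : Set Edg) (X : Fin k → Finset Vtx) : Prop :=
  ∀ i j : Fin k, Relation.ReflTransGen (fun p q => ∃ u ∈ X p, ∃ v ∈ X q, Reach F u v) i j

/-- the sets, in a given order -/
noncomputable def Kn {k : ℕ} (X : Fin k → Finset Vtx) (σ : Equiv.Perm (Fin k)) (i : ℕ) :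
    Finset Vtx := if h : i < k then X (σ ⟨i, h⟩) else ∅

theorem Kn_lt {k : ℕ} (X : Fin k → Finset Vtx) (σ : Equiv.Perm (Fin k)) {i : ℕ} (h : i < k) :
    Kn X σ i = X (σ ⟨i, h⟩) := by
  unfold Kn
  rw [dif_pos h]

theorem mem_UnKn {k : ℕ} {X : Fin k → Finset Vtx} {σ : Equiv.Perm (Fin k)} {v : Vtx} :
    v ∈ Un (Kn X σ) k ↔ ∃ i, v ∈ X i := by
  rw [mem_Un]
  constructor
  · rintro ⟨i, hi, hv⟩
    rw [Kn_lt X σ hi] at hv
    exact ⟨_, hv⟩
  · rintro ⟨i, hv⟩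
    refine ⟨(σ.symm i : Fin k), (σ.symm i).isLt, ?_⟩
    rw [Kn_lt X σ (σ.symm i).isLt]
    simpa using hv

theorem mem_WeKn {k : ℕ} {X : Fin k → Finset Vtx} {σ : Equiv.Perm (Fin k)} {e : Edg} :
    e ∈ We (Kn X σ) k ↔ ∃ i, e ∈ ein (X i) := by
  rw [mem_We]
  constructor
  · rintro ⟨i, hi, hv⟩
    rw [Kn_lt X σ hi] at hv
    exact ⟨_, hv⟩
  · rintro ⟨i, hv⟩
    refine ⟨(σ.symm i : Fin k), (σ.symm i).isLt, ?_⟩
    rw [Kn_lt X σ (σ.symm i).isLt]
    simpa using hv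

theorem Lf_iff {k : ℕ} {F : Set Edg} {X : Fin k → Finset Vtx} (hne : ∀ i, (X i).Nonempty)
    (hK : ∀ i, Cn (X i) (↑(ein (X i)))) (σ : Equiv.Perm (Fin k)) :
    CW (Un (Kn X σ) k) (We (Kn X σ) k) F ↔ Lf F X := by
  constructor
  · intro h i j
    obtain ⟨u, hu⟩ := hne i
    obtain ⟨v, hv⟩ := hne j
    have key : ∀ w, Reach (F ∪ ↑(We (Kn X σ) k)) u w → ∃ p, Relation.ReflTransGen
        (fun p q => ∃ u ∈ X p, ∃ v ∈ X q, Reach F u v) i p ∧
        ∃ w' ∈ X p, Reach F w' w := by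
      intro w hw
      induction hw with
      | refl => exact ⟨i, Relation.ReflTransGen.refl, u, hu, Reach.refl _ _⟩
      | @tail b c _ hs ih =>
        obtain ⟨p, hip, w', hw', hr⟩ := ih
        obtain ⟨e, he | he, hc⟩ := hs
        · exact ⟨p, hip, w', hw', hr.trans (Adj.reach ⟨e, he, hc⟩)⟩
        · obtain ⟨q, heq⟩ := mem_WeKn.mp (Finset.mem_coe.mp he)
          rw [mem_ein] at heq
          have hbc : b ∈ X q ∧ c ∈ X q := by
            rcases hc with ⟨h1, h2⟩ | ⟨h1, h2⟩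
            · rw [← h1, ← h2]; exact heq
            · rw [← h1, ← h2]; exact ⟨heq.2, heq.1⟩
          exact ⟨q, hip.tail ⟨w', hw', b, hbc.1, hr⟩, c, hbc.2, Reach.refl _ _⟩
    obtain ⟨p, hip, w', hw', hr⟩ := key v (h u (mem_UnKn.mpr ⟨i, hu⟩) v
      (mem_UnKn.mpr ⟨j, hv⟩))
    exact hip.tail ⟨w', hw', v, hv, hr⟩
  · intro h u hu v hv
    obtain ⟨i, hu⟩ := mem_UnKn.mp hu
    obtain ⟨j, hv⟩ := mem_UnKn.mp hv
    have hin : ∀ p, ∀ a ∈ X p, ∀ b ∈ X p, Reach (F ∪ ↑(We (Kn X σ) k)) a b := by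
      intro p a ha b hb
      refine (hK p a ha b hb).mono ?_
      intro e he
      exact Or.inr (Finset.mem_coe.mpr (mem_WeKn.mpr ⟨p, Finset.mem_coe.mp he⟩))
    have key : ∀ q, Relation.ReflTransGen
        (fun p q => ∃ u ∈ X p, ∃ v ∈ X q, Reach F u v) i q →
        ∀ w ∈ X q, Reach (F ∪ ↑(We (Kn X σ) k)) u w := by
      intro q hq
      induction hq with
      | refl => exact fun w hw => hin i u hu w hw
      | tail _ hs ih =>
        obtain ⟨a, ha, b, hb, hr⟩ := hs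
        exact fun w hw => (ih a ha).trans ((hr.mono Set.subset_union_left).trans
          (hin _ b hb w hw))
    exact key j (h i j) v hv

/-- the data -/
structure Fam (s : Sh) (k : ℕ) (X : Fin k → Finset Vtx) : Prop where
  inD : ∀ i, ∀ u ∈ X i, u ∈ dom s
  ne : ∀ i, (X i).Nonempty
  con : ∀ i, Cn (X i) (↑(ein (X i)))
  dj : ∀ i j, i ≠ j → Disjoint (X i) (X j)

theorem exists_near2 {K X : Finset Vtx} (hK : K.Nonempty) (hX : X.Nonempty) :
    ∃ a, Near2 K X a := by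
  obtain ⟨p, hp, h⟩ := Finset.exists_min_image (K ×ˢ X) (fun u => sd u.1 u.2) (hK.product hX)
  rw [Finset.mem_product] at hp
  refine ⟨sd p.1 p.2, ⟨p.1, hp.1, p.2, hp.2, rfl⟩, ?_⟩
  rintro d ⟨u, hu, v, hv, rfl⟩
  exact h (u, v) (Finset.mem_product.mpr ⟨hu, hv⟩)

section
variable {s : Sh} {k : ℕ} {X : Fin k → Finset Vtx}

theorem Fam.unD (h : Fam s k X) (σ : Equiv.Perm (Fin k)) {n : ℕ} (hn : n ≤ k) :
    ∀ u ∈ Un (Kn X σ) n, u ∈ dom s := by
  intro u hu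
  obtain ⟨i, hi, hu⟩ := mem_Un.mp hu
  rw [Kn_lt X σ (by omega)] at hu
  exact h.inD _ u hu

theorem Fam.knD (h : Fam s k X) (σ : Equiv.Perm (Fin k)) {n : ℕ} (hn : n < k) :
    ∀ u ∈ Kn X σ n, u ∈ dom s := by
  intro u hu
  rw [Kn_lt X σ hn] at hu
  exact h.inD _ u hu

theorem Fam.knNe (h : Fam s k X) (σ : Equiv.Perm (Fin k)) {n : ℕ} (hn : n < k) :
    (Kn X σ n).Nonempty := by
  rw [Kn_lt X σ hn]
  exact h.ne _

theorem Fam.unNe (h : Fam s k X) (σ : Equiv.Perm (Fin k)) {n : ℕ} (h1 : 1 ≤ n) (hn : n ≤ k) :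
    (Un (Kn X σ) n).Nonempty := by
  obtain ⟨v, hv⟩ := h.knNe σ (n := 0) (by omega)
  exact ⟨v, mem_Un.mpr ⟨0, by omega, hv⟩⟩

theorem Fam.knCn (h : Fam s k X) (σ : Equiv.Perm (Fin k)) {n : ℕ} (hn : n < k) :
    Cn (Kn X σ n) (↑(ein (Kn X σ n))) := by
  rw [Kn_lt X σ hn]
  exact h.con _

theorem Fam.dat (h : Fam s k X) (σ : Equiv.Perm (Fin k)) {n : ℕ} (h1 : 1 ≤ n) (hn : n < k) :
    ∃ a d D, Dat (Un (Kn X σ) n) (Kn X σ n) (We (Kn X σ) n) (ein (Kn X σ n)) a d D := by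
  obtain ⟨a, ha⟩ := exists_near2 (h.knNe σ hn) (h.unNe σ h1 hn.le)
  obtain ⟨d, hd⟩ := exists_diam (h.knNe σ hn)
  obtain ⟨D, hD⟩ := exists_diam (h.unNe σ h1 hn.le)
  refine ⟨a, d, D, ?_, fun e he => mem_ein.mp he, h.knCn σ hn, ha, ?_, hd, hD⟩
  · intro e he
    obtain ⟨j, hj, hej⟩ := mem_We.mp he
    rw [mem_ein] at hej
    exact ⟨mem_Un.mpr ⟨j, hj, hej.1⟩, mem_Un.mpr ⟨j, hj, hej.2⟩⟩
  · obtain ⟨⟨u, hu, v, hv, rfl⟩, -⟩ := ha
    apply sd_pos
    rintro rfl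
    obtain ⟨j, hj, hv⟩ := mem_Un.mp hv
    rw [Kn_lt X σ hn] at hu
    rw [Kn_lt X σ (by omega : j < k)] at hv
    refine Finset.disjoint_left.mp (h.dj (σ ⟨n, hn⟩) (σ ⟨j, by omega⟩) ?_) hu hv
    intro heq
    have := Fin.mk.inj (σ.injective heq)
    omega

/-- the product for one ordering, in terms of the lattice sets -/
noncomputable def Pn (s : Sh) (Y : ℕ → Finset Vtx) (n : ℕ) : ℝ :=
  ∏ i ∈ Ico 1 n, Th (gs s) (cs (Un Y i)) (cs (Y i))

theorem cs_Un (σ : Equiv.Perm (Fin k)) (i : Fin k) :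
    cs (Un (Kn X σ) i) = ⋃ j : Fin k, ⋃ _ : j < i, cs (X (σ j)) := by
  ext z
  simp only [Set.mem_iUnion, exists_prop]
  constructor
  · rintro ⟨v, hv, rfl⟩
    obtain ⟨j, hj, hv⟩ := mem_Un.mp (Finset.mem_coe.mp hv)
    have hjk : j < k := lt_trans hj i.isLt
    rw [Kn_lt X σ hjk] at hv
    exact ⟨⟨j, hjk⟩, Fin.mk_lt_of_lt_val hj, mem_cs hv⟩
  · rintro ⟨j, hj, v, hv, rfl⟩
    refine mem_cs (mem_Un.mpr ⟨j, hj, ?_⟩)
    rw [Kn_lt X σ j.isLt]
    exact Finset.mem_coe.mp hv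

theorem Ph_eq (s : Sh) (hk : 1 ≤ k) (σ : Equiv.Perm (Fin k)) :
    Ph (gs s) k (fun i => cs (X i)) σ = Pn s (Kn X σ) k := by
  unfold Ph Pn
  obtain ⟨F, hF⟩ : ∃ F : ℕ → ℝ, F = fun n : ℕ => if n = 0 then (1 : ℝ) else
        Th (gs s) (cs (Un (Kn X σ) n)) (cs (Kn X σ n)) := ⟨_, rfl⟩
  have e1 : ∀ i : Fin k, (if (i : ℕ) = 0 then (1 : ℝ) else
      Th (gs s) (⋃ j : Fin k, ⋃ _ : j < i, cs (X (σ j))) (cs (X (σ i)))) = F (i : ℕ) := by
    intro i
    rw [hF]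
    simp only
    rw [← cs_Un, Kn_lt X σ i.isLt]
  have e2 : (∏ i : Fin k, F (i : ℕ)) = ∏ n ∈ Finset.range k, F n := (Finset.prod_range F).symm
  rw [Finset.prod_congr rfl (fun i _ => e1 i), e2, Finset.range_eq_Ico,
    Finset.prod_eq_prod_Ico_succ_bot (by omega), hF]
  show (if (0 : ℕ) = 0 then (1 : ℝ) else _) * _ = _
  rw [if_pos rfl, one_mul]
  apply Finset.prod_congr rfl
  intro i hi
  rw [Finset.mem_Ico] at hi
  exact if_neg (by omega)

end

/-- the bounds for one ordering -/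
theorem one_order (hA : ArS) : ∃ C : ℝ, 1 ≤ C ∧ ∀ (s : Sh) (k : ℕ) (X : Fin k → Finset Vtx)
    (σ : Equiv.Perm (Fin k)), Fam s k X → ∀ j, j + 1 ≤ k →
      0 < Pn s (Kn X σ) (j + 1) ∧
      (C ^ j)⁻¹ * Pn s (Kn X σ) (j + 1) ≤
        PD (dom s) (CW (Un (Kn X σ) (j + 1)) (We (Kn X σ) (j + 1))) ∧
      ((∀ i i', i ≤ i' → i' < k → ∀ d d', Diam (Kn X σ i) d → Diam (Kn X σ i') d' → d' ≤ d) →
        PD (dom s) (CW (Un (Kn X σ) (j + 1)) (We (Kn X σ) (j + 1))) ≤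
          C ^ j * Pn s (Kn X σ) (j + 1)) := by
  obtain ⟨C, hC, h⟩ := add_th hA
  have hC0 : 0 < C := by linarith
  refine ⟨C, hC, fun s k X σ hF j => ?_⟩
  induction j with
  | zero =>
    intro hj
    have e2 : PD (dom s) (CW (Un (Kn X σ) (0 + 1)) (We (Kn X σ) (0 + 1))) = 1 := by
      apply PD_one
      intro F u hu v hv
      have e3 : Un (Kn X σ) (0 + 1) = Kn X σ 0 := by rw [Un_succ]; simp [Un]
      rw [e3] at hu hv
      refine (hF.knCn σ (by omega) u hu v hv).mono ?_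
      intro e he
      exact Or.inr (Finset.mem_coe.mpr (mem_We.mpr ⟨0, by omega, Finset.mem_coe.mp he⟩))
    rw [e2]
    simp [Pn]
  | succ j ih =>
    intro hj
    obtain ⟨i0, i1, i2⟩ := ih (by omega)
    obtain ⟨a, d, D, hdat⟩ := hF.dat σ (n := j + 1) (by omega) (by omega)
    obtain ⟨g0, g1, g2⟩ := h s _ _ _ _ _ _ _ hdat (hF.unD σ (by omega)) (hF.knD σ (by omega))
      (hF.knNe σ (by omega)) (hF.unNe σ (by omega) (by omega))
    have hP : Pn s (Kn X σ) (j + 1 + 1) = Pn s (Kn X σ) (j + 1) *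
        Th (gs s) (cs (Un (Kn X σ) (j + 1))) (cs (Kn X σ (j + 1))) := by
      unfold Pn
      rw [Finset.prod_Ico_succ_top (by omega)]
    rw [Un_succ (Kn X σ) (j + 1), We_succ (Kn X σ) (j + 1), hP]
    have pC : 0 < C ^ j := by positivity
    refine ⟨mul_pos i0 g0, ?_, ?_⟩
    · refine le_trans ?_ g1
      generalize Pn s (Kn X σ) (j + 1) = Q at *
      generalize Th (gs s) (cs (Un (Kn X σ) (j + 1))) (cs (Kn X σ (j + 1))) = R at *
      calc (C ^ (j + 1))⁻¹ * (Q * R) = C⁻¹ * (R * ((C ^ j)⁻¹ * Q)) := by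
            rw [pow_succ, mul_inv]; ring
        _ ≤ C⁻¹ * (R * PD (dom s) (CW (Un (Kn X σ) (j + 1)) (We (Kn X σ) (j + 1)))) := by
            apply mul_le_mul_of_nonneg_left _ (by positivity)
            exact mul_le_mul_of_nonneg_left i1 g0.le
    · intro hdec
      have hthk : Thk (Un (Kn X σ) (j + 1)) (We (Kn X σ) (j + 1)) d D := by
        constructor
        · obtain ⟨d0, hd0⟩ := exists_diam (hF.knNe σ (n := 0) (by omega))
          have h2 := hdec 0 (j + 1) (by omega) (by omega) d0 d hd0 hdat.dK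
          obtain ⟨⟨p, hp, r, hr, hpr⟩, -⟩ := hd0
          have h3 : sd p r ≤ D := hdat.dX.2
            ⟨p, mem_Un.mpr ⟨0, by omega, hp⟩, r, mem_Un.mpr ⟨0, by omega, hr⟩, rfl⟩
          omega
        · intro u hu
          obtain ⟨i, hi, hui⟩ := mem_Un.mp hu
          obtain ⟨d0, hd0⟩ := exists_diam (hF.knNe σ (n := i) (by omega))
          have h2 := hdec i (j + 1) (by omega) (by omega) d0 d hd0 hdat.dK
          obtain ⟨v, hv, hdv, -⟩ := far2 hd0 hui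
          refine ⟨v, by omega, (hF.knCn σ (by omega) u hui v hv).mono ?_⟩
          intro e he
          exact Finset.mem_coe.mpr (mem_We.mpr ⟨i, hi, Finset.mem_coe.mp he⟩)
      have g2' := g2 hthk
      have i2' := i2 hdec
      refine g2'.trans ?_
      generalize Pn s (Kn X σ) (j + 1) = Q at *
      generalize Th (gs s) (cs (Un (Kn X σ) (j + 1))) (cs (Kn X σ (j + 1))) = R at *
      calc C * (R * PD (dom s) (CW (Un (Kn X σ) (j + 1)) (We (Kn X σ) (j + 1)))) ≤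
            C * (R * (C ^ j * Q)) := by
            apply mul_le_mul_of_nonneg_left _ hC0.le
            exact mul_le_mul_of_nonneg_left i2' g0.le
        _ = C ^ (j + 1) * (Q * R) := by rw [pow_succ]; ring

/-- **The linking probability of `k` connected sets.** -/
theorem linked (hA : ArS) : ∃ C : ℝ, 1 ≤ C ∧ ∀ (s : Sh) (k : ℕ) (X : Fin k → Finset Vtx),
    1 ≤ k → Fam s k X →
    Cmp (C ^ k) (PD (dom s) (fun F => Lf F X)) (Phi (gs s) k (fun i => cs (X i))) := by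
  obtain ⟨C, hC, h⟩ := one_order hA
  refine ⟨C, hC, fun s k X hk hF => ?_⟩
  have hC0 : 0 < C := by linarith
  have hD : ∀ σ F, CW (Un (Kn X σ) k) (We (Kn X σ) k) F ↔ Lf F X :=
    fun σ F => Lf_iff hF.ne hF.con σ
  have e1 : ∀ σ, PD (dom s) (fun F => Lf F X) = PD (dom s) (CW (Un (Kn X σ) k) (We (Kn X σ) k)) := by
    intro σ
    unfold PD
    congr 1
    ext ω
    exact (hD σ _).symm
  obtain ⟨j, rfl⟩ : ∃ j, k = j + 1 := ⟨k - 1, by omega⟩
  have hle : C ^ j ≤ C ^ (j + 1) := pow_le_pow_right₀ hC (Nat.le_succ j)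
  have pC : 0 < C ^ j := by positivity
  have bdd : BddAbove (Set.range (fun σ : Equiv.Perm (Fin (j + 1)) =>
      Ph (gs s) (j + 1) (fun i => cs (X i)) σ)) := (Set.finite_range _).bddAbove
  -- lower bound
  have L : Phi (gs s) (j + 1) (fun i => cs (X i)) ≤ C ^ (j + 1) * PD (dom s) (fun F => Lf F X) := by
    unfold Phi
    apply ciSup_le
    intro σ
    rw [Ph_eq s hk σ, e1 σ]
    obtain ⟨i0, i1, -⟩ := h s (j + 1) X σ hF j le_rfl
    rw [inv_mul_le_iff₀ pC] at i1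
    exact i1.trans (mul_le_mul_of_nonneg_right hle (PD_nonneg _ _))
  -- upper bound: the ordering by decreasing diameter
  choose d hd using fun i => exists_diam (hF.ne i)
  set f : Fin (j + 1) → ℕᵒᵈ := fun i => OrderDual.toDual (d i) with hf
  have hmono := Tuple.monotone_sort f
  obtain ⟨i0, -, i2⟩ := h s (j + 1) X (Tuple.sort f) hF j le_rfl
  have U := i2 (by
    intro i i' hii' hi' a b ha hb
    rw [Kn_lt X _ (by omega)] at ha
    rw [Kn_lt X _ hi'] at hb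
    have e2 : a = d (Tuple.sort f ⟨i, by omega⟩) := ha.unique (hd _)
    have e3 : b = d (Tuple.sort f ⟨i', hi'⟩) := hb.unique (hd _)
    have := hmono (show (⟨i, by omega⟩ : Fin (j + 1)) ≤ ⟨i', hi'⟩ from hii')
    rw [e2, e3]
    exact this)
  rw [← e1, ← Ph_eq s hk] at U
  rw [← Ph_eq s hk] at i0
  have hmax : Ph (gs s) (j + 1) (fun i => cs (X i)) (Tuple.sort f) ≤
      Phi (gs s) (j + 1) (fun i => cs (X i)) := le_ciSup bdd _
  have hPhi : 0 < Phi (gs s) (j + 1) (fun i => cs (X i)) := lt_of_lt_of_le i0 hmax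
  refine ⟨one_le_pow₀ hC, ?_, hPhi, ?_, L⟩
  · by_contra hc
    push Not at hc
    have : Phi (gs s) (j + 1) (fun i => cs (X i)) ≤ 0 :=
      L.trans (mul_nonpos_of_nonneg_of_nonpos (by positivity) hc)
    linarith
  · calc _ ≤ _ := U
      _ ≤ C ^ j * Phi (gs s) (j + 1) (fun i => cs (X i)) :=
          mul_le_mul_of_nonneg_left hmax pC.le
      _ ≤ _ := mul_le_mul_of_nonneg_right hle hPhi.le

end H67CS
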