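import Pool.Agent.H67CS.Fac
import Pool.Agent.H67CS.KSet

/-!
The conformally covariant functional of two sets, and the comparison with the costs.
-/

set_option autoImplicit false

namespace H67CS
open Finset H974 Pool.Agent.H160R2.CV H362P TH976
open Pool.Agent.H160R2.CV.Quad Pool.Agent.H389R2.CD

open Classical in
/-- the kernel between two points of the same set; it is `1` for a set with one point -/
noncomputable def gd (g : ℂ → ℂ → ℝ) (A : Set ℂ) (z w : ℂ) : ℝ :=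
  if A.Subsingleton then 1 else g z w

/-- the four-point ratio -/
noncomputable def rt4 (g : ℂ → ℂ → ℝ) (A B : Set ℂ) (z z' w w' : ℂ) : ℝ :=
  Real.sqrt (g z w * g z' w' / (gd g A z z' * gd g B w w'))

/-- the supremum of the four-point ratios -/
noncomputable def th (g : ℂ → ℂ → ℝ) (A B : Set ℂ) : ℝ :=
  ⨆ p : (A × A) × (B × B), rt4 g A B p.1.1 p.1.2 p.2.1 p.2.2

open Classical in
/-- the functional -/
noncomputable def Th (g : ℂ → ℂ → ℝ) (A B : Set ℂ) : ℝ :=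
  if A.Subsingleton ∨ B.Subsingleton then th g A B else min 1 (th g A B)

theorem cx_inj : Function.Injective cx := by
  intro u v h
  have h1 := congrArg Complex.re h
  have h2 := congrArg Complex.im h
  unfold cx at h1 h2
  simp only at h1 h2
  exact Prod.ext (by exact_mod_cast h1) (by exact_mod_cast h2)

/-- the set of complex numbers of a finite set of vertices -/
noncomputable def cs (X : Finset Vtx) : Set ℂ := cx '' (X : Set Vtx)

theorem cs_sub {X : Finset Vtx} : (cs X).Subsingleton ↔ (X : Set Vtx).Subsingleton :=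
  cx_inj.subsingleton_image_iff

theorem mem_cs {X : Finset Vtx} {v : Vtx} (h : v ∈ X) : cx v ∈ cs X :=
  Set.mem_image_of_mem _ (Finset.mem_coe.mpr h)

theorem sq_low {A c R : ℝ} (hA : 0 ≤ A) (hc : 0 ≤ c) (h : A ^ 2 ≤ c ^ 2 * R) :
    A ≤ c * Real.sqrt R := by
  have := Real.sqrt_le_sqrt h
  rwa [Real.sqrt_sq hA, Real.sqrt_mul (by positivity), Real.sqrt_sq hc] at this

theorem sq_up {A c R : ℝ} (hA : 0 ≤ A) (hc : 0 ≤ c) (h : R ≤ c ^ 2 * A ^ 2) :
    Real.sqrt R ≤ c * A := by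
  have := Real.sqrt_le_sqrt h
  rwa [← mul_pow, Real.sqrt_sq (by positivity)] at this

section
variable {D : Set Vtx} {e : Vtx → ℕ → ℝ} {k K : ℝ} {g : ℂ → ℂ → ℝ}

theorem gd_cmp (hone : ∀ v ∈ D, e v 1 = 1) (hg : TwoP D e g K) (hK : 1 ≤ K) {U : Finset Vtx}
    (hU : ∀ u ∈ U, u ∈ D) {u u' : Vtx} (hu : u ∈ U) (hu' : u' ∈ U)
    (hs : u = u' → (U : Set Vtx).Subsingleton) :
    Cmp K (e u (max (sd u u') 1) * e u' (max (sd u u') 1)) (gd g (cs U) (cx u) (cx u')) := by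
  unfold gd
  by_cases h : u = u'
  · rw [if_pos (cs_sub.mpr (hs h))]
    subst h
    rw [sd_self, show max 0 1 = 1 from rfl, hone u (hU u hu), mul_one]
    exact (Cmp.refl one_pos).weaken hK
  · have h2 : ¬ (cs U).Subsingleton := by
      rw [cs_sub]
      intro h3
      exact h (h3 (Finset.mem_coe.mpr hu) (Finset.mem_coe.mpr hu'))
    rw [if_neg h2, max_eq_left (sd_pos h)]
    exact hg u (hU u hu) u' (hU u' hu') h

/-- one four-point ratio -/
theorem rt4_cmp (hone : ∀ v ∈ D, e v 1 = 1) (hg : TwoP D e g K) (hK : 1 ≤ K)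
    {U X : Finset Vtx} (hU : ∀ u ∈ U, u ∈ D) (hX : ∀ u ∈ X, u ∈ D) (hdj : Disjoint U X)
    {u u' x x' : Vtx} (hu : u ∈ U) (hu' : u' ∈ U) (hx : x ∈ X) (hx' : x' ∈ X)
    (hs : u = u' → (U : Set Vtx).Subsingleton) (hs' : x = x' → (X : Set Vtx).Subsingleton) :
    Cmp (K ^ 4) (Real.sqrt (R4 e u u' x x'))
      (rt4 g (cs U) (cs X) (cx u) (cx u') (cx x) (cx x')) := by
  have c1 := hg u (hU u hu) x (hX x hx) (fun h => Finset.disjoint_left.mp hdj hu (h ▸ hx))
  have c2 := hg u' (hU u' hu') x' (hX x' hx')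
    (fun h => Finset.disjoint_left.mp hdj hu' (h ▸ hx'))
  have c3 := gd_cmp hone hg hK hU hu hu' hs
  have c4 := gd_cmp hone hg hK hX hx hx' hs'
  unfold R4 rt4
  rw [Real.sqrt_eq_rpow, Real.sqrt_eq_rpow]
  exact (((c1.mul c2).div (c3.mul c4)).rpow (by norm_num) (by norm_num)).weaken
    (le_of_eq (by ring))

theorem far2 {X : Finset Vtx} {d : ℕ} (hd : Diam X d) {x0 : Vtx} (hx0 : x0 ∈ X) :
    ∃ x1 ∈ X, d ≤ 2 * sd x0 x1 ∧ (x0 = x1 → (X : Set Vtx).Subsingleton) := by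
  obtain ⟨⟨p, hp, q, hq, hpq⟩, hmax⟩ := hd
  have key : ∀ x1 ∈ X, d ≤ 2 * sd x0 x1 → (x0 = x1 → (X : Set Vtx).Subsingleton) := by
    intro x1 hx1 h heq
    rw [heq, sd_self] at h
    intro u hu v hv
    by_contra hne
    have h1 := sd_pos hne
    have h2 : sd u v ≤ d := hmax ⟨u, hu, v, hv, rfl⟩
    omega
  have t := sd_tri p x0 q
  have t2 := sd_comm p x0
  rcases Nat.lt_or_ge (sd x0 p) (sd x0 q) with h | h
  · exact ⟨q, hq, by omega, key q hq (by omega)⟩
  · exact ⟨p, hp, by omega, key p hp (by omega)⟩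

/-- cost of a set, in terms of the profile -/
noncomputable def cst (e : Vtx → ℕ → ℝ) (v : Vtx) (d a : ℕ) : ℝ := e v (max a d) / e v d

theorem cst_pos (h : Reg D e k) {v : Vtx} (hv : v ∈ D) {d : ℕ} (hd : 1 ≤ d) (a : ℕ) :
    0 < cst e v d a :=
  div_pos (h.pos v hv _ (hd.trans (le_max_right _ _))) (h.pos v hv d hd)

theorem cst_le (h : Reg D e k) {v : Vtx} (hv : v ∈ D) {d : ℕ} (hd : 1 ≤ d) (a : ℕ) :
    cst e v d a ≤ k := by
  unfold cst
  rw [div_le_iff₀ (h.pos v hv d hd)]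
  exact h.anti v hv d _ hd (le_max_right _ _)

theorem cst_cmp (h : Reg D e k) {u v : Vtx} (hu : u ∈ D) (hv : v ∈ D) {d : ℕ} (hd : 1 ≤ d)
    (a : ℕ) (huv : sd u v ≤ d) : Cmp k (cst e u d a) (cst e v d a) :=
  h.rat' hu hv huv hd (le_max_right _ _)

/-- the upper bound, first set not larger than the distance -/
theorem up_pair (h : Reg D e k) {U X : Finset Vtx} (hU : ∀ u ∈ U, u ∈ D) (hX : ∀ u ∈ X, u ∈ D)
    {a d D' : ℕ} (ha : 1 ≤ a) (hn : ∀ u ∈ U, ∀ x ∈ X, a ≤ sd u x) (hd : 1 ≤ d) (hD : 1 ≤ D')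
    (hda : d ≤ a) (hXd : ∀ x ∈ X, ∀ x' ∈ X, sd x x' ≤ d) (hUD : ∀ x ∈ U, ∀ x' ∈ U, sd x x' ≤ D')
    {u u' x x' : Vtx} (hu : u ∈ U) (hu' : u' ∈ U) (hx : x ∈ X) (hx' : x' ∈ X) {x0 u0 : Vtx}
    (hx0 : x0 ∈ X) (hu0 : u0 ∈ U) :
    Real.sqrt (R4 e u u' x x') ≤ k ^ 9 * (cst e x0 d a * cst e u0 D' a) := by
  have hk := h.hk
  have k0 : 0 < k := lt_of_lt_of_le one_pos h.hk
  have key : ∀ {u u' x x' : Vtx}, u ∈ U → u' ∈ U → x ∈ X → x' ∈ X → sd u x ≤ sd u' x' →
      Real.sqrt (R4 e u u' x x') ≤ k ^ 9 * (cst e x0 d a * cst e u0 D' a) := by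
    intro u u' x x' hu hu' hx hx' hle
    have t1 := R4_upper h (hU u hu) (hU u' hu') (hX x hx) (hX x' hx') ha hd hda (hn u hu x hx)
      (hn u' hu' x' hx') (hUD u hu u' hu') (hXd x hx x' hx') hD hle
    have c1 := cst_cmp h (hX x hx) (hX x0 hx0) hd a (hXd x hx x0 hx0)
    have c2 := cst_cmp h (hU u hu) (hU u0 hu0) hD a (hUD u hu u0 hu0)
    have q1 := cst_pos h (hX x hx) hd a
    have q2 := cst_pos h (hU u hu) hD a
    have t2 : R4 e u u' x x' ≤ (k ^ 7) ^ 2 * (cst e x d a * cst e u D' a) ^ 2 := by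
      refine t1.trans ?_
      unfold cst
      apply mul_le_mul_of_nonneg_right _ (by positivity)
      rw [← pow_mul]
      exact pow_le_pow_right₀ hk (by norm_num)
    have t3 := sq_up (by positivity) (by positivity) t2
    have c3 := (c1.mul c2).l
    calc _ ≤ _ := t3
      _ ≤ k ^ 7 * (k * k * (cst e x0 d a * cst e u0 D' a)) :=
          mul_le_mul_of_nonneg_left c3 (by positivity)
      _ = _ := by ring
  rcases Nat.le_total (sd u x) (sd u' x') with hc | hc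
  · exact key hu hu' hx hx' hc
  · rw [R4_flip]
    exact key hu' hu hx' hx hc

/-- the lower bound, first set not larger than the second -/
theorem low_pair (h : Reg D e k) {U X : Finset Vtx} (hU : ∀ u ∈ U, u ∈ D) (hX : ∀ u ∈ X, u ∈ D)
    {a d D' : ℕ} (ha : 1 ≤ a) (hn : ∀ u ∈ U, ∀ x ∈ X, a ≤ sd u x) (hd : 1 ≤ d)
    (hdD : d ≤ D') (hXd : ∀ x ∈ X, ∀ x' ∈ X, sd x x' ≤ d)
    (hUD : ∀ x ∈ U, ∀ x' ∈ U, sd x x' ≤ D')
    {u u' x x' : Vtx} (hu : u ∈ U) (hu' : u' ∈ U) (hx : x ∈ X) (hx' : x' ∈ X)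
    (hux : sd u x = a) (hm : D' ≤ 2 * max (sd u u') 1) (hm' : d ≤ 2 * max (sd x x') 1)
    {x0 u0 : Vtx} (hx0 : x0 ∈ X) (hu0 : u0 ∈ U) :
    cst e x0 d a * cst e u0 D' a ≤ k ^ 11 * Real.sqrt (R4 e u u' x x') := by
  have hk := h.hk
  have k0 : 0 < k := lt_of_lt_of_le one_pos h.hk
  have hD : 1 ≤ D' := hd.trans hdD
  have t1 := R4_lower h (hU u hu) (hU u' hu') (hX x hx) (hX x' hx') ha hd hdD hux
    (ha.trans (hn u' hu' x' hx')) (hUD u hu u' hu') hm (hXd x hx x' hx') hm'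
  have c1 := cst_cmp h (hX x0 hx0) (hX x hx) hd a (hXd x0 hx0 x hx)
  have c2 := cst_cmp h (hU u0 hu0) (hU u hu) hD a (hUD u0 hu0 u hu)
  have q1 := cst_pos h (hX x hx) hd a
  have q2 := cst_pos h (hU u hu) hD a
  have q3 := R4_pos h (hU u hu) (hU u' hu') (hX x hx) (hX x' hx') (by omega)
    (ha.trans (hn u' hu' x' hx'))
  have t2 : (cst e x d a * cst e u D' a) ^ 2 ≤ (k ^ 9) ^ 2 * R4 e u u' x x' := by
    unfold cst
    refine t1.trans ?_
    apply mul_le_mul_of_nonneg_right _ q3.le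
    rw [← pow_mul]
    exact pow_le_pow_right₀ hk (by norm_num)
  have t3 := sq_low (by positivity) (by positivity) t2
  have c3 := (c1.mul c2).l
  calc _ ≤ _ := c3
    _ ≤ k * k * (k ^ 9 * Real.sqrt (R4 e u u' x x')) :=
        mul_le_mul_of_nonneg_left t3 (by positivity)
    _ = _ := by ring

theorem gd_zero (g0 : ∀ z, g z z = 0) {A : Set ℂ} (hA : ¬ A.Subsingleton) (z : ℂ) :
    gd g A z z = 0 := by
  unfold gd
  rw [if_neg hA, g0]

/-- **The functional and the costs.** -/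
theorem Th_cmp (h : Reg D e k) (hone : ∀ v ∈ D, e v 1 = 1) (hg : TwoP D e g K) (hK : 1 ≤ K)
    (g0 : ∀ z, g z z = 0) {U X : Finset Vtx} (hU : ∀ u ∈ U, u ∈ D) (hX : ∀ u ∈ X, u ∈ D)
    {a d D' : ℕ} (ha : 1 ≤ a) (hnear : Near2 X U a) (hd : Diam X d) (hD' : Diam U D')
    {x y : Vtx} (hx : x ∈ X) (hy : y ∈ U) :
    Cmp (k ^ 11 * K ^ 4) (cst e x (max d 1) a * cst e y (max D' 1) a) (Th g (cs U) (cs X)) := by
  have hk := h.hk
  have k0 : 0 < k := lt_of_lt_of_le one_pos h.hk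
  have K0 : 0 < K := lt_of_lt_of_le one_pos hK
  have hdj : Disjoint U X := by
    rw [Finset.disjoint_left]
    intro v hv hv'
    have : a ≤ sd v v := hnear.2 ⟨v, hv', v, hv, rfl⟩
    rw [sd_self] at this
    omega
  have hn : ∀ u ∈ U, ∀ x ∈ X, a ≤ sd u x := by
    intro u hu x hx
    rw [sd_comm]
    exact hnear.2 ⟨x, hx, u, hu, rfl⟩
  have hXd : ∀ x ∈ X, ∀ x' ∈ X, sd x x' ≤ max d 1 :=
    fun x hx x' hx' => (hd.2 ⟨x, hx, x', hx', rfl⟩).trans (le_max_left _ _)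
  have hUD : ∀ x ∈ U, ∀ x' ∈ U, sd x x' ≤ max D' 1 :=
    fun x hx x' hx' => (hD'.2 ⟨x, hx, x', hx', rfl⟩).trans (le_max_left _ _)
  have d1 : 1 ≤ max d 1 := le_max_right _ _
  have D1 : 1 ≤ max D' 1 := le_max_right _ _
  set c := cst e x (max d 1) a * cst e y (max D' 1) a with hc
  have c0 : 0 < c := mul_pos (cst_pos h (hX x hx) d1 a) (cst_pos h (hU y hy) D1 a)
  have hfin : (Set.range (fun p : (cs U × cs U) × (cs X × cs X) =>
      rt4 g (cs U) (cs X) p.1.1 p.1.2 p.2.1 p.2.2)).Finite := by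
    have f1 : Finite (cs U) := (Set.Finite.image _ (Finset.finite_toSet U)).to_subtype
    have f2 : Finite (cs X) := (Set.Finite.image _ (Finset.finite_toSet X)).to_subtype
    exact Set.finite_range _
  have hbdd := hfin.bddAbove
  have hne : Nonempty ((cs U × cs U) × (cs X × cs X)) :=
    ⟨((⟨cx y, mem_cs hy⟩, ⟨cx y, mem_cs hy⟩), (⟨cx x, mem_cs hx⟩, ⟨cx x, mem_cs hx⟩))⟩
  -- the lower bound for the supremum
  obtain ⟨⟨x0, hx0, u0, hu0, hau⟩, -⟩ := hnear
  obtain ⟨x1, hx1, hx1d, hs'⟩ := far2 hd hx0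
  obtain ⟨u1, hu1, hu1d, hs⟩ := far2 hD' hu0
  have r1 : c ≤ k ^ 11 * Real.sqrt (R4 e u0 u1 x0 x1) := by
    rcases Nat.le_total (max d 1) (max D' 1) with hle | hle
    · exact low_pair h hU hX ha hn d1 hle hXd hUD hu0 hu1 hx0 hx1
        (by rw [sd_comm]; exact hau.symm) (by omega) (by omega) hx hy
    · rw [R4_swap, hc, mul_comm]
      exact low_pair h hX hU ha (fun u hu x hx => by rw [sd_comm]; exact hn x hx u hu) D1 hle
        hUD hXd hx0 hx1 hu0 hu1 hau.symm (by omega) (by omega) hy hx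
  have r2 := rt4_cmp hone hg hK hU hX hdj hu0 hu1 hx0 hx1 hs hs'
  have r3 : rt4 g (cs U) (cs X) (cx u0) (cx u1) (cx x0) (cx x1) ≤ th g (cs U) (cs X) :=
    le_ciSup hbdd (((⟨cx u0, mem_cs hu0⟩, ⟨cx u1, mem_cs hu1⟩),
      (⟨cx x0, mem_cs hx0⟩, ⟨cx x1, mem_cs hx1⟩)) : (cs U × cs U) × (cs X × cs X))
  have L : c ≤ k ^ 11 * K ^ 4 * th g (cs U) (cs X) := by
    calc c ≤ k ^ 11 * Real.sqrt (R4 e u0 u1 x0 x1) := r1
      _ ≤ k ^ 11 * (K ^ 4 * rt4 g (cs U) (cs X) (cx u0) (cx u1) (cx x0) (cx x1)) :=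
          mul_le_mul_of_nonneg_left r2.l (by positivity)
      _ ≤ k ^ 11 * (K ^ 4 * th g (cs U) (cs X)) := by
          apply mul_le_mul_of_nonneg_left _ (by positivity)
          exact mul_le_mul_of_nonneg_left r3 (by positivity)
      _ = _ := by ring
  have th0 : 0 < th g (cs U) (cs X) := lt_of_lt_of_le r2.hy r3
  -- the upper bound for the supremum
  have Up : (max d 1 ≤ a ∨ max D' 1 ≤ a) →
      th g (cs U) (cs X) ≤ k ^ 9 * K ^ 4 * c := by
    intro hcase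
    apply ciSup_le
    rintro ⟨⟨⟨_, u, hu, rfl⟩, ⟨_, u', hu', rfl⟩⟩, ⟨⟨_, v, hv, rfl⟩, ⟨_, v', hv', rfl⟩⟩⟩
    rw [Finset.mem_coe] at hu hu' hv hv'
    show rt4 g (cs U) (cs X) (cx u) (cx u') (cx v) (cx v') ≤ _
    by_cases g1 : u = u' → (U : Set Vtx).Subsingleton
    · by_cases g2 : v = v' → (X : Set Vtx).Subsingleton
      · have q1 := rt4_cmp hone hg hK hU hX hdj hu hu' hv hv' g1 g2
        have q2 : Real.sqrt (R4 e u u' v v') ≤ k ^ 9 * c := by
          rcases hcase with hcase | hcase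
          · exact up_pair h hU hX ha hn d1 D1 hcase hXd hUD hu hu' hv hv' hx hy
          · rw [R4_swap, hc, mul_comm (cst e x (max d 1) a)]
            exact up_pair h hX hU ha (fun u hu x hx => by rw [sd_comm]; exact hn x hx u hu) D1 d1
              hcase hUD hXd hv hv' hu hu' hy hx
        calc _ ≤ K ^ 4 * Real.sqrt (R4 e u u' v v') := q1.r
          _ ≤ K ^ 4 * (k ^ 9 * c) := mul_le_mul_of_nonneg_left q2 (by positivity)
          _ = _ := by ring
      · push Not at g2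
        obtain ⟨rfl, g3⟩ := g2
        unfold rt4
        rw [gd_zero g0 (A := cs X) (by rw [cs_sub]; exact Set.not_subsingleton_iff.mpr g3), mul_zero, div_zero,
          Real.sqrt_zero]
        positivity
    · push Not at g1
      obtain ⟨rfl, g3⟩ := g1
      unfold rt4
      rw [gd_zero g0 (A := cs U) (by rw [cs_sub]; exact Set.not_subsingleton_iff.mpr g3), zero_mul, div_zero,
        Real.sqrt_zero]
      positivity
  have hkk : k ^ 9 ≤ k ^ 11 := pow_le_pow_right₀ hk (by norm_num)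
  have hK4 : 1 ≤ K ^ 4 := one_le_pow₀ hK
  have hk11 : 1 ≤ k ^ 11 := one_le_pow₀ hk
  have hC1 : 1 ≤ k ^ 11 * K ^ 4 := Cmp.one_le_mul' hk11 hK4
  have hUp2 : (max d 1 ≤ a ∨ max D' 1 ≤ a) →
      th g (cs U) (cs X) ≤ k ^ 11 * K ^ 4 * c := by
    intro hcase
    refine (Up hcase).trans ?_
    apply mul_le_mul_of_nonneg_right _ c0.le
    exact mul_le_mul_of_nonneg_right hkk (by positivity)
  unfold Th
  by_cases hsub : (cs U).Subsingleton ∨ (cs X).Subsingleton
  · rw [if_pos hsub]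
    refine ⟨hC1, c0, th0, L, hUp2 ?_⟩
    have zero : ∀ {Y : Finset Vtx} {q : ℕ}, Diam Y q → (cs Y).Subsingleton → q = 0 := by
      intro Y q hq hs
      rw [cs_sub] at hs
      obtain ⟨⟨p, hp, r, hr, hpr⟩, -⟩ := hq
      have := hs (Finset.mem_coe.mpr hp) (Finset.mem_coe.mpr hr)
      rw [this, sd_self] at hpr
      exact hpr
    rcases hsub with hsub | hsub
    · right
      rw [zero hD' hsub]
      exact ha
    · left
      rw [zero hd hsub]
      exact ha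
  · rw [if_neg hsub]
    have hcle : c ≤ k ^ 11 * K ^ 4 * 1 := by
      have q1 := cst_le h (hX x hx) d1 a
      have q2 := cst_le h (hU y hy) D1 a
      calc c ≤ k * k := mul_le_mul q1 q2 (cst_pos h (hU y hy) D1 a).le k0.le
        _ = k ^ 2 := by ring
        _ ≤ k ^ 11 := pow_le_pow_right₀ hk (by norm_num)
        _ = k ^ 11 * 1 := (mul_one _).symm
        _ ≤ k ^ 11 * K ^ 4 := mul_le_mul_of_nonneg_left hK4 (by positivity)
        _ = _ := (mul_one _).symm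
    have hm0 : 0 < min 1 (th g (cs U) (cs X)) := lt_min one_pos th0
    refine ⟨hC1, c0, hm0, ?_, ?_⟩
    · rw [mul_min_of_nonneg _ _ (by positivity)]
      exact le_min hcle L
    · by_cases hcase : max d 1 ≤ a ∨ max D' 1 ≤ a
      · exact (min_le_right _ _).trans (hUp2 hcase)
      · push Not at hcase
        have e1 : c = 1 := by
          rw [hc]
          unfold cst
          rw [max_eq_right hcase.1.le, max_eq_right hcase.2.le,
            div_self (h.pos x (hX x hx) _ d1).ne', div_self (h.pos y (hU y hy) _ D1).ne', mul_one]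
        rw [e1, mul_one]
        exact (min_le_left _ _).trans hC1

end

end H67CS
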