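import Pool.Agent.TH976.AddK

/-!
Connection of wired sets, quadrant: adding a set which is far from the others (upper bounds).
-/

set_option autoImplicit false

namespace H67CS
open Finset H974 Pool.Agent.H160R2.CV H362P TH976
open Pool.Agent.H160R2.CV.Quad
open H973 (dlt dlt_pos dlt_le rswL)

/-- all vertices of `X` are in one cluster when the edges of `W` are added -/
def CW (X : Finset Vtx) (W : Finset Edg) (F : Set Edg) : Prop := Cn X (F ∪ ↑W)

theorem CW.mono {X : Finset Vtx} {W : Finset Edg} {F G : Set Edg} (h : F ⊆ G) (hF : CW X W F) :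
    CW X W G := Cn.mono (Set.union_subset_union_left _ h) hF

theorem CW_incr (S : Finset Edg) (X : Finset Vtx) (W : Finset Edg) :
    IncrE S (fun F => CW X W (↑F)) :=
  fun _ _ h _ hF => CW.mono (by exact_mod_cast h) hF

theorem nonneg_of_InV {e : Edg} (h : InV (src e)) : 0 ≤ e.1 ∧ 0 ≤ e.2.1 := by
  obtain ⟨x, y, b⟩ := e
  rw [src_mk] at h
  exact h

theorem mem_qb_of {c : Vtx} {m : ℕ} {e : Edg} (h : (InV (src e) ∧ sd (src e) c ≤ m) ∧
    (InV (tgt e) ∧ sd (tgt e) c ≤ m)) : e ∈ qb c m := by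
  obtain ⟨x, y, _ | _⟩ := e
  · simp only [src_mk, tgt_false, InV, sd] at h
    simp only [qb, mem_RE_false]
    omega
  · simp only [src_mk, tgt_true, InV, sd] at h
    simp only [qb, mem_RE_true]
    omega

/-- the ends of the edges of `W` satisfy `T` -/
def Ends (W : Finset Edg) (T : Vtx → Prop) : Prop := ∀ e ∈ W, T (src e) ∧ T (tgt e)

theorem inQ_of {W : Finset Edg} {T : Vtx → Prop} (h : Ends W T) (hT : ∀ v, T v → InV v) : InQ W :=
  fun e he => nonneg_of_InV (hT _ (h e he).1)

theorem inQ_union {F G : Finset Edg} (hF : InQ F) (hG : InQ G) : InQ (F ∪ G) := by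
  intro e he
  rcases Finset.mem_union.mp he with h | h
  · exact hF e h
  · exact hG e h

theorem coe_un (F W : Finset Edg) : (↑F ∪ ↑W : Set Edg) = ↑(F ∪ W) := (Finset.coe_union F W).symm

/-- **Far.** decoupling the neighbourhood of the new set -/
theorem up1 {X K : Finset Vtx} {W V : Finset Edg} {x y : Vtx} (hx : InV x) {a d : ℕ}
    (hxK : x ∈ K) (hyX : y ∈ X) (hd : 1 ≤ d) (had : 9 * d ≤ a)
    (hV : Ends V (fun v => InV v ∧ sd v x ≤ d))
    (hX : ∀ u ∈ X, InV u ∧ a ≤ sd u x) (hW : Ends W (fun v => InV v ∧ a ≤ sd v x))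
    {S : Finset Edg} (hSQ : InQ S) (hS : qb x a ⊆ S) :
    k4 * Pr P S (fun F => CW (K ∪ X) (V ∪ W) (↑F)) ≤
      bq x d (a / 3) * Pr P S (fun F => CW X W (↑F)) := by
  classical
  set r := a / 3 with hr
  have hr1 : 1 ≤ r := by omega
  have h3r : 3 * r ≤ a := by omega
  have hdr : 3 * d ≤ r := by omega
  set B := qb x r with hB
  set S2 := S \ B with hS2
  set E : Finset Edg → Prop := fun F => Cn X (↑(F ∩ S2) ∪ (↑B ∪ ↑W)) with hE
  have hEi : IncA E := by
    intro F G h hF
    refine Cn.mono (Set.union_subset_union_left _ ?_) hF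
    exact_mod_cast Finset.inter_subset_inter_right h
  have hEl : LocE S2 E := by
    intro F
    rw [hE]
    simp only [Finset.inter_assoc, Finset.inter_self]
  have hVQ : InQ V := inQ_of hV fun _ h => h.1
  have hWQ : InQ W := inQ_of hW fun _ h => h.1
  have hd' : Disjoint (B \ qb x d) S2 := by
    rw [hS2]; exact Finset.disjoint_of_subset_left Finset.sdiff_subset Finset.disjoint_sdiff
  have hVd : V ⊆ qb x d := fun e he => mem_qb_of (hV e he)
  have hWd : ∀ e ∈ W, e ∉ B := by
    intro e he h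
    have h1 := (qb_ends h).1.2
    have h2 := (hW e he).1.2
    omega
  have s1 : Pr P S (fun F => CW (K ∪ X) (V ∪ W) (↑F)) ≤
      Pr P S (fun F => CxL x d r F ∧ E F) := by
    apply Pr_mono okP
    intro F hFS hF
    have hF'Q : InQ (F ∪ (V ∪ W)) := inQ_union (hSQ.mono hFS) (inQ_union hVQ hWQ)
    have hF' : Cn (K ∪ X) (↑(F ∪ (V ∪ W)) : Set Edg) := by rw [← coe_un]; exact hF
    constructor
    · have h1 : Cx x d a (F ∪ (V ∪ W)) := ⟨x, y, hx, by rw [sd_self]; omega, (hX y hyX).2,
        hF' x (Finset.mem_union_left _ hxK) y (Finset.mem_union_right _ hyX)⟩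
      have h2 : Cx x d r (F ∪ (V ∪ W)) := by
        obtain ⟨u, v, h3, h4, h5, h6⟩ := h1
        exact ⟨u, v, h3, h4, by omega, h6⟩
      have h3 := Cx_loc hF'Q (by omega) h2
      refine h3.mono ?_
      intro e he
      rw [Finset.mem_inter, Finset.mem_sdiff, Finset.mem_union, Finset.mem_union] at he
      rw [Finset.mem_inter, Finset.mem_sdiff]
      obtain ⟨h4 | h4 | h4, h5, h6⟩ := he
      · exact ⟨h4, h5, h6⟩
      · exact absurd (hVd h4) h6
      · exact absurd h5 (hWd e h4)
    · intro u hu v hv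
      refine (hF' u (Finset.mem_union_right _ hu) v (Finset.mem_union_right _ hv)).mono ?_
      intro e he
      rw [Finset.mem_coe, Finset.mem_union, Finset.mem_union] at he
      by_cases h1 : e ∈ B
      · exact Or.inr (Or.inl (by exact_mod_cast h1))
      · rcases he with he | he | he
        · left
          rw [Finset.mem_coe, Finset.mem_inter, hS2, Finset.mem_sdiff]
          exact ⟨he, hFS he, h1⟩
        · exact absurd (qb_mono (by omega) (hVd he)) h1
        · exact Or.inr (Or.inr (by exact_mod_cast he))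
  have s2 := indep2 S (B \ qb x d) S2 hd' (CxL_inc x d r) hEi (CxL_loc x d r) hEl
  rw [pr_CxL] at s2
  have s4 : Pr P S2 E ≤ Pr P S E :=
    Pr_mono_set okP Finset.sdiff_subset (fun F G h _ => hEi F G h)
  have hcirc : k4 ≤ Pr P S (CQ x r) := pr_CQ' hx hr1 ((qb_mono h3r).trans hS)
  have s5 : Pr P S E * Pr P S (CQ x r) ≤ Pr P S (fun F => CW X W (↑F)) := by
    refine (Pr_harris okP (fun F G h _ => hEi F G h) (CQ_incr S x r)).trans ?_
    apply Pr_mono okP
    rintro F hFS ⟨h1, h2⟩
    intro u hu v hv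
    rw [coe_un]
    refine unwireQ_in hx hr1 (inQ_union (hSQ.mono hFS) hWQ) (h2.mono Finset.subset_union_left)
      (A := ↑B) ?_ (h3r.trans (hX u hu).2) (h3r.trans (hX v hv).2) ?_
    · intro e he
      exact qb_ends (Finset.mem_coe.mp he)
    · refine (h1 u hu v hv).mono ?_
      rintro e (he | he | he)
      · left
        rw [Finset.mem_coe, Finset.mem_inter] at he
        rw [Finset.mem_coe, Finset.mem_union]
        exact Or.inl he.1
      · exact Or.inr he
      · left
        rw [Finset.mem_coe, Finset.mem_union]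
        exact Or.inr (Finset.mem_coe.mp he)
  have p0 : 0 ≤ Pr P S E := Pr_nonneg okP _ _
  have p1 : 0 ≤ bq x d r := bq_nonneg x d r
  have s6 : k4 * Pr P S E ≤ Pr P S (fun F => CW X W (↑F)) := by
    rw [mul_comm]
    exact (mul_le_mul_of_nonneg_left hcirc p0).trans s5
  calc k4 * Pr P S (fun F => CW (K ∪ X) (V ∪ W) (↑F)) ≤ k4 * (bq x d r * Pr P S2 E) :=
        mul_le_mul_of_nonneg_left (s1.trans s2) k4_pos.le
    _ = bq x d r * (k4 * Pr P S2 E) := by ring
    _ ≤ bq x d r * (k4 * Pr P S E) := by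
        apply mul_le_mul_of_nonneg_left _ p1
        exact mul_le_mul_of_nonneg_left s4 k4_pos.le
    _ ≤ _ := mul_le_mul_of_nonneg_left s6 p1

/-- **Far.** the new set is far from the others and all sets are small -/
theorem up2 {X K : Finset Vtx} {W V : Finset Edg} {x y : Vtx} (hx : InV x) (hy : InV y)
    {a d R : ℕ} (hxK : x ∈ K) (hyX : y ∈ X) (hd : 1 ≤ d) (hdR : d ≤ R) (haR : 27 * R ≤ a)
    (hxy : sd x y = a) (hV : Ends V (fun v => InV v ∧ sd v x ≤ d))
    (hX : ∀ u ∈ X, InV u ∧ sd u y ≤ R) (hW : Ends W (fun v => InV v ∧ sd v y ≤ R))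
    {S : Finset Edg} (hSQ : InQ S) (hS : qb y (3 * R) ⊆ S) :
    k4 * Pr P S (fun F => CW (K ∪ X) (V ∪ W) (↑F)) ≤
      bq x d (a / 3) * (bq y (3 * R) (a / 3) * Pr P S (fun F => CW X W (↑F))) := by
  classical
  have hR : 1 ≤ R := hd.trans hdR
  set n := a / 3 with hn
  have hn1 : 9 * R ≤ n := by omega
  set B := qb y (3 * R) with hB
  set A2 := qb y n \ B with hA2
  set O : Set Edg := {e | (0 ≤ e.1 ∧ 0 ≤ e.2.1) ∧ e ∉ B} with hO
  set E : Finset Edg → Prop := fun F => Cn X (↑(F ∩ B) ∪ (O ∪ ↑W)) with hE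
  have hVQ : InQ V := inQ_of hV fun _ h => h.1
  have hWQ : InQ W := inQ_of hW fun _ h => h.1
  have hVd : V ⊆ qb x d := fun e he => mem_qb_of (hV e he)
  have hWd : W ⊆ qb y R := fun e he => mem_qb_of (hW e he)
  have hWB : W ⊆ B := hWd.trans (qb_mono (by omega))
  have hEi : IncA E := by
    intro F G h hF
    refine Cn.mono (Set.union_subset_union_left _ ?_) hF
    exact_mod_cast Finset.inter_subset_inter_right h
  have hEl : LocE B E := by
    intro F
    rw [hE]
    simp only [Finset.inter_assoc, Finset.inter_self]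
  have hCi : IncA (CxL y (3 * R) n) := CxL_inc _ _ _
  have hCl : LocE A2 (CxL y (3 * R) n) := CxL_loc _ _ _
  have hd2 : Disjoint B A2 := by rw [hA2]; exact Finset.disjoint_sdiff
  have hBn : B ⊆ qb y n := qb_mono (by omega)
  have hd1' : Disjoint (qb x n) (B ∪ A2) := by
    have h1 : B ∪ A2 ⊆ qb y n := Finset.union_subset hBn (by rw [hA2]; exact Finset.sdiff_subset)
    exact Finset.disjoint_of_subset_right h1 (qb_disj (by omega))
  have hd1 : Disjoint (qb x n \ qb x d) (B ∪ A2) :=
    Finset.disjoint_of_subset_left Finset.sdiff_subset hd1'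
  have hBi : IncA (fun F => E F ∧ CxL y (3 * R) n F) :=
    fun F G h hF => ⟨hEi F G h hF.1, hCi F G h hF.2⟩
  have hBl : LocE (B ∪ A2) (fun F => E F ∧ CxL y (3 * R) n F) := by
    intro F
    show (E F ∧ CxL y (3 * R) n F) ↔ (E (F ∩ (B ∪ A2)) ∧ CxL y (3 * R) n (F ∩ (B ∪ A2)))
    rw [hEl F, hCl F, hEl (F ∩ (B ∪ A2)), hCl (F ∩ (B ∪ A2))]
    have e1 : F ∩ (B ∪ A2) ∩ B = F ∩ B := by
      ext e; simp only [Finset.mem_inter, Finset.mem_union]; tauto
    have e2 : F ∩ (B ∪ A2) ∩ A2 = F ∩ A2 := by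
      ext e; simp only [Finset.mem_inter, Finset.mem_union]; tauto
    rw [e1, e2]
  have far : ∀ e, e ∈ qb x n → e ∈ qb y n → False := by
    intro e h1 h2
    have h3 := (qb_ends h1).1.2
    have h4 := (qb_ends h2).1.2
    have h5 := sd_tri x (src e) y
    have h6 := sd_comm x (src e)
    omega
  have s1 : Pr P S (fun F => CW (K ∪ X) (V ∪ W) (↑F)) ≤
      Pr P S (fun F => CxL x d n F ∧ (E F ∧ CxL y (3 * R) n F)) := by
    apply Pr_mono okP
    intro F hFS hF
    have hF'Q : InQ (F ∪ (V ∪ W)) := inQ_union (hSQ.mono hFS) (inQ_union hVQ hWQ)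
    have hF' : Cn (K ∪ X) (↑(F ∪ (V ∪ W)) : Set Edg) := by rw [← coe_un]; exact hF
    have hxy' : Reach (↑(F ∪ (V ∪ W)) : Set Edg) x y :=
      hF' x (Finset.mem_union_left _ hxK) y (Finset.mem_union_right _ hyX)
    refine ⟨?_, ?_, ?_⟩
    · have h2 : Cx x d n (F ∪ (V ∪ W)) :=
        ⟨x, y, hx, by rw [sd_self]; omega, by rw [sd_comm]; omega, hxy'⟩
      refine (Cx_loc hF'Q (by omega) h2).mono ?_
      intro e he
      rw [Finset.mem_inter, Finset.mem_sdiff, Finset.mem_union, Finset.mem_union] at he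
      rw [Finset.mem_inter, Finset.mem_sdiff]
      obtain ⟨h4 | h4 | h4, h5, h6⟩ := he
      · exact ⟨h4, h5, h6⟩
      · exact absurd (hVd h4) h6
      · exact (far e h5 (hBn (hWB h4))).elim
    · intro u hu v hv
      refine (hF' u (Finset.mem_union_right _ hu) v (Finset.mem_union_right _ hv)).mono ?_
      intro e he
      rw [Finset.mem_coe, Finset.mem_union, Finset.mem_union] at he
      by_cases h1 : e ∈ B
      · rcases he with he | he | he
        · left
          rw [Finset.mem_coe, Finset.mem_inter]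
          exact ⟨he, h1⟩
        · exact (far e (qb_mono (by omega) (hVd he)) (hBn h1)).elim
        · exact Or.inr (Or.inr (by exact_mod_cast he))
      · refine Or.inr (Or.inl ⟨hF'Q e ?_, h1⟩)
        rw [Finset.mem_union, Finset.mem_union]
        exact he
    · have h2 : Cx y (3 * R) n (F ∪ (V ∪ W)) :=
        ⟨y, x, hy, by rw [sd_self]; omega, by omega, hxy'.symm⟩
      refine (Cx_loc hF'Q (by omega) h2).mono ?_
      intro e he
      rw [Finset.mem_inter, Finset.mem_sdiff, Finset.mem_union, Finset.mem_union] at he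
      rw [Finset.mem_inter, Finset.mem_sdiff]
      obtain ⟨h4 | h4 | h4, h5, h6⟩ := he
      · exact ⟨h4, h5, h6⟩
      · exact (far e (qb_mono (by omega) (hVd h4)) h5).elim
      · exact absurd (hWB h4) h6
  have s2 := indep2 S (qb x n \ qb x d) (B ∪ A2) hd1 (CxL_inc x d n) hBi (CxL_loc x d n) hBl
  rw [pr_CxL] at s2
  have s2' := indep2 (B ∪ A2) B A2 hd2 hEi hCi hEl hCl
  have e3 : Pr P A2 (CxL y (3 * R) n) = bq y (3 * R) n := pr_CxL _ _ _
  rw [e3] at s2'
  have s4 : Pr P B E ≤ Pr P S E := Pr_mono_set okP hS (fun F G h _ => hEi F G h)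
  have hcirc : k4 ≤ Pr P S (CQ y R) := pr_CQ' hy hR hS
  have s5 : Pr P S E * Pr P S (CQ y R) ≤ Pr P S (fun F => CW X W (↑F)) := by
    refine (Pr_harris okP (fun F G h _ => hEi F G h) (CQ_incr S y R)).trans ?_
    apply Pr_mono okP
    rintro F hFS ⟨h1, h2⟩
    intro u hu v hv
    rw [coe_un]
    refine unwireQ_out hy hR (inQ_union (hSQ.mono hFS) hWQ) (h2.mono Finset.subset_union_left)
      (A := O) ?_ (hX u hu).1 (hX v hv).1 (hX u hu).2 (hX v hv).2 ?_
    · rintro e ⟨he1, he2⟩
      exact qb_ends' he1 he2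
    · refine (h1 u hu v hv).mono ?_
      rintro e (he | he | he)
      · left
        rw [Finset.mem_coe, Finset.mem_inter] at he
        rw [Finset.mem_coe, Finset.mem_union]
        exact Or.inl he.1
      · exact Or.inr he
      · left
        rw [Finset.mem_coe, Finset.mem_union]
        exact Or.inr (Finset.mem_coe.mp he)
  have p0 : 0 ≤ Pr P S E := Pr_nonneg okP _ _
  have p1 : 0 ≤ bq x d n := bq_nonneg _ _ _
  have p2 : 0 ≤ bq y (3 * R) n := bq_nonneg _ _ _
  have s6 : k4 * Pr P S E ≤ Pr P S (fun F => CW X W (↑F)) := by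
    rw [mul_comm]
    exact (mul_le_mul_of_nonneg_left hcirc p0).trans s5
  calc k4 * Pr P S (fun F => CW (K ∪ X) (V ∪ W) (↑F))
      ≤ k4 * (bq x d n * (Pr P S E * bq y (3 * R) n)) := by
        apply mul_le_mul_of_nonneg_left _ k4_pos.le
        refine (s1.trans s2).trans (mul_le_mul_of_nonneg_left ?_ p1)
        exact s2'.trans (mul_le_mul_of_nonneg_right s4 p2)
    _ = bq x d n * (bq y (3 * R) n * (k4 * Pr P S E)) := by ring
    _ ≤ _ := by
        apply mul_le_mul_of_nonneg_left _ p1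
        exact mul_le_mul_of_nonneg_left s6 p2

end H67CS
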